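import Pool.Agent.P.MP_626a52_co.Defs

-- part Pool.Agent.P.MP_626a52_co.Geo
section

namespace Pool.Agent.P.MP_626a52_co
open Set

abbrev E2 := EuclideanSpace ℝ (Fin 2)
abbrev E3 := EuclideanSpace ℝ (Fin 3)

def toCell (z : ℤ × ℤ) : ℤ × ℤ := ((z.1 + z.2 - 1) / 2, (z.2 - z.1 - 1) / 2)
def Black (z : ℤ × ℤ) : Prop := (z.1 + z.2) % 2 = 1
instance (z : ℤ × ℤ) : Decidable (Black z) := by unfold Black; infer_instance

def Dia (z : ℤ × ℤ) (x y : ℝ) : Prop :=
  -1 ≤ (x - z.1) + (y - z.2) ∧ (x - z.1) + (y - z.2) ≤ 1 ∧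
  -1 ≤ (y - z.2) - (x - z.1) ∧ (y - z.2) - (x - z.1) ≤ 1

def DiaO (z : ℤ × ℤ) (x y : ℝ) : Prop :=
  -1 < (x - z.1) + (y - z.2) ∧ (x - z.1) + (y - z.2) < 1 ∧
  -1 < (y - z.2) - (x - z.1) ∧ (y - z.2) - (x - z.1) < 1

theorem toCell_cast {z : ℤ × ℤ} (hz : Black z) :
    (2 * ((toCell z).1 : ℝ) = z.1 + z.2 - 1) ∧ (2 * ((toCell z).2 : ℝ) = z.2 - z.1 - 1) := by
  unfold Black at hz
  have h1 : 2 * (toCell z).1 = z.1 + z.2 - 1 := by simp only [toCell]; omega
  have h2 : 2 * (toCell z).2 = z.2 - z.1 - 1 := by simp only [toCell]; omega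
  exact ⟨by exact_mod_cast h1, by exact_mod_cast h2⟩

theorem mem_square {z : ℤ × ℤ} (hz : Black z) (p : E2) :
    p ∈ square (toCell z) ↔ Dia z (p 0 - p 1) (p 0 + p 1) := by
  obtain ⟨h1, h2⟩ := toCell_cast hz
  simp only [square, Dia, mem_ofPred_eq]
  constructor
  · rintro ⟨a, b, c, d⟩; refine ⟨?_, ?_, ?_, ?_⟩ <;> linarith
  · rintro ⟨a, b, c, d⟩; refine ⟨?_, ?_, ?_, ?_⟩ <;> linarith

theorem toCell_inj {z w : ℤ × ℤ} (hz : Black z) (hw : Black w) (h : toCell z = toCell w) :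
    z = w := by
  unfold Black at hz hw
  simp only [toCell, Prod.mk.injEq] at h
  ext <;> omega

structure Ch where
  i : ℕ
  j : ℕ
  F : ℕ
  r : ℕ

def rotN : ℕ → ℝ → ℝ → ℝ × ℝ
  | 0, a, b => (a, b)
  | 1, a, b => (1 - b, a)
  | 2, a, b => (1 - a, 1 - b)
  | _, a, b => (b, 1 - a)

def face : ℕ → ℝ × ℝ → Fin 3 → ℝ
  | 0, q => ![q.1, q.2, 1]
  | 1, q => ![1, q.1, q.2]
  | 2, q => ![q.2, 1, q.1]
  | 3, q => ![q.2, q.1, 0]
  | 4, q => ![0, q.2, q.1]
  | _, q => ![q.1, 0, q.2]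

def rotZ (M : ℤ) : ℕ → ℤ → ℤ → ℤ × ℤ
  | 0, x, y => (x, y)
  | 1, x, y => (M - y, x)
  | 2, x, y => (M - x, M - y)
  | _, x, y => (y, M - x)

def cbx (A B : ℤ) (c : Ch) : ℤ := c.i * A + c.j * B
def cby (A B : ℤ) (c : Ch) : ℤ := c.j * A + (12 - c.i) * B
def can (A B : ℤ) (c : Ch) (z : ℤ × ℤ) : ℤ × ℤ :=
  rotZ (A + B) c.r (z.1 - cbx A B c) (z.2 - cby A B c)

noncomputable def al (A B : ℤ) (c : Ch) (x y : ℝ) : ℝ :=
  (A * x - B * (y - 13 * B)) / (A ^ 2 + B ^ 2) - c.i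
noncomputable def be (A B : ℤ) (c : Ch) (x y : ℝ) : ℝ :=
  (B * x + A * (y - 13 * B)) / (A ^ 2 + B ^ 2) - c.j

def InD (A B : ℤ) (c : Ch) (x y : ℝ) : Prop :=
  0 ≤ al A B c x y ∧ al A B c x y ≤ 1 ∧ 0 ≤ be A B c x y ∧ be A B c x y ≤ 1

noncomputable def psi (A B : ℤ) (c : Ch) (x y : ℝ) : Fin 3 → ℝ :=
  face c.F (rotN c.r (al A B c x y) (be A B c x y))

def InQ (A B : ℤ) (z : ℤ × ℤ) : Prop :=
  (B + 1 ≤ z.1 ∧ z.1 < A ∧ B + 1 ≤ z.2 ∧ z.2 < A) ∨
  (A ≤ z.1 ∧ z.1 < A + B + 1 ∧ 1 ≤ z.2 ∧ z.2 < A) ∨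
  (B + 1 ≤ z.1 ∧ z.1 < A + B ∧ A ≤ z.2 ∧ z.2 < A + B + 1) ∨
  (0 ≤ z.1 ∧ z.1 < B + 1 ∧ B + 1 ≤ z.2 ∧ z.2 < A + B) ∨
  (1 ≤ z.1 ∧ z.1 < A ∧ 0 ≤ z.2 ∧ z.2 < B + 1)

theorem N_pos {A B : ℤ} (hA : 0 < A) : (0 : ℝ) < (A : ℝ) ^ 2 + (B : ℝ) ^ 2 := by
  have : (0 : ℝ) < A := by exact_mod_cast hA
  positivity

theorem rel_x {A B : ℤ} (hA : 0 < A) (c : Ch) (x y : ℝ) :
    A * al A B c x y + B * be A B c x y = x - cbx A B c := by
  have hN := N_pos (B := B) hA
  simp only [al, be, cbx]; push_cast; field_simp; ring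

theorem rel_y {A B : ℤ} (hA : 0 < A) (c : Ch) (x y : ℝ) :
    B - B * al A B c x y + A * be A B c x y = y - cby A B c := by
  have hN := N_pos (B := B) hA
  simp only [al, be, cby]; push_cast; field_simp; ring

/-- canonical position of the point with normalised coordinates `q` -/
def ptx (A B : ℤ) (q : ℝ × ℝ) : ℝ := A * q.1 + B * q.2
def pty (A B : ℤ) (q : ℝ × ℝ) : ℝ := B - B * q.1 + A * q.2

theorem dia_can {A B : ℤ} (hA : 0 < A) (c : Ch) (z : ℤ × ℤ) (x y : ℝ) :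
    (Dia z x y ↔ Dia (can A B c z) (ptx A B (rotN c.r (al A B c x y) (be A B c x y)))
      (pty A B (rotN c.r (al A B c x y) (be A B c x y)))) ∧
    (DiaO z x y → DiaO (can A B c z) (ptx A B (rotN c.r (al A B c x y) (be A B c x y)))
      (pty A B (rotN c.r (al A B c x y) (be A B c x y)))) := by
  have hx := rel_x (B := B) hA c x y
  have hy := rel_y (B := B) hA c x y
  generalize al A B c x y = a at *
  generalize be A B c x y = b at *
  unfold can
  generalize c.r = r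
  match r with
  | 0 =>
    simp only [rotZ, rotN, Dia, DiaO, ptx, pty]; push_cast
    refine ⟨⟨?_, ?_⟩, ?_⟩ <;> rintro ⟨h1, h2, h3, h4⟩ <;> refine ⟨?_, ?_, ?_, ?_⟩ <;> linarith
  | 1 =>
    simp only [rotZ, rotN, Dia, DiaO, ptx, pty]; push_cast
    refine ⟨⟨?_, ?_⟩, ?_⟩ <;> rintro ⟨h1, h2, h3, h4⟩ <;> refine ⟨?_, ?_, ?_, ?_⟩ <;> linarith
  | 2 =>
    simp only [rotZ, rotN, Dia, DiaO, ptx, pty]; push_cast
    refine ⟨⟨?_, ?_⟩, ?_⟩ <;> rintro ⟨h1, h2, h3, h4⟩ <;> refine ⟨?_, ?_, ?_, ?_⟩ <;> linarith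
  | (n + 3) =>
    simp only [rotZ, rotN, Dia, DiaO, ptx, pty]; push_cast
    refine ⟨⟨?_, ?_⟩, ?_⟩ <;> rintro ⟨h1, h2, h3, h4⟩ <;> refine ⟨?_, ?_, ?_, ?_⟩ <;> linarith

theorem black_can {A B : ℤ} (hAe : A % 2 = 0) (hBe : B % 2 = 0) (c : Ch) {z : ℤ × ℤ}
    (hz : Black z) : Black (can A B c z) := by
  obtain ⟨a, rfl⟩ : ∃ a, A = 2 * a := ⟨A / 2, by omega⟩
  obtain ⟨b, rfl⟩ : ∃ b, B = 2 * b := ⟨B / 2, by omega⟩
  have h1 : cbx (2 * a) (2 * b) c = 2 * (c.i * a + c.j * b) := by unfold cbx; ring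
  have h2 : cby (2 * a) (2 * b) c = 2 * (c.j * a + (12 - c.i) * b) := by unfold cby; ring
  unfold can; rw [h1, h2]
  generalize (c.i : ℤ) * a + c.j * b = u
  generalize (c.j : ℤ) * a + (12 - c.i) * b = v
  unfold Black at *
  generalize c.r = r
  match r with
  | 0 => simp only [rotZ]; omega
  | 1 => simp only [rotZ]; omega
  | 2 => simp only [rotZ]; omega
  | (n + 3) => simp only [rotZ]; omega

theorem diaO_unique {z w : ℤ × ℤ} (hz : Black z) (hw : Black w) {x y : ℝ}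
    (h1 : DiaO z x y) (h2 : DiaO w x y) : z = w := by
  obtain ⟨a1, a2, a3, a4⟩ := h1
  obtain ⟨b1, b2, b3, b4⟩ := h2
  have e1 : ((z.1 + z.2 - (w.1 + w.2) : ℤ) : ℝ) < 2 := by push_cast; linarith
  have e2 : ((w.1 + w.2 - (z.1 + z.2) : ℤ) : ℝ) < 2 := by push_cast; linarith
  have e3 : ((z.2 - z.1 - (w.2 - w.1) : ℤ) : ℝ) < 2 := by push_cast; linarith
  have e4 : ((w.2 - w.1 - (z.2 - z.1) : ℤ) : ℝ) < 2 := by push_cast; linarith
  have f1 : z.1 + z.2 - (w.1 + w.2) < 2 := by exact_mod_cast e1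
  have f2 : w.1 + w.2 - (z.1 + z.2) < 2 := by exact_mod_cast e2
  have f3 : z.2 - z.1 - (w.2 - w.1) < 2 := by exact_mod_cast e3
  have f4 : w.2 - w.1 - (z.2 - z.1) < 2 := by exact_mod_cast e4
  unfold Black at hz hw
  ext <;> omega

theorem exists_dia (x y : ℝ) : ∃ z : ℤ × ℤ, Black z ∧ Dia z x y := by
  refine ⟨(⌊(x + y) / 2⌋ - ⌊(y - x) / 2⌋, ⌊(x + y) / 2⌋ + ⌊(y - x) / 2⌋ + 1), ?_, ?_⟩
  · unfold Black; simp only; omega
  · have h1 := Int.floor_le ((x + y) / 2)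
    have h2 := Int.lt_floor_add_one ((x + y) / 2)
    have h3 := Int.floor_le ((y - x) / 2)
    have h4 := Int.lt_floor_add_one ((y - x) / 2)
    simp only [Dia]; push_cast
    refine ⟨?_, ?_, ?_, ?_⟩ <;> linarith

theorem lin_bound {A B u v : ℝ} (hB : 0 ≤ B) (hBA : B ≤ A) (h1 : -1 ≤ u + v) (h2 : u + v ≤ 1)
    (h3 : -1 ≤ v - u) (h4 : v - u ≤ 1) :
    -A ≤ B * u + A * v ∧ B * u + A * v ≤ A ∧ -A ≤ A * u - B * v ∧ A * u - B * v ≤ A := by
  have a1 := mul_nonneg (add_nonneg (hB.trans hBA) hB) (sub_nonneg.2 h1)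
  have a2 := mul_nonneg (add_nonneg (hB.trans hBA) hB) (sub_nonneg.2 h2)
  have a3 := mul_nonneg (add_nonneg (hB.trans hBA) hB) (sub_nonneg.2 h3)
  have a4 := mul_nonneg (add_nonneg (hB.trans hBA) hB) (sub_nonneg.2 h4)
  have b1 := mul_nonneg (sub_nonneg.2 hBA) (sub_nonneg.2 h1)
  have b2 := mul_nonneg (sub_nonneg.2 hBA) (sub_nonneg.2 h2)
  have b3 := mul_nonneg (sub_nonneg.2 hBA) (sub_nonneg.2 h3)
  have b4 := mul_nonneg (sub_nonneg.2 hBA) (sub_nonneg.2 h4)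
  refine ⟨?_, ?_, ?_, ?_⟩ <;> nlinarith

theorem inQ_of_open {A B : ℤ} (hB : 0 ≤ B) (hBA : B ≤ A) (hA : 0 < A) (hAe : A % 2 = 0)
    (hBe : B % 2 = 0) {z : ℤ × ℤ} (hz : Black z) {q : ℝ × ℝ} (h1 : 0 < q.1) (h2 : q.1 < 1)
    (h3 : 0 < q.2) (h4 : q.2 < 1) (hd : Dia z (ptx A B q) (pty A B q)) : InQ A B z := by
  obtain ⟨a, b⟩ := q
  obtain ⟨X, Y⟩ := z
  simp only [Dia, ptx, pty] at *
  obtain ⟨d1, d2, d3, d4⟩ := hd
  have hB' : (0 : ℝ) ≤ B := by exact_mod_cast hB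
  have hBA' : (B : ℝ) ≤ A := by exact_mod_cast hBA
  have hA' : (0 : ℝ) < A := by exact_mod_cast hA
  have hN := N_pos (B := B) hA
  obtain ⟨l1, l2, l3, l4⟩ := lin_bound hB' hBA' d1 d2 d3 d4
  have pa := mul_pos hA' h1
  have pa' := mul_pos hA' (sub_pos.2 h2)
  have pb := mul_pos hA' h3
  have pb' := mul_pos hA' (sub_pos.2 h4)
  have qa := mul_nonneg hB' h1.le
  have qa' := mul_nonneg hB' (sub_pos.2 h2).le
  have qb := mul_nonneg hB' h3.le
  have qb' := mul_nonneg hB' (sub_pos.2 h4).le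
  have na := mul_pos hN h1
  have na' := mul_pos hN (sub_pos.2 h2)
  have nb := mul_pos hN h3
  have nb' := mul_pos hN (sub_pos.2 h4)
  have c1 : -1 < X := by
    have : ((-1 : ℤ) : ℝ) < X := by push_cast; linarith
    exact_mod_cast this
  have c2 : X < A + B + 1 := by
    have : (X : ℝ) < ((A + B + 1 : ℤ) : ℝ) := by push_cast; linarith
    exact_mod_cast this
  have c3 : -1 < Y := by
    have : ((-1 : ℤ) : ℝ) < Y := by push_cast; linarith
    exact_mod_cast this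
  have c4 : Y < A + B + 1 := by
    have : (Y : ℝ) < ((A + B + 1 : ℤ) : ℝ) := by push_cast; linarith
    exact_mod_cast this
  have c5 : Y = A + B → B - 1 < X := by
    intro h
    have hY : (Y : ℝ) = A + B := by exact_mod_cast h
    have : A * ((B - 1 : ℤ) : ℝ) < A * X := by push_cast; rw [hY] at l4; nlinarith
    exact_mod_cast lt_of_mul_lt_mul_left this hA'.le
  have c6 : X = 0 → B - 1 < Y := by
    intro h
    have hX : (X : ℝ) = 0 := by exact_mod_cast h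
    have : A * ((B - 1 : ℤ) : ℝ) < A * Y := by push_cast; rw [hX] at l2; nlinarith
    exact_mod_cast lt_of_mul_lt_mul_left this hA'.le
  have c7 : Y = 0 → X < A + 1 := by
    intro h
    have hY : (Y : ℝ) = 0 := by exact_mod_cast h
    have : (A : ℝ) * X < A * ((A + 1 : ℤ) : ℝ) := by push_cast; rw [hY] at l3; nlinarith
    exact_mod_cast lt_of_mul_lt_mul_left this hA'.le
  have c8 : X = A + B → Y < A + 1 := by
    intro h
    have hX : (X : ℝ) = A + B := by exact_mod_cast h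
    have : (A : ℝ) * Y < A * ((A + 1 : ℤ) : ℝ) := by push_cast; rw [hX] at l1; nlinarith
    exact_mod_cast lt_of_mul_lt_mul_left this hA'.le
  unfold Black at hz
  unfold InQ
  simp only at *
  omega

end Pool.Agent.P.MP_626a52_co
end

-- part Pool.Agent.P.MP_626a52_co.Check
section

namespace Pool.Agent.P.MP_626a52_co
noncomputable section

def an (a b : Bool) : Bool := Bool.rec false b a
def orr (a b : Bool) : Bool := Bool.rec b true a
def nt (a : Bool) : Bool := Bool.rec true false a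
def sel {α : Type} (a : Bool) (x y : α) : α := Bool.rec y x a
def allL {α : Type} (l : List α) (f : α → Bool) : Bool :=
  List.rec true (fun a _ ih => Bool.rec false ih (f a)) l
def anyL {α : Type} (l : List α) (f : α → Bool) : Bool :=
  List.rec false (fun a _ ih => Bool.rec ih true (f a)) l
def pwB {α : Type} (e : α → α → Bool) (l : List α) : Bool :=
  List.rec true (fun a t ih => Bool.rec false ih (allL t (e a))) l
def foldL {α β : Type} (f : α → β → β) (b : β) (l : List α) : β :=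
  List.rec b (fun a _ ih => f a ih) l
def isNil {α : Type} (l : List α) : Bool := List.rec true (fun _ _ _ => false) l
def force {α : Type} (n : ℕ) (k : ℕ → α) : α := Nat.rec (k 0) (fun m _ => k (Nat.succ m)) n

def fld (n k m : ℕ) : ℕ := Nat.mod (Nat.shiftRight n k) m

/-- value of a packed linear form -/
def ev (s t f : ℕ) : ℤ :=
  (f % 16384 : ℕ) + 24 * (((f / 16384 % 128 : ℕ) : ℤ) * s + ((f / 2097152 : ℕ) : ℤ) * t)

def wf (f : ℕ) : Bool := Nat.beq (Nat.land f 1060864) 0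
def le0 (f g : ℕ) : Bool := Nat.beq (Nat.land (Nat.sub (Nat.add g 1056768) f) 1056768) 1056768
def le1 (f g : ℕ) : Bool := Nat.beq (Nat.land (Nat.sub (Nat.add g 1056767) f) 1056768) 1056768
def le2 (f g : ℕ) : Bool := Nat.beq (Nat.land (Nat.sub (Nat.add g 1056766) f) 1056768) 1056768

structure Rc where
  x0 : ℕ
  x1 : ℕ
  y0 : ℕ
  y1 : ℕ

def Rc.mem (s t : ℕ) (z : ℤ × ℤ) (R : Rc) : Prop :=
  ev s t R.x0 ≤ z.1 ∧ z.1 < ev s t R.x1 ∧ ev s t R.y0 ≤ z.2 ∧ z.2 < ev s t R.y1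
instance (s t : ℕ) (z : ℤ × ℤ) (R : Rc) : Decidable (R.mem s t z) := by
  unfold Rc.mem; infer_instance

def Rc.wf (R : Rc) : Bool := Pool.Agent.P.MP_626a52_co.wf (Nat.lor (Nat.lor R.x0 R.x1) (Nat.lor R.y0 R.y1))
def Rc.valid (R : Rc) : Bool :=
  an R.wf (an (le0 R.x0 R.x1) (an (le0 R.y0 R.y1) (Nat.ble R.x1 268435455)))
def Rc.sub (R Q : Rc) : Bool :=
  an (le0 Q.x0 R.x0) (an (le0 R.x1 Q.x1) (an (le0 Q.y0 R.y0) (le0 R.y1 Q.y1)))
def g0 (a0 a1 b0 b1 : ℕ) : Bool := orr (le0 a1 b0) (le0 b1 a0)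
def g1 (a0 a1 b0 b1 : ℕ) : Bool := orr (le1 a1 b0) (le1 b1 a0)
def g2 (a0 a1 b0 b1 : ℕ) : Bool := orr (le2 a1 b0) (le2 b1 a0)
def wsep (R Q : Rc) : Bool := orr (g0 R.x0 R.x1 Q.x0 Q.x1) (g0 R.y0 R.y1 Q.y0 Q.y1)
def sep (R Q : Rc) : Bool :=
  orr (g2 R.x0 R.x1 Q.x0 Q.x1) (orr (g2 R.y0 R.y1 Q.y0 Q.y1)
    (orr (an (g0 R.x0 R.x1 Q.x0 Q.x1) (g1 R.y0 R.y1 Q.y0 Q.y1))
      (an (g1 R.x0 R.x1 Q.x0 Q.x1) (g0 R.y0 R.y1 Q.y0 Q.y1))))

def v12 (F r : ℕ) : ℕ :=
  fld 101507458662148941118588186752850141934604001548693537635353882330737879507168916660140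
    (Nat.mul 12 (Nat.add (Nat.mul 4 F) r)) 4096
def vpos (I J : ℕ) : ℕ := Nat.add (Nat.mul 3 I) (Nat.mul 48 J)

structure Pc where
  rel : Rc
  pl : Rc
  ty : ℕ
  c1 : Ch
  c2 : Ch
  W : ℕ
  M : ℕ

structure Blk where
  R : Rc
  c : Bool
  W : ℕ
  M : ℕ
  ax : ℕ
  ay : ℕ
  bx : ℕ
  bY : ℕ
  ws : List (ℕ × ℕ)
  ps : List Pc

def agr (W W' M M' : ℕ) : Bool := Nat.beq (Nat.land (Nat.land (Nat.xor W W') M) M') 0

def bxF (A B i j : ℕ) : ℕ := Nat.add (Nat.mul i A) (Nat.mul j B)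
def byF (A B n i j : ℕ) : ℕ := Nat.add (Nat.mul j A) (Nat.mul (Nat.sub n i) B)

def vside (U W : Rc) (vx vy : ℕ) : Bool :=
  orr (an (le0 U.x1 vx) (an (le1 vx W.x0) (orr (an (le0 U.y1 (Nat.succ vy)) (le0 vy W.y0))
    (an (le0 W.y1 (Nat.succ vy)) (le0 vy U.y0)))))
  (an (le0 U.y1 vy) (an (le1 vy W.y0) (orr (an (le0 U.x1 (Nat.succ vx)) (le0 vx W.x0))
    (an (le0 W.x1 (Nat.succ vx)) (le0 vx U.x0)))))

def vt2 (p q : Pc) (I J vx vy : ℕ) : Bool :=
  an (wf (Nat.lor (Nat.lor vx vy) (Nat.lor (Nat.succ vx) (Nat.succ vy))))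
    (an (orr (vside p.pl q.pl vx vy) (vside q.pl p.pl vx vy))
      (Nat.beq (fld p.W (vpos I J) 8) (fld q.W (vpos I J) 8)))

def vt1 (A B : ℕ) (p q : Pc) (I J : ℕ) : Bool :=
  an (Nat.ble I 13) (an (Nat.ble J 15)
    (force (bxF A B I J) fun vx => force (byF A B 13 I J) fun vy => vt2 p q I J vx vy))

def vt4 (A B : ℕ) (p q : Pc) (c : Ch) : Bool :=
  orr (vt1 A B p q c.i c.j) (orr (vt1 A B p q (Nat.succ c.i) c.j)
    (orr (vt1 A B p q c.i (Nat.succ c.j)) (vt1 A B p q (Nat.succ c.i) (Nat.succ c.j))))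

def pairOK (A B : ℕ) (p q : Pc) : Bool :=
  orr (an (agr p.W q.W p.M q.M) (wsep p.pl q.pl)) (orr (sep p.pl q.pl)
    (orr (vt4 A B p q p.c1) (vt4 A B p q p.c2)))

def blkPair (A B : ℕ) (b d : Blk) : Bool :=
  orr (an b.c (an d.c (an (agr b.W d.W b.M d.M) (wsep b.R d.R)))) (orr (sep b.R d.R)
    (allL b.ps fun p => allL d.ps fun q => pairOK A B p q))

def regC (A B : ℕ) : Rc := ⟨Nat.succ B, A, Nat.succ B, A⟩
def regR (A B : ℕ) : Rc := ⟨A, Nat.succ (Nat.add A B), 1, A⟩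
def regU (A B : ℕ) : Rc := ⟨Nat.succ B, Nat.add A B, A, Nat.succ (Nat.add A B)⟩
def regL (A B : ℕ) : Rc := ⟨0, Nat.succ B, Nat.succ B, Nat.add A B⟩
def regD (A B : ℕ) : Rc := ⟨1, A, 0, Nat.succ B⟩

def chOK (W M : ℕ) (c : Ch) : Bool :=
  an (Nat.ble c.i 12) (an (Nat.ble c.j 14) (an (Nat.ble c.F 5) (an (Nat.ble c.r 3)
    (force (vpos c.i c.j) fun k =>
      an (Nat.beq (Nat.add (fld W k 64) (Nat.mul 64 (fld W (Nat.add k 48) 64))) (v12 c.F c.r))
        (an (Nat.beq (fld M k 64) 63) (Nat.beq (fld M (Nat.add k 48) 64) 63))))))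

def tyOK (A B : ℕ) (p : Pc) : Bool :=
  sel (Nat.beq p.ty 0) (p.rel.sub (regC A B))
    (sel (Nat.beq p.ty 1)
      (an (p.rel.sub (regR A B)) (an (Nat.beq p.c2.i (Nat.succ p.c1.i)) (Nat.beq p.c2.j p.c1.j)))
      (an (p.rel.sub (regU A B)) (an (Nat.beq p.c2.i p.c1.i) (Nat.beq p.c2.j (Nat.succ p.c1.j)))))

def shiftEq (P R : Rc) (u v : ℕ) : Bool :=
  an (wf (Nat.lor u v)) (an (Nat.beq P.x0 (Nat.add R.x0 u)) (an (Nat.beq P.x1 (Nat.add R.x1 u))
    (an (Nat.beq P.y0 (Nat.add R.y0 v)) (Nat.beq P.y1 (Nat.add R.y1 v)))))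

def pcOK (A B : ℕ) (b : Blk) (p : Pc) : Bool :=
  an (chOK p.W p.M p.c1) (an (chOK p.W p.M p.c2)
    (an p.rel.valid (an (tyOK A B p) (an (p.pl.sub b.R)
      (force (bxF A B p.c1.i p.c1.j) fun u => force (byF A B 12 p.c1.i p.c1.j) fun v =>
        shiftEq p.pl p.rel u v)))))

def consB (b : Blk) (p : Pc) : Bool :=
  an (Nat.beq (Nat.land p.M b.M) p.M) (agr p.W b.W p.M p.M)

def rel2 (A B : ℕ) (p : Pc) : Rc :=
  sel (Nat.beq p.ty 1)
    ⟨Nat.sub p.rel.x0 A, Nat.sub p.rel.x1 A, Nat.add p.rel.y0 B, Nat.add p.rel.y1 B⟩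
    ⟨Nat.sub p.rel.x0 B, Nat.sub p.rel.x1 B, Nat.sub p.rel.y0 A, Nat.sub p.rel.y1 A⟩

def incL (A B : ℕ) (p : Pc) (l : List (Ch × Rc)) : List (Ch × Rc) :=
  (p.c1, p.rel) :: sel (Nat.beq p.ty 0) l ((p.c2, rel2 A B p) :: l)

def allInc (A B : ℕ) (bl : List Blk) : List (Ch × Rc) :=
  foldL (fun b l => foldL (incL A B) l b.ps) [] bl

def rotR (M r : ℕ) (R : Rc) : Rc :=
  sel (Nat.ble r 1)
    (sel (Nat.beq r 0) R ⟨Nat.sub M R.y1, Nat.sub M R.y0, R.x0, R.x1⟩)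
    (sel (Nat.beq r 2) ⟨Nat.sub M R.x1, Nat.sub M R.x0, Nat.sub M R.y1, Nat.sub M R.y0⟩
      ⟨R.y0, R.y1, Nat.sub M R.x1, Nat.sub M R.x0⟩)

def inBox (M : ℕ) (R : Rc) : Bool := an R.valid (an (le0 R.x1 M) (le0 R.y1 M))

def rmK (a : ℕ) (l : List ℕ) : (List ℕ → Bool) → Bool :=
  List.rec (fun _ => false)
    (fun b t ih k => Bool.rec (ih fun t' => k (b :: t')) (k t) (Nat.beq a b)) l

def permB (l : List ℕ) : List ℕ → Bool :=
  List.rec (fun m => isNil m) (fun a _ ih m => rmK a m ih) l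

def cc (x y : ℕ) : ℕ := Nat.add x (Nat.shiftLeft y 28)
def posK (l : List Rc) : List ℕ → (List ℕ → Bool) → Bool :=
  List.rec (fun m k => k m) (fun R _ ih m k => force (cc R.x0 R.y0) fun a =>
    force (cc R.x1 R.y1) fun b => ih (a :: b :: m) k) l
def negK (l : List Rc) : List ℕ → (List ℕ → Bool) → Bool :=
  List.rec (fun m k => k m) (fun R _ ih m k => force (cc R.x1 R.y0) fun a =>
    force (cc R.x0 R.y1) fun b => ih (a :: b :: m) k) l
def eqB (l m : List Rc) : Bool :=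
  an (allL l Rc.valid) (an (allL m Rc.valid)
    (posK l [] fun a => negK m a fun a' => posK m [] fun b => negK l b fun b' => permB a' b'))

def unitR (w : ℕ × ℕ) : Rc := ⟨w.1, Nat.succ w.1, w.2, Nat.succ w.2⟩
def whiteB (x y : ℕ) : Bool := Nat.beq (Nat.mod (Nat.add x y) 2) 0

def sizeOK (R : Rc) : Bool :=
  orr (an (le2 R.x0 R.x1) (le2 R.y0 R.y1))
    (an (Nat.beq R.x1 (Nat.succ R.x0)) (Nat.beq R.y1 (Nat.succ R.y0)))

def blkOK (A B : ℕ) (b : Blk) : Bool :=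
  an (allL b.ps (pcOK A B b)) (an (allL b.ws fun w => whiteB w.1 w.2)
    (an (eqB (foldL (fun p l => p.pl :: l) (foldL (fun w l => unitR w :: l) [] b.ws) b.ps) [b.R])
      (an (sizeOK b.R) (sel b.c (allL b.ps (consB b)) (pwB (pairOK A B) b.ps)))))

def qRects (A B : ℕ) : List Rc :=
  sel (Nat.beq A B) [regR A B, regU A B, regL A B, regD A B]
    [regC A B, regR A B, regU A B, regL A B, regD A B]

def faceL (M : ℕ) (E : List (Ch × Rc)) (fw : List (ℕ × ℕ × ℕ)) (F : ℕ) : List Rc :=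
  foldL (fun e l => sel (Nat.beq e.1.F F) (rotR M e.1.r e.2 :: l) l)
    (foldL (fun w l => sel (Nat.beq w.1 F) (unitR w.2 :: l) l) [] fw) E

def inR (x y : ℕ) (R : Rc) : Bool :=
  an (le0 R.x0 x) (an (le1 x R.x1) (an (le0 R.y0 y) (le1 y R.y1)))

def off1 (f g : ℕ) : Bool := orr (Nat.beq f (Nat.succ g)) (Nat.beq g (Nat.succ f))

def conn1 (acc : List Blk) (b : Blk) : Bool :=
  an (wf (Nat.lor (Nat.lor b.ax b.ay) (Nat.lor b.bx b.bY))) (an (inR b.bx b.bY b.R)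
    (an (nt (whiteB b.bx b.bY)) (orr (isNil acc)
      (an (off1 b.ax b.bx) (an (off1 b.ay b.bY) (anyL acc fun d => inR b.ax b.ay d.R))))))

def connB (l : List Blk) : List Blk → Bool :=
  List.rec (fun _ => true) (fun b _ ih acc => an (conn1 acc b) (ih (b :: acc))) l

def tiny (A : ℕ) : Bool := an (Nat.beq (Nat.land A 2080513) 0) (Nat.ble A 4194303)

def netCheck (A B : ℕ) (bl : List Blk) (fw : List (ℕ × ℕ × ℕ)) : Bool :=
  an (tiny A) (an (tiny B) (an (le0 B A) (an (le1 0 A)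
  (an (allL bl (blkOK A B)) (an (pwB (blkPair A B) bl) (an (allL fw fun w => whiteB w.2.1 w.2.2)
  (an (allL (allInc A B bl) fun e => inBox (Nat.succ (Nat.add A B)) e.2)
  (an (allL [0, 1, 2, 3, 4, 5] fun F =>
    eqB (faceL (Nat.succ (Nat.add A B)) (allInc A B bl) fw F) (qRects A B))
  (an (nt (isNil bl)) (connB bl []))))))))))

end
end Pool.Agent.P.MP_626a52_co
end

-- part Pool.Agent.P.MP_626a52_co.Sound1
section

namespace Pool.Agent.P.MP_626a52_co

@[simp] theorem an_iff (a b : Bool) : an a b = true ↔ a = true ∧ b = true := by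
  cases a <;> cases b <;> simp [an]
@[simp] theorem orr_iff (a b : Bool) : orr a b = true ↔ a = true ∨ b = true := by
  cases a <;> cases b <;> simp [orr]
@[simp] theorem nt_iff (a : Bool) : nt a = true ↔ ¬ a = true := by
  cases a <;> simp [nt]
theorem sel_eq {α : Type} (a : Bool) (x y : α) : sel a x y = if a = true then x else y := by
  cases a <;> simp [sel]
@[simp] theorem force_eq {α : Type} (n : ℕ) (k : ℕ → α) : force n k = k n := by
  cases n <;> rfl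
@[simp] theorem allL_iff {α : Type} (l : List α) (f : α → Bool) :
    allL l f = true ↔ ∀ a ∈ l, f a = true := by
  induction l with
  | nil => simp [allL]
  | cons a l ih =>
    have : allL (a :: l) f = an (f a) (allL l f) := rfl
    rw [this]; simp [ih]
@[simp] theorem anyL_iff {α : Type} (l : List α) (f : α → Bool) :
    anyL l f = true ↔ ∃ a ∈ l, f a = true := by
  induction l with
  | nil => simp [anyL]
  | cons a l ih =>
    have : anyL (a :: l) f = orr (f a) (anyL l f) := rfl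
    rw [this]; simp [ih]
@[simp] theorem pwB_iff {α : Type} (e : α → α → Bool) (l : List α) :
    pwB e l = true ↔ l.Pairwise fun a b => e a b = true := by
  induction l with
  | nil => simp [pwB]
  | cons a l ih =>
    have : pwB e (a :: l) = an (allL l (e a)) (pwB e l) := rfl
    rw [this]; simp [ih]
theorem foldL_eq {α β : Type} (f : α → β → β) (b : β) (l : List α) :
    foldL f b l = l.foldr f b := by
  induction l with
  | nil => rfl
  | cons a l ih =>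
    have : foldL f b (a :: l) = f a (foldL f b l) := rfl
    rw [this, ih]; rfl
theorem foldL_map {α β : Type} (f : α → β) (m : List β) (l : List α) :
    foldL (fun a t => f a :: t) m l = l.map f ++ m := by
  induction l with
  | nil => rfl
  | cons a l ih =>
    have : foldL (fun a t => f a :: t) m (a :: l) = f a :: foldL (fun a t => f a :: t) m l := rfl
    rw [this, ih]; rfl
theorem foldL_filter {α β : Type} (f : α → β) (c : α → Bool) (m : List β) (l : List α) :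
    foldL (fun a t => sel (c a) (f a :: t) t) m l = (l.filter c).map f ++ m := by
  induction l with
  | nil => rfl
  | cons a l ih =>
    have : foldL (fun a t => sel (c a) (f a :: t) t) m (a :: l) =
      sel (c a) (f a :: foldL (fun a t => sel (c a) (f a :: t) t) m l)
        (foldL (fun a t => sel (c a) (f a :: t) t) m l) := rfl
    rw [this, ih, sel_eq, List.filter_cons]
    split <;> simp
@[simp] theorem isNil_iff {α : Type} (l : List α) : isNil l = true ↔ l = [] := by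
  cases l <;> simp [isNil]

theorem beq_iff (a b : ℕ) : Nat.beq a b = true ↔ a = b := Nat.beq_eq ▸ Iff.rfl
theorem ble_iff (a b : ℕ) : Nat.ble a b = true ↔ a ≤ b := Nat.ble_eq ▸ Iff.rfl

theorem rmK_sound (a : ℕ) (l : List ℕ) : ∀ k : List ℕ → Bool, rmK a l k = true →
    ∃ m, l.Perm (a :: m) ∧ k m = true := by
  induction l with
  | nil => intro k h; simp [rmK] at h
  | cons b t ih =>
    intro k h
    have e : rmK a (b :: t) k = sel (Nat.beq a b) (k t) (rmK a t fun t' => k (b :: t')) := rfl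
    rw [e, sel_eq] at h
    split at h
    · next hb => rw [beq_iff] at hb; subst hb; exact ⟨t, List.Perm.refl _, h⟩
    · obtain ⟨m, h1, h2⟩ := ih _ h
      exact ⟨b :: m, (h1.cons b).trans (List.Perm.swap a b m), h2⟩

theorem permB_sound (l : List ℕ) : ∀ m, permB l m = true → l.Perm m := by
  induction l with
  | nil => intro m h; have : isNil m = true := h; simp at this; simp [this]
  | cons a l ih =>
    intro m h
    have e : permB (a :: l) m = rmK a m (permB l) := rfl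
    rw [e] at h
    obtain ⟨m', h1, h2⟩ := rmK_sound a m _ h
    exact ((ih m' h2).cons a).trans h1.symm

/-- well formed packed form -/
def WF (f : ℕ) : Prop := f % 16384 < 4096 ∧ f / 16384 % 128 < 64

theorem bit_zero {f m k : ℕ} (h : Nat.land f m = 0) (hm : m.testBit k = true) :
    f / 2 ^ k % 2 = 0 := by
  have h1 : (f &&& m).testBit k = false := by
    have : f &&& m = 0 := h
    rw [this]; exact Nat.zero_testBit k
  rw [Nat.testBit_and, hm, Bool.and_true, Nat.testBit_eq_decide_div_mod_eq] at h1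
  simp only [decide_eq_false_iff_not] at h1
  omega

theorem bit_one {f m k : ℕ} (h : Nat.land f m = m) (hm : m.testBit k = true) :
    f / 2 ^ k % 2 = 1 := by
  have h1 : (f &&& m).testBit k = true := by
    have : f &&& m = m := h
    rw [this]; exact hm
  rw [Nat.testBit_and, hm, Bool.and_true, Nat.testBit_eq_decide_div_mod_eq] at h1
  simpa using h1

theorem wf_sound {f : ℕ} (h : wf f = true) : WF f := by
  rw [wf, beq_iff] at h
  have h1 := bit_zero (k := 12) h (by decide)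
  have h2 := bit_zero (k := 13) h (by decide)
  have h3 := bit_zero (k := 20) h (by decide)
  unfold WF; omega

theorem wf_lor {f g : ℕ} (h : wf (Nat.lor f g) = true) : wf f = true ∧ wf g = true := by
  simp only [wf, beq_iff] at *
  have : (f ||| g) &&& 1060864 = 0 := h
  rw [Nat.and_or_distrib_right, Nat.or_eq_zero_iff] at this
  exact this

theorem wf4 {a b c d : ℕ} (h : wf (Nat.lor (Nat.lor a b) (Nat.lor c d)) = true) :
    WF a ∧ WF b ∧ WF c ∧ WF d :=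
  ⟨wf_sound (wf_lor (wf_lor h).1).1, wf_sound (wf_lor (wf_lor h).1).2,
    wf_sound (wf_lor (wf_lor h).2).1, wf_sound (wf_lor (wf_lor h).2).2⟩

/-- fieldwise comparison -/
def LE3 (k f g : ℕ) : Prop :=
  f % 16384 + k ≤ g % 16384 ∧ f / 16384 % 128 ≤ g / 16384 % 128 ∧ f / 2097152 ≤ g / 2097152

theorem le0_sound {f g : ℕ} (hf : WF f) (hg : WF g) (h : le0 f g = true) : LE3 0 f g := by
  rw [le0, beq_iff] at h
  have h2 := bit_one (k := 13) h (by decide)
  have h3 := bit_one (k := 20) h (by decide)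
  simp only [Nat.add_eq, Nat.sub_eq] at h2 h3
  unfold WF at *; unfold LE3; omega

theorem le1_sound {f g : ℕ} (hf : WF f) (hg : WF g) (h : le1 f g = true) : LE3 1 f g := by
  rw [le1, beq_iff] at h
  have h2 := bit_one (k := 13) h (by decide)
  have h3 := bit_one (k := 20) h (by decide)
  simp only [Nat.add_eq, Nat.sub_eq] at h2 h3
  unfold WF at *; unfold LE3; omega

theorem le2_sound {f g : ℕ} (hf : WF f) (hg : WF g) (h : le2 f g = true) : LE3 2 f g := by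
  rw [le2, beq_iff] at h
  have h2 := bit_one (k := 13) h (by decide)
  have h3 := bit_one (k := 20) h (by decide)
  simp only [Nat.add_eq, Nat.sub_eq] at h2 h3
  unfold WF at *; unfold LE3; omega

theorem LE3.ev {k f g : ℕ} (h : LE3 k f g) (s t : ℕ) : ev s t f + k ≤ ev s t g := by
  obtain ⟨h1, h2, h3⟩ := h
  have a := Nat.mul_le_mul_right s h2
  have b := Nat.mul_le_mul_right t h3
  unfold Pool.Agent.P.MP_626a52_co.ev
  zify at h1 a b
  push_cast at *
  linarith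

theorem ev_fields (s t : ℕ) {f a b c : ℕ} (h1 : f % 16384 = a) (h2 : f / 16384 % 128 = b)
    (h3 : f / 2097152 = c) : ev s t f = a + 24 * (b * s + c * t) := by
  unfold ev; rw [h1, h2, h3]

theorem ev_add' (s t : ℕ) {f g : ℕ} (h1 : f % 16384 + g % 16384 < 16384)
    (h2 : f / 16384 % 128 + g / 16384 % 128 < 128) : ev s t (f + g) = ev s t f + ev s t g := by
  rw [ev_fields s t (a := f % 16384 + g % 16384) (b := f / 16384 % 128 + g / 16384 % 128)
    (c := f / 2097152 + g / 2097152) (by omega) (by omega) (by omega)]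
  unfold ev; push_cast; ring

theorem ev_add (s t : ℕ) {f g : ℕ} (hf : WF f) (hg : WF g) :
    ev s t (f + g) = ev s t f + ev s t g := by
  unfold WF at *; exact ev_add' s t (by omega) (by omega)

theorem ev_succ (s t : ℕ) {f : ℕ} (hf : WF f) : ev s t (f + 1) = ev s t f + 1 := by
  unfold WF at *; rw [ev_add' s t (by omega) (by omega)]; simp [ev]

theorem ev_sub (s t : ℕ) {f g : ℕ} (h : LE3 0 g f) : ev s t (f - g) = ev s t f - ev s t g := by
  unfold LE3 at h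
  have e : f = (f - g) + g := by omega
  have := ev_add' s t (f := f - g) (g := g) (by omega) (by omega)
  rw [← e] at this; linarith

theorem ev_par (s t f : ℕ) : ev s t f % 2 = (f % 2 : ℕ) := by
  unfold ev
  generalize ((f / 16384 % 128 : ℕ) : ℤ) * s + ((f / 2097152 : ℕ) : ℤ) * t = u
  omega

theorem ev_small (s t : ℕ) {f : ℕ} (h : f < 16384) : ev s t f = f := by
  rw [ev_fields s t (a := f) (b := 0) (c := 0) (by omega) (by omega) (by omega)]; simp

/-- a small even form -/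
def Tiny (A : ℕ) : Prop := ∃ a b c, a < 256 ∧ a % 2 = 0 ∧ b ≤ 1 ∧ c ≤ 1 ∧
  A = a + 16384 * b + 2097152 * c

theorem tiny_sound {A : ℕ} (h : tiny A = true) : Tiny A := by
  simp only [tiny, an_iff, beq_iff, ble_iff] at h
  obtain ⟨h, h'⟩ := h
  have b0 := bit_zero (k := 0) h (by decide)
  have b8 := bit_zero (k := 8) h (by decide)
  have b9 := bit_zero (k := 9) h (by decide)
  have b10 := bit_zero (k := 10) h (by decide)
  have b11 := bit_zero (k := 11) h (by decide)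
  have b12 := bit_zero (k := 12) h (by decide)
  have b13 := bit_zero (k := 13) h (by decide)
  have b15 := bit_zero (k := 15) h (by decide)
  have b16 := bit_zero (k := 16) h (by decide)
  have b17 := bit_zero (k := 17) h (by decide)
  have b18 := bit_zero (k := 18) h (by decide)
  have b19 := bit_zero (k := 19) h (by decide)
  have b20 := bit_zero (k := 20) h (by decide)
  refine ⟨A % 16384, A / 16384 % 128, A / 2097152, ?_, ?_, ?_, ?_, ?_⟩ <;> omega

theorem Tiny.wf {A : ℕ} (h : Tiny A) : WF A := by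
  obtain ⟨a, b, c, h1, h2, h3, h4, rfl⟩ := h; unfold WF; omega

theorem ev_lin (s t : ℕ) {A B i j : ℕ} (hA : Tiny A) (hB : Tiny B) (hi : i ≤ 15) (hj : j ≤ 15) :
    ev s t (i * A + j * B) = i * ev s t A + j * ev s t B := by
  obtain ⟨a, b, c, h1, h2, h3, h4, rfl⟩ := hA
  obtain ⟨a', b', c', g1, g2, g3, g4, rfl⟩ := hB
  have m1 : i * a ≤ 15 * 256 := Nat.mul_le_mul hi h1.le
  have m2 : j * a' ≤ 15 * 256 := Nat.mul_le_mul hj g1.le
  have m3 : i * b ≤ 15 * 1 := Nat.mul_le_mul hi h3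
  have m4 : j * b' ≤ 15 * 1 := Nat.mul_le_mul hj g3
  have e : i * (a + 16384 * b + 2097152 * c) + j * (a' + 16384 * b' + 2097152 * c') =
      (i * a + j * a') + 16384 * (i * b + j * b') + 2097152 * (i * c + j * c') := by ring
  rw [e, ev_fields s t (a := i * a + j * a') (b := i * b + j * b') (c := i * c + j * c')
    (by omega) (by omega) (by omega), ev_fields s t (a := a) (b := b) (c := c) (by omega)
    (by omega) (by omega), ev_fields s t (a := a') (b := b') (c := c') (by omega) (by omega)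
    (by omega)]
  push_cast; ring

def Rc.WF (R : Rc) : Prop :=
  Pool.Agent.P.MP_626a52_co.WF R.x0 ∧ Pool.Agent.P.MP_626a52_co.WF R.x1 ∧
    Pool.Agent.P.MP_626a52_co.WF R.y0 ∧ Pool.Agent.P.MP_626a52_co.WF R.y1

theorem valid_sound {R : Rc} (h : R.valid = true) :
    R.WF ∧ LE3 0 R.x0 R.x1 ∧ LE3 0 R.y0 R.y1 ∧ R.x1 < 268435456 := by
  simp only [Rc.valid, Rc.wf, an_iff, ble_iff] at h
  obtain ⟨h1, h2, h3, h4⟩ := h
  obtain ⟨a, b, c, d⟩ := wf4 h1
  exact ⟨⟨a, b, c, d⟩, le0_sound a b h2, le0_sound c d h3, by omega⟩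

theorem sub_sound {R Q : Rc} (hR : R.WF) (hQ : Q.WF) (h : R.sub Q = true) :
    LE3 0 Q.x0 R.x0 ∧ LE3 0 R.x1 Q.x1 ∧ LE3 0 Q.y0 R.y0 ∧ LE3 0 R.y1 Q.y1 := by
  simp only [Rc.sub, an_iff] at h
  obtain ⟨h1, h2, h3, h4⟩ := h
  exact ⟨le0_sound hQ.1 hR.1 h1, le0_sound hR.2.1 hQ.2.1 h2, le0_sound hQ.2.2.1 hR.2.2.1 h3,
    le0_sound hR.2.2.2 hQ.2.2.2 h4⟩

theorem sub_mem {R Q : Rc} (hR : R.WF) (hQ : Q.WF) (h : R.sub Q = true) {s t : ℕ} {z : ℤ × ℤ}
    (hz : R.mem s t z) : Q.mem s t z := by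
  obtain ⟨h1, h2, h3, h4⟩ := sub_sound hR hQ h
  have a := h1.ev s t; have b := h2.ev s t; have c := h3.ev s t; have d := h4.ev s t
  unfold Rc.mem at *; omega

def Hq (s t : ℕ) (z : ℤ × ℤ) (c : ℕ) : ℤ :=
  if ev s t (c % 268435456) ≤ z.1 ∧ ev s t (c / 268435456) ≤ z.2 then 1 else 0

theorem shl_eq (y k : ℕ) : Nat.shiftLeft y k = y * 2 ^ k := Nat.shiftLeft_eq y k

theorem cc_eq (x y : ℕ) : cc x y = x + y * 268435456 := by
  have h : (2 : ℕ) ^ 28 = 268435456 := by norm_num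
  unfold cc
  rw [shl_eq, h, Nat.add_eq]

theorem Hq_cc (s t : ℕ) (z : ℤ × ℤ) {x y : ℕ} (hx : x < 268435456) :
    Hq s t z (cc x y) = if ev s t x ≤ z.1 ∧ ev s t y ≤ z.2 then 1 else 0 := by
  have e := cc_eq x y
  have h1 : cc x y % 268435456 = x := by omega
  have h2 : cc x y / 268435456 = y := by omega
  rw [Hq, h1, h2]

def sP (s t : ℕ) (z : ℤ × ℤ) (l : List Rc) : ℤ :=
  (l.map fun R => Hq s t z (cc R.x0 R.y0) + Hq s t z (cc R.x1 R.y1)).sum
def sN (s t : ℕ) (z : ℤ × ℤ) (l : List Rc) : ℤ :=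
  (l.map fun R => Hq s t z (cc R.x1 R.y0) + Hq s t z (cc R.x0 R.y1)).sum

theorem posK_sound (s t : ℕ) (z : ℤ × ℤ) (l : List Rc) : ∀ m k, posK l m k = true →
    ∃ m', k m' = true ∧ (m'.map (Hq s t z)).sum = sP s t z l + (m.map (Hq s t z)).sum := by
  induction l with
  | nil => intro m k h; exact ⟨m, h, by simp [sP]⟩
  | cons R l ih =>
    intro m k h
    have e : posK (R :: l) m k = force (cc R.x0 R.y0) fun a => force (cc R.x1 R.y1) fun b =>
      posK l (a :: b :: m) k := rfl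
    rw [e, force_eq, force_eq] at h
    obtain ⟨m', h1, h2⟩ := ih _ _ h
    refine ⟨m', h1, ?_⟩
    rw [h2]; simp [sP]; ring

theorem negK_sound (s t : ℕ) (z : ℤ × ℤ) (l : List Rc) : ∀ m k, negK l m k = true →
    ∃ m', k m' = true ∧ (m'.map (Hq s t z)).sum = sN s t z l + (m.map (Hq s t z)).sum := by
  induction l with
  | nil => intro m k h; exact ⟨m, h, by simp [sN]⟩
  | cons R l ih =>
    intro m k h
    have e : negK (R :: l) m k = force (cc R.x1 R.y0) fun a => force (cc R.x0 R.y1) fun b =>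
      negK l (a :: b :: m) k := rfl
    rw [e, force_eq, force_eq] at h
    obtain ⟨m', h1, h2⟩ := ih _ _ h
    refine ⟨m', h1, ?_⟩
    rw [h2]; simp [sN]; ring

def cnt (s t : ℕ) (z : ℤ × ℤ) (l : List Rc) : ℕ := l.countP fun R => decide (R.mem s t z)

theorem cnt_eq (s t : ℕ) (z : ℤ × ℤ) (l : List Rc) (h : ∀ R ∈ l, R.valid = true) :
    (cnt s t z l : ℤ) = sP s t z l - sN s t z l := by
  induction l with
  | nil => simp [cnt, sP, sN]
  | cons R l ih =>
    have ih' := ih fun Q hQ => h Q (List.mem_cons_of_mem _ hQ)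
    obtain ⟨-, h1, h2, h3⟩ := valid_sound (h R List.mem_cons_self)
    have h0 : R.x0 < 268435456 := by unfold LE3 at h1; omega
    have a := h1.ev s t
    have b := h2.ev s t
    simp only [cnt, sP, sN, List.countP_cons, List.map_cons, List.sum_cons, Hq_cc s t z h0,
      Hq_cc s t z h3, decide_eq_true_eq] at *
    push_cast
    rw [ih']
    unfold Rc.mem
    split_ifs <;> omega

theorem eqB_sound {l m : List Rc} (h : eqB l m = true) (s t : ℕ) (z : ℤ × ℤ) :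
    cnt s t z l = cnt s t z m := by
  simp only [eqB, an_iff, allL_iff] at h
  obtain ⟨h1, h2, h3⟩ := h
  obtain ⟨a, h3, ea⟩ := posK_sound s t z _ _ _ h3
  obtain ⟨a', h3, ea'⟩ := negK_sound s t z _ _ _ h3
  obtain ⟨b, h3, eb⟩ := posK_sound s t z _ _ _ h3
  obtain ⟨b', h3, eb'⟩ := negK_sound s t z _ _ _ h3
  have := ((permB_sound _ _ h3).map (Hq s t z)).sum_eq
  have e1 := cnt_eq s t z l h1
  have e2 := cnt_eq s t z m h2
  simp only [List.map_nil, List.sum_nil] at ea eb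
  omega

theorem eqB_valid {l m : List Rc} (h : eqB l m = true) :
    (∀ R ∈ l, R.valid = true) ∧ ∀ R ∈ m, R.valid = true := by
  simp only [eqB, an_iff, allL_iff] at h
  exact ⟨h.1, h.2.1⟩

end Pool.Agent.P.MP_626a52_co
end

-- part Pool.Agent.P.MP_626a52_co.Sound2
section

namespace Pool.Agent.P.MP_626a52_co

theorem fld_eq (n k m : ℕ) : fld n k m = n / 2 ^ k % m := by
  have : Nat.shiftRight n k = n / 2 ^ k := Nat.shiftRight_eq_div_pow n k
  unfold fld; rw [this]; rfl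

def P8 (n : ℕ) : Fin 3 → ℝ := ![((n % 2 : ℕ) : ℝ), ((n / 2 % 2 : ℕ) : ℝ), ((n / 4 % 2 : ℕ) : ℝ)]

def VV (c : Ch) (a b : ℕ) : Fin 3 → ℝ := face c.F (rotN c.r a b)

set_option exponentiation.threshold 300 in
theorem v12_spec {F r : ℕ} (hF : F ≤ 5) (hr : r ≤ 3) :
    face F (rotN r 0 0) = P8 (v12 F r % 8) ∧ face F (rotN r 1 0) = P8 (v12 F r / 8 % 8) ∧
    face F (rotN r 0 1) = P8 (v12 F r / 64 % 8) ∧ face F (rotN r 1 1) = P8 (v12 F r / 512 % 8) := by
  interval_cases F <;> interval_cases r <;>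
    simp only [v12, fld_eq, Nat.mul_eq, Nat.add_eq] <;> norm_num [face, rotN, P8]

def ChGood (W M : ℕ) (c : Ch) : Prop :=
  c.i ≤ 12 ∧ c.j ≤ 14 ∧ c.F ≤ 5 ∧ ∀ a ≤ 1, ∀ b ≤ 1,
    VV c a b = P8 (fld W (vpos (c.i + a) (c.j + b)) 8) ∧ fld M (vpos (c.i + a) (c.j + b)) 8 = 7

theorem chOK_sound {W M : ℕ} {c : Ch} (h : chOK W M c = true) : ChGood W M c := by
  simp only [chOK, an_iff, ble_iff, beq_iff, force_eq, fld_eq, Nat.add_eq, Nat.mul_eq] at h
  obtain ⟨h1, h2, h3, h4, h5, h6, h7⟩ := h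
  obtain ⟨v1, v2, v3, v4⟩ := v12_spec h3 h4
  refine ⟨h1, h2, h3, fun a ha b hb => ?_⟩
  have d3 : ∀ n k : ℕ, n / 2 ^ (k + 3) = n / 2 ^ k / 8 := fun n k => by
    rw [pow_add, Nat.div_div_eq_div_mul]; norm_num
  have p10 : vpos (c.i + 1) (c.j + 0) = vpos c.i c.j + 3 := by
    simp only [vpos, Nat.add_eq, Nat.mul_eq]; omega
  have p01 : vpos (c.i + 0) (c.j + 1) = vpos c.i c.j + 48 := by
    simp only [vpos, Nat.add_eq, Nat.mul_eq]; omega
  have p11 : vpos (c.i + 1) (c.j + 1) = vpos c.i c.j + 48 + 3 := by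
    simp only [vpos, Nat.add_eq, Nat.mul_eq]; omega
  simp only [fld_eq, VV]
  interval_cases a <;> interval_cases b
  · simp only [Nat.add_zero, Nat.cast_zero, v1]
    exact ⟨by congr 1; omega, by omega⟩
  · rw [p01]; simp only [Nat.cast_zero, Nat.cast_one, v3]
    exact ⟨by congr 1; omega, by omega⟩
  · rw [p10, d3 W, d3 M]; simp only [Nat.cast_zero, Nat.cast_one, v2]
    exact ⟨by congr 1; omega, by omega⟩
  · rw [p11, d3 W (vpos c.i c.j + 48), d3 M (vpos c.i c.j + 48)]; simp only [Nat.cast_one, v4]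
    exact ⟨by congr 1; omega, by omega⟩

theorem fld_bit (n k i : ℕ) : (fld n k 8).testBit i = (decide (i < 3) && n.testBit (k + i)) := by
  rw [fld_eq, show (8 : ℕ) = 2 ^ 3 by norm_num, Nat.testBit_mod_two_pow, Nat.testBit_div_two_pow,
    add_comm]

theorem bit_of_seven {M k i : ℕ} (h : fld M k 8 = 7) (hi : i < 3) : M.testBit (k + i) = true := by
  have := fld_bit M k i
  rw [h] at this
  have h7 : (7 : ℕ).testBit i = true := by interval_cases i <;> decide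
  simpa [h7, hi] using this

def Agr (W W' M M' : ℕ) : Prop :=
  ∀ k, fld M k 8 = 7 → fld M' k 8 = 7 → fld W k 8 = fld W' k 8

theorem agr_sound {W W' M M' : ℕ} (h : agr W W' M M' = true) : Agr W W' M M' := by
  intro k h1 h2
  rw [agr, beq_iff] at h
  have h' : ((W ^^^ W') &&& M) &&& M' = 0 := h
  apply Nat.eq_of_testBit_eq
  intro i
  rw [fld_bit, fld_bit]
  by_cases hi : i < 3
  · have := congrArg (fun n => n.testBit (k + i)) h'
    simp only [Nat.testBit_and, Nat.testBit_xor, bit_of_seven h1 hi, bit_of_seven h2 hi,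
      Nat.zero_testBit, Bool.and_true] at this
    simpa [hi] using this
  · simp [hi]

theorem land_seven {M M' k : ℕ} (h : Nat.land M M' = M) (h1 : fld M k 8 = 7) : fld M' k 8 = 7 := by
  have h' : M &&& M' = M := h
  rw [← h1]
  apply Nat.eq_of_testBit_eq
  intro i
  rw [fld_bit, fld_bit]
  by_cases hi : i < 3
  · have := congrArg (fun n => n.testBit (k + i)) h'
    simp only [Nat.testBit_and, bit_of_seven h1 hi, Bool.true_and] at this
    simp [this, bit_of_seven h1 hi]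
  · simp [hi]

theorem lin1 {g g' : ℕ → ℝ} {i i' : ℕ} {a a' : ℝ} (h0 : 0 ≤ a) (h1 : a ≤ 1) (h0' : 0 ≤ a')
    (h1' : a' ≤ 1) (e : a + i = a' + i')
    (H : ∀ u ≤ 1, ∀ u' ≤ 1, i + u = i' + u' → g u = g' u') :
    (1 - a) * g 0 + a * g 1 = (1 - a') * g' 0 + a' * g' 1 := by
  have c1 : i ≤ i' + 1 := by
    have : (i : ℝ) ≤ ((i' + 1 : ℕ) : ℝ) := by push_cast; linarith
    exact_mod_cast this
  have c2 : i' ≤ i + 1 := by
    have : (i' : ℝ) ≤ ((i + 1 : ℕ) : ℝ) := by push_cast; linarith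
    exact_mod_cast this
  rcases (by omega : i = i' ∨ i = i' + 1 ∨ i' = i + 1) with h | h | h
  · subst h
    have : a = a' := by linarith
    rw [H 0 (by omega) 0 (by omega) rfl, H 1 le_rfl 1 le_rfl rfl, this]
  · subst h
    push_cast at e
    have ea : a = 0 := by linarith
    have eb : a' = 1 := by linarith
    rw [ea, eb, H 0 (by omega) 1 le_rfl (by omega)]; ring
  · subst h
    push_cast at e
    have ea : a = 1 := by linarith
    have eb : a' = 0 := by linarith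
    rw [ea, eb, H 1 le_rfl 0 (by omega) (by omega)]; ring

theorem face_bil (c : Ch) (a b : ℝ) (k : Fin 3) :
    face c.F (rotN c.r a b) k = (1 - a) * ((1 - b) * VV c 0 0 k + b * VV c 0 1 k) +
      a * ((1 - b) * VV c 1 0 k + b * VV c 1 1 k) := by
  unfold VV
  generalize c.F = F
  generalize c.r = r
  rcases F with _ | _ | _ | _ | _ | F <;> rcases r with _ | _ | _ | r <;> fin_cases k <;>
    simp [face, rotN] <;> ring

theorem psi_agree {A B : ℤ} {W W' M M' : ℕ} {c d : Ch} (hc : ChGood W M c) (hd : ChGood W' M' d)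
    (h : Agr W W' M M') {x y : ℝ} (h1 : InD A B c x y) (h2 : InD A B d x y) :
    psi A B c x y = psi A B d x y := by
  obtain ⟨a1, a2, a3, a4⟩ := h1
  obtain ⟨b1, b2, b3, b4⟩ := h2
  ext k
  simp only [psi, face_bil]
  refine lin1 (g := fun u => (1 - be A B c x y) * VV c u 0 k + be A B c x y * VV c u 1 k)
    (g' := fun u => (1 - be A B d x y) * VV d u 0 k + be A B d x y * VV d u 1 k)
    (i := c.i) (i' := d.i) a1 a2 b1 b2 (by simp only [al]; ring) fun u hu u' hu' e => ?_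
  refine lin1 (g := fun v => VV c u v k) (g' := fun v => VV d u' v k)
    (i := c.j) (i' := d.j) a3 a4 b3 b4 (by simp only [be]; ring) fun v hv v' hv' e' => ?_
  obtain ⟨p1, p2⟩ := hc.2.2.2 u hu v hv
  obtain ⟨q1, q2⟩ := hd.2.2.2 u' hu' v' hv'
  rw [← e, ← e'] at q1 q2
  rw [p1, q1, h _ p2 q2]

theorem psi_vertex {A B : ℤ} (hA : 0 < A) {W M : ℕ} {c : Ch} (hc : ChGood W M c) (I J : ℕ)
    {x y : ℝ} (hx : x = I * A + J * B) (hy : y = J * A + (13 - I) * B) (h1 : InD A B c x y) :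
    psi A B c x y = P8 (fld W (vpos I J) 8) := by
  have hN := N_pos (B := B) hA
  have ea : al A B c x y = I - c.i := by
    simp only [al, hx, hy]; field_simp; ring
  have eb : be A B c x y = J - c.j := by
    simp only [be, hx, hy]; field_simp; ring
  obtain ⟨a1, a2, a3, a4⟩ := h1
  rw [ea] at a1 a2
  rw [eb] at a3 a4
  have c1 : c.i ≤ I := by exact_mod_cast sub_nonneg.1 a1
  have c2 : I ≤ c.i + 1 := by
    have : (I : ℝ) ≤ ((c.i + 1 : ℕ) : ℝ) := by push_cast; linarith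
    exact_mod_cast this
  have c3 : c.j ≤ J := by exact_mod_cast sub_nonneg.1 a3
  have c4 : J ≤ c.j + 1 := by
    have : (J : ℝ) ≤ ((c.j + 1 : ℕ) : ℝ) := by push_cast; linarith
    exact_mod_cast this
  obtain ⟨u, rfl⟩ := Nat.exists_eq_add_of_le c1
  obtain ⟨v, rfl⟩ := Nat.exists_eq_add_of_le c3
  rw [← (hc.2.2.2 u (by omega) v (by omega)).1, psi, ea, eb, VV]
  push_cast
  congr 2 <;> ring

theorem dia_close {z z' : ℤ × ℤ} {x y : ℝ} (h : Dia z x y) (h' : Dia z' x y) :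
    z.1 - z'.1 + (z.2 - z'.2) ≤ 2 ∧ z'.1 - z.1 + (z'.2 - z.2) ≤ 2 ∧
    z.1 - z'.1 + (z'.2 - z.2) ≤ 2 ∧ z'.1 - z.1 + (z.2 - z'.2) ≤ 2 := by
  obtain ⟨a1, a2, a3, a4⟩ := h
  obtain ⟨b1, b2, b3, b4⟩ := h'
  have e1 : ((z.1 - z'.1 + (z.2 - z'.2) : ℤ) : ℝ) ≤ (2 : ℤ) := by push_cast; linarith
  have e2 : ((z'.1 - z.1 + (z'.2 - z.2) : ℤ) : ℝ) ≤ (2 : ℤ) := by push_cast; linarith
  have e3 : ((z.1 - z'.1 + (z'.2 - z.2) : ℤ) : ℝ) ≤ (2 : ℤ) := by push_cast; linarith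
  have e4 : ((z'.1 - z.1 + (z.2 - z'.2) : ℤ) : ℝ) ≤ (2 : ℤ) := by push_cast; linarith
  exact ⟨by exact_mod_cast e1, by exact_mod_cast e2, by exact_mod_cast e3, by exact_mod_cast e4⟩

theorem dia_self (z : ℤ × ℤ) : Dia z z.1 z.2 := by simp [Dia]

theorem wsep_sound {R Q : Rc} (hR : R.WF) (hQ : Q.WF) (h : wsep R Q = true) {s t : ℕ}
    {z : ℤ × ℤ} (h1 : R.mem s t z) (h2 : Q.mem s t z) : False := by
  simp only [wsep, g0, orr_iff] at h
  obtain ⟨a1, a2, a3, a4⟩ := hR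
  obtain ⟨b1, b2, b3, b4⟩ := hQ
  unfold Rc.mem at *
  rcases h with (h | h) | h | h
  · have := (le0_sound a2 b1 h).ev s t; omega
  · have := (le0_sound b2 a1 h).ev s t; omega
  · have := (le0_sound a4 b3 h).ev s t; omega
  · have := (le0_sound b4 a3 h).ev s t; omega

theorem g0_sound {a0 a1 b0 b1 : ℕ} (h0 : WF a0) (h1 : WF a1) (h2 : WF b0) (h3 : WF b1) (s t : ℕ)
    (h : g0 a0 a1 b0 b1 = true) : ev s t a1 ≤ ev s t b0 ∨ ev s t b1 ≤ ev s t a0 := by
  simp only [g0, orr_iff] at h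
  rcases h with h | h
  · left; have := (le0_sound h1 h2 h).ev s t; omega
  · right; have := (le0_sound h3 h0 h).ev s t; omega
theorem g1_sound {a0 a1 b0 b1 : ℕ} (h0 : WF a0) (h1 : WF a1) (h2 : WF b0) (h3 : WF b1) (s t : ℕ)
    (h : g1 a0 a1 b0 b1 = true) : ev s t a1 + 1 ≤ ev s t b0 ∨ ev s t b1 + 1 ≤ ev s t a0 := by
  simp only [g1, orr_iff] at h
  rcases h with h | h
  · left; have := (le1_sound h1 h2 h).ev s t; omega
  · right; have := (le1_sound h3 h0 h).ev s t; omega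
theorem g2_sound {a0 a1 b0 b1 : ℕ} (h0 : WF a0) (h1 : WF a1) (h2 : WF b0) (h3 : WF b1) (s t : ℕ)
    (h : g2 a0 a1 b0 b1 = true) : ev s t a1 + 2 ≤ ev s t b0 ∨ ev s t b1 + 2 ≤ ev s t a0 := by
  simp only [g2, orr_iff] at h
  rcases h with h | h
  · left; have := (le2_sound h1 h2 h).ev s t; omega
  · right; have := (le2_sound h3 h0 h).ev s t; omega

theorem sep_sound {R Q : Rc} (hR : R.WF) (hQ : Q.WF) (h : sep R Q = true) {s t : ℕ}
    {z z' : ℤ × ℤ} (h1 : R.mem s t z) (h2 : Q.mem s t z') {x y : ℝ} (d : Dia z x y)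
    (d' : Dia z' x y) : False := by
  simp only [sep, orr_iff, an_iff] at h
  obtain ⟨a1, a2, a3, a4⟩ := hR
  obtain ⟨b1, b2, b3, b4⟩ := hQ
  have := dia_close d d'
  unfold Rc.mem at *
  rcases h with h | h | ⟨h, h'⟩ | ⟨h, h'⟩
  · have := g2_sound a1 a2 b1 b2 s t h; omega
  · have := g2_sound a3 a4 b3 b4 s t h; omega
  · have := g0_sound a1 a2 b1 b2 s t h; have := g1_sound a3 a4 b3 b4 s t h'; omega
  · have := g1_sound a1 a2 b1 b2 s t h; have := g0_sound a3 a4 b3 b4 s t h'; omega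

theorem vside_sound {U W : Rc} {vx vy : ℕ} (hU : U.WF) (hW : W.WF) (h1 : WF vx) (h2 : WF vy)
    (h3 : WF (vx + 1)) (h4 : WF (vy + 1)) (h : vside U W vx vy = true) {s t : ℕ}
    {z z' : ℤ × ℤ} (m : U.mem s t z) (m' : W.mem s t z') {x y : ℝ} (d : Dia z x y)
    (d' : Dia z' x y) : z ≠ z' ∧ x = ev s t vx ∧ y = ev s t vy := by
  simp only [vside, orr_iff, an_iff, Nat.succ_eq_add_one] at h
  obtain ⟨a1, a2, a3, a4⟩ := hU
  obtain ⟨b1, b2, b3, b4⟩ := hW
  have hc := dia_close d d'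
  have sx := ev_succ s t h1
  have sy := ev_succ s t h2
  obtain ⟨d1, d2, d3, d4⟩ := d
  obtain ⟨e1, e2, e3, e4⟩ := d'
  unfold Rc.mem at *
  rcases h with ⟨p, q, r⟩ | ⟨p, q, r⟩
  · have p := (le0_sound a2 h1 p).ev s t
    have q := (le1_sound h1 b1 q).ev s t
    have : z.1 = ev s t vx - 1 ∧ z'.1 = ev s t vx + 1 ∧ z.2 = ev s t vy ∧ z'.2 = ev s t vy := by
      rcases r with ⟨r, r'⟩ | ⟨r, r'⟩
      · have r := (le0_sound a4 h4 r).ev s t
        have r' := (le0_sound h2 b3 r').ev s t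
        omega
      · have r := (le0_sound b4 h4 r).ev s t
        have r' := (le0_sound h2 a3 r').ev s t
        omega
    obtain ⟨f1, f2, f3, f4⟩ := this
    refine ⟨fun h => by rw [h] at f1; omega, ?_⟩
    rw [f1, f3] at d1 d2 d3 d4
    rw [f2, f4] at e1 e2 e3 e4
    push_cast at *
    constructor <;> linarith
  · have p := (le0_sound a4 h2 p).ev s t
    have q := (le1_sound h2 b3 q).ev s t
    have : z.2 = ev s t vy - 1 ∧ z'.2 = ev s t vy + 1 ∧ z.1 = ev s t vx ∧ z'.1 = ev s t vx := by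
      rcases r with ⟨r, r'⟩ | ⟨r, r'⟩
      · have r := (le0_sound a2 h3 r).ev s t
        have r' := (le0_sound h1 b1 r').ev s t
        omega
      · have r := (le0_sound b2 h3 r).ev s t
        have r' := (le0_sound h1 a1 r').ev s t
        omega
    obtain ⟨f1, f2, f3, f4⟩ := this
    refine ⟨fun h => by rw [h] at f1; omega, ?_⟩
    rw [f1, f3] at d1 d2 d3 d4
    rw [f2, f4] at e1 e2 e3 e4
    push_cast at *
    constructor <;> linarith

def IsCh (p : Pc) (c : Ch) : Prop := c = p.c1 ∨ c = p.c2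

/-- the folding maps of two pieces agree where the pieces meet -/
def Con (A B s t : ℕ) (p q : Pc) : Prop :=
  ∀ z z', p.pl.mem s t z → q.pl.mem s t z' → ∀ c d, IsCh p c → IsCh q d → ∀ x y, Dia z x y →
    Dia z' x y → InD (ev s t A) (ev s t B) c x y → InD (ev s t A) (ev s t B) d x y →
    psi (ev s t A) (ev s t B) c x y = psi (ev s t A) (ev s t B) d x y

def Dis (s t : ℕ) (R Q : Rc) : Prop := ∀ z, R.mem s t z → Q.mem s t z → False

def PG (p : Pc) : Prop := p.pl.WF ∧ ∀ c, IsCh p c → ChGood p.W p.M c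

theorem Con.symm {A B s t : ℕ} {p q : Pc} (h : Con A B s t p q) : Con A B s t q p :=
  fun z z' m m' c d hc hd x y e e' i i' => (h z' z m' m d c hd hc x y e' e i' i).symm

theorem con_of_agr {A B s t : ℕ} {p q : Pc} (hp : PG p) (hq : PG q) (h : Agr p.W q.W p.M q.M) :
    Con A B s t p q :=
  fun _ _ _ _ c d hc hd _ _ _ _ i i' => psi_agree (hp.2 c hc) (hq.2 d hd) h i i'

theorem vt1_sound {A B s t : ℕ} (hA : Tiny A) (hB : Tiny B) (hA0 : 0 < ev s t A) {p q : Pc}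
    (hp : PG p) (hq : PG q) {I J : ℕ} (h : vt1 A B p q I J = true) :
    Con A B s t p q ∧ Dis s t p.pl q.pl := by
  simp only [vt1, vt2, an_iff, orr_iff, ble_iff, beq_iff, force_eq] at h
  obtain ⟨hI, hJ, hw, hs, he⟩ := h
  obtain ⟨w1, w2, w3, w4⟩ := wf4 hw
  have ex : ev s t (bxF A B I J) = I * ev s t A + J * ev s t B := ev_lin s t hA hB (by omega) hJ
  have ey : ev s t (byF A B 13 I J) = J * ev s t A + (13 - I) * ev s t B := by
    have := ev_lin s t (i := J) (j := 13 - I) hA hB hJ (by omega)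
    rw [Nat.cast_sub hI] at this
    exact this
  have key : ∀ z z', p.pl.mem s t z → q.pl.mem s t z' → ∀ x y, Dia z x y → Dia z' x y →
      z ≠ z' ∧ x = ev s t (bxF A B I J) ∧ y = ev s t (byF A B 13 I J) := by
    intro z z' m m' x y d d'
    rcases hs with hs | hs
    · exact vside_sound hp.1 hq.1 w1 w2 w3 w4 hs m m' d d'
    · obtain ⟨a, b⟩ := vside_sound hq.1 hp.1 w1 w2 w3 w4 hs m' m d' d
      exact ⟨a.symm, b⟩
  refine ⟨fun z z' m m' c d hc hd x y e e' i i' => ?_,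
    fun z m m' => (key z z m m' _ _ (dia_self z) (dia_self z)).1 rfl⟩
  obtain ⟨-, hx, hy⟩ := key z z' m m' x y e e'
  rw [ex] at hx
  rw [ey] at hy
  push_cast at hx hy
  rw [psi_vertex hA0 (hp.2 c hc) I J hx hy i, psi_vertex hA0 (hq.2 d hd) I J hx hy i', he]

theorem pairOK_sound {A B s t : ℕ} (hA : Tiny A) (hB : Tiny B) (hA0 : 0 < ev s t A) {p q : Pc}
    (hp : PG p) (hq : PG q) (h : pairOK A B p q = true) :
    Con A B s t p q ∧ Dis s t p.pl q.pl := by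
  simp only [pairOK, vt4, an_iff, orr_iff] at h
  rcases h with ⟨h, h'⟩ | h | (h | h | h | h) | h | h | h | h
  · exact ⟨con_of_agr hp hq (agr_sound h), fun z m m' => wsep_sound hp.1 hq.1 h' m m'⟩
  · exact ⟨fun z z' m m' _ _ _ _ x y e e' _ _ => (sep_sound hp.1 hq.1 h m m' e e').elim,
      fun z m m' => sep_sound hp.1 hq.1 h m m' (dia_self z) (dia_self z)⟩
  all_goals exact vt1_sound hA hB hA0 hp hq h

theorem cover_bound {A B : ℤ} (hB : 0 ≤ B) (hBA : B ≤ A) (hA : 0 < A) (c : Ch) {z : ℤ × ℤ}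
    {x y : ℝ} (d : Dia z x y) :
    let X := z.1 - cbx A B c
    let Y := z.2 - cby A B c
    (0 ≤ A * X - B * (Y - B) - A → 0 ≤ al A B c x y) ∧
    (∀ n : ℤ, A * X - B * (Y - B) + A ≤ n * (A ^ 2 + B ^ 2) → al A B c x y ≤ n) ∧
    (0 ≤ B * X + A * (Y - B) - A → 0 ≤ be A B c x y) ∧
    (∀ n : ℤ, B * X + A * (Y - B) + A ≤ n * (A ^ 2 + B ^ 2) → be A B c x y ≤ n) := by
  intro X Y
  have hN := N_pos (B := B) hA
  obtain ⟨d1, d2, d3, d4⟩ := d
  obtain ⟨l1, l2, l3, l4⟩ := lin_bound (A := A) (B := B) (by exact_mod_cast hB)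
    (by exact_mod_cast hBA) d1 d2 d3 d4
  have ea : al A B c x y * ((A : ℝ) ^ 2 + B ^ 2) =
      ((A * X - B * (Y - B) : ℤ) : ℝ) + (A * (x - z.1) - B * (y - z.2)) := by
    simp only [al, X, Y, cbx, cby]; push_cast; field_simp; ring
  have eb : be A B c x y * ((A : ℝ) ^ 2 + B ^ 2) =
      ((B * X + A * (Y - B) : ℤ) : ℝ) + (B * (x - z.1) + A * (y - z.2)) := by
    simp only [be, X, Y, cbx, cby]; push_cast; field_simp; ring
  generalize A * X - B * (Y - B) = U at *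
  generalize B * X + A * (Y - B) = V at *
  refine ⟨fun h => ?_, fun n h => ?_, fun h => ?_, fun n h => ?_⟩
  · have h' : (0 : ℝ) ≤ U - A := by exact_mod_cast h
    exact le_of_mul_le_mul_right (by linarith) hN
  · have h' : (U : ℝ) + A ≤ n * ((A : ℝ) ^ 2 + B ^ 2) := by exact_mod_cast h
    exact le_of_mul_le_mul_right (by linarith) hN
  · have h' : (0 : ℝ) ≤ V - A := by exact_mod_cast h
    exact le_of_mul_le_mul_right (by linarith) hN
  · have h' : (V : ℝ) + A ≤ n * ((A : ℝ) ^ 2 + B ^ 2) := by exact_mod_cast h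
    exact le_of_mul_le_mul_right (by linarith) hN

theorem cover_C {A B : ℤ} (hB : 0 ≤ B) (hBA : B ≤ A) (hA : 0 < A) (c : Ch) {z : ℤ × ℤ}
    {x y : ℝ} (d : Dia z x y) (h1 : B + 1 ≤ z.1 - cbx A B c) (h2 : z.1 - cbx A B c < A)
    (h3 : B + 1 ≤ z.2 - cby A B c) (h4 : z.2 - cby A B c < A) : InD A B c x y := by
  obtain ⟨k1, k2, k3, k4⟩ := cover_bound hB hBA hA c d
  generalize z.1 - cbx A B c = X at *
  generalize z.2 - cby A B c = Y at *
  refine ⟨k1 (by nlinarith), by exact_mod_cast k2 1 (by nlinarith), k3 (by nlinarith),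
    by exact_mod_cast k4 1 (by nlinarith)⟩

theorem cover_R {A B : ℤ} (hB : 0 ≤ B) (hBA : B ≤ A) (hA : 0 < A) (c c' : Ch) {z : ℤ × ℤ}
    {x y : ℝ} (d : Dia z x y) (h1 : A ≤ z.1 - cbx A B c) (h2 : z.1 - cbx A B c < A + B + 1)
    (h3 : 1 ≤ z.2 - cby A B c) (h4 : z.2 - cby A B c < A) (e1 : c'.i = c.i + 1)
    (e2 : c'.j = c.j) : InD A B c x y ∨ InD A B c' x y := by
  obtain ⟨k1, k2, k3, k4⟩ := cover_bound hB hBA hA c d
  generalize z.1 - cbx A B c = X at *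
  generalize z.2 - cby A B c = Y at *
  have a1 := k1 (by nlinarith)
  have a2 : al A B c x y ≤ 2 := by exact_mod_cast k2 2 (by nlinarith)
  have a3 := k3 (by nlinarith)
  have a4 : be A B c x y ≤ 1 := by exact_mod_cast k4 1 (by nlinarith)
  have ea : al A B c' x y = al A B c x y - 1 := by simp only [al, e1]; push_cast; ring
  have eb : be A B c' x y = be A B c x y := by simp only [be, e2]
  by_cases h : al A B c x y ≤ 1
  · exact Or.inl ⟨a1, h, a3, a4⟩
  · right; rw [InD, ea, eb]; exact ⟨by linarith, by linarith, a3, a4⟩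

theorem cover_U {A B : ℤ} (hB : 0 ≤ B) (hBA : B ≤ A) (hA : 0 < A) (c c' : Ch) {z : ℤ × ℤ}
    {x y : ℝ} (d : Dia z x y) (h1 : B + 1 ≤ z.1 - cbx A B c) (h2 : z.1 - cbx A B c < A + B)
    (h3 : A ≤ z.2 - cby A B c) (h4 : z.2 - cby A B c < A + B + 1) (e1 : c'.i = c.i)
    (e2 : c'.j = c.j + 1) : InD A B c x y ∨ InD A B c' x y := by
  obtain ⟨k1, k2, k3, k4⟩ := cover_bound hB hBA hA c d
  generalize z.1 - cbx A B c = X at *
  generalize z.2 - cby A B c = Y at *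
  have a1 := k1 (by nlinarith)
  have a2 : al A B c x y ≤ 1 := by exact_mod_cast k2 1 (by nlinarith)
  have a3 := k3 (by nlinarith)
  have a4 : be A B c x y ≤ 2 := by exact_mod_cast k4 2 (by nlinarith)
  have ea : al A B c' x y = al A B c x y := by simp only [al, e1]
  have eb : be A B c' x y = be A B c x y - 1 := by simp only [be, e2]; push_cast; ring
  by_cases h : be A B c x y ≤ 1
  · exact Or.inl ⟨a1, a2, a3, h⟩
  · right; rw [InD, ea, eb]; exact ⟨a1, a2, by linarith, by linarith⟩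

end Pool.Agent.P.MP_626a52_co
end

-- part Pool.Agent.P.MP_626a52_co.Net
section

namespace Pool.Agent.P.MP_626a52_co
open Set

theorem exists_inQ {A B : ℤ} (hB : 0 ≤ B) (hBA : B ≤ A) (hA : 0 < A) (hAe : A % 2 = 0)
    (hBe : B % 2 = 0) {q : ℝ × ℝ} (hq : q ∈ Icc (0 : ℝ) 1 ×ˢ Icc (0 : ℝ) 1) :
    ∃ z, Black z ∧ InQ A B z ∧ Dia z (ptx A B q) (pty A B q) := by
  have hfin : {z : ℤ × ℤ | Black z ∧ InQ A B z}.Finite := by
    refine ((Set.finite_Icc (0 : ℤ) (A + B)).prod (Set.finite_Icc (0 : ℤ) (A + B))).subset ?_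
    rintro z ⟨-, hz⟩
    unfold InQ at hz
    simp only [mem_prod, mem_Icc]
    omega
  have hcl : IsClosed (⋃ z ∈ {z : ℤ × ℤ | Black z ∧ InQ A B z},
      {q : ℝ × ℝ | Dia z (ptx A B q) (pty A B q)}) := by
    refine hfin.isClosed_biUnion fun z _ => ?_
    simp only [Dia, ptx, pty, ofPred_and]
    refine IsClosed.inter ?_ (IsClosed.inter ?_ (IsClosed.inter ?_ ?_)) <;>
      exact isClosed_le (by fun_prop) (by fun_prop)
  have hsub : Ioo (0 : ℝ) 1 ×ˢ Ioo (0 : ℝ) 1 ⊆ ⋃ z ∈ {z : ℤ × ℤ | Black z ∧ InQ A B z},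
      {q : ℝ × ℝ | Dia z (ptx A B q) (pty A B q)} := by
    rintro q ⟨⟨h1, h2⟩, h3, h4⟩
    obtain ⟨z, hz, hd⟩ := exists_dia (ptx A B q) (pty A B q)
    simp only [mem_iUnion]
    exact ⟨z, ⟨hz, inQ_of_open hB hBA hA hAe hBe hz h1 h2 h3 h4 hd⟩, hd⟩
  have := closure_minimal hsub hcl
  rw [closure_prod_eq, closure_Ioo (by norm_num)] at this
  have h := this hq
  simp only [mem_iUnion] at h
  obtain ⟨z, ⟨h1, h2⟩, h3⟩ := h
  exact ⟨z, h1, h2, h3⟩

theorem rotN_mem (r : ℕ) {a b : ℝ} (h1 : 0 ≤ a) (h2 : a ≤ 1) (h3 : 0 ≤ b) (h4 : b ≤ 1) :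
    0 ≤ (rotN r a b).1 ∧ (rotN r a b).1 ≤ 1 ∧ 0 ≤ (rotN r a b).2 ∧ (rotN r a b).2 ≤ 1 := by
  match r with
  | 0 => simp only [rotN]; refine ⟨?_, ?_, ?_, ?_⟩ <;> linarith
  | 1 => simp only [rotN]; refine ⟨?_, ?_, ?_, ?_⟩ <;> linarith
  | 2 => simp only [rotN]; refine ⟨?_, ?_, ?_, ?_⟩ <;> linarith
  | (n + 3) => simp only [rotN]; refine ⟨?_, ?_, ?_, ?_⟩ <;> linarith

theorem rotN_memO (r : ℕ) {a b : ℝ} (h1 : 0 < a) (h2 : a < 1) (h3 : 0 < b) (h4 : b < 1) :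
    0 < (rotN r a b).1 ∧ (rotN r a b).1 < 1 ∧ 0 < (rotN r a b).2 ∧ (rotN r a b).2 < 1 := by
  match r with
  | 0 => simp only [rotN]; refine ⟨?_, ?_, ?_, ?_⟩ <;> linarith
  | 1 => simp only [rotN]; refine ⟨?_, ?_, ?_, ?_⟩ <;> linarith
  | 2 => simp only [rotN]; refine ⟨?_, ?_, ?_, ?_⟩ <;> linarith
  | (n + 3) => simp only [rotN]; refine ⟨?_, ?_, ?_, ?_⟩ <;> linarith

theorem rotN_inj (r : ℕ) {a b a' b' : ℝ} (h : rotN r a b = rotN r a' b') : a = a' ∧ b = b' := by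
  match r with
  | 0 => simp only [rotN, Prod.mk.injEq] at h; constructor <;> linarith [h.1, h.2]
  | 1 => simp only [rotN, Prod.mk.injEq] at h; constructor <;> linarith [h.1, h.2]
  | 2 => simp only [rotN, Prod.mk.injEq] at h; constructor <;> linarith [h.1, h.2]
  | (n + 3) => simp only [rotN, Prod.mk.injEq] at h; constructor <;> linarith [h.1, h.2]

theorem rotN_surj (r : ℕ) {q : ℝ × ℝ} (h1 : 0 ≤ q.1) (h2 : q.1 ≤ 1) (h3 : 0 ≤ q.2) (h4 : q.2 ≤ 1) :
    ∃ a b, 0 ≤ a ∧ a ≤ 1 ∧ 0 ≤ b ∧ b ≤ 1 ∧ rotN r a b = q := by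
  match r with
  | 0 => exact ⟨q.1, q.2, h1, h2, h3, h4, rfl⟩
  | 1 => exact ⟨q.2, 1 - q.1, h3, h4, by linarith, by linarith, by simp [rotN]⟩
  | 2 => exact ⟨1 - q.1, 1 - q.2, by linarith, by linarith, by linarith, by linarith,
      by simp [rotN]⟩
  | (n + 3) => exact ⟨1 - q.2, q.1, by linarith, by linarith, h1, h2, by simp [rotN]⟩

theorem rotN_dist (r : ℕ) (a b a' b' : ℝ) :
    ((rotN r a b).1 - (rotN r a' b').1) ^ 2 + ((rotN r a b).2 - (rotN r a' b').2) ^ 2 =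
      (a - a') ^ 2 + (b - b') ^ 2 := by
  match r with
  | 0 => simp only [rotN]
  | 1 => simp only [rotN]; ring
  | 2 => simp only [rotN]; ring
  | (n + 3) => simp only [rotN]; ring

theorem face_dist (F : ℕ) (q q' : ℝ × ℝ) :
    (face F q 0 - face F q' 0) ^ 2 + (face F q 1 - face F q' 1) ^ 2 +
      (face F q 2 - face F q' 2) ^ 2 = (q.1 - q'.1) ^ 2 + (q.2 - q'.2) ^ 2 := by
  match F with
  | 0 => simp [face]
  | 1 => simp [face]
  | 2 => simp [face]; ring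
  | 3 => simp [face]; ring
  | 4 => simp [face]; ring
  | (n + 5) => simp [face]

theorem face_mem (F : ℕ) {q : ℝ × ℝ} (h1 : 0 ≤ q.1) (h2 : q.1 ≤ 1) (h3 : 0 ≤ q.2) (h4 : q.2 ≤ 1) :
    (∀ k, 0 ≤ face F q k ∧ face F q k ≤ 1) ∧ ∃ k, face F q k = 0 ∨ face F q k = 1 := by
  match F with
  | 0 => exact ⟨fun k => by fin_cases k <;> simp [face, *], 2, by simp [face]⟩
  | 1 => exact ⟨fun k => by fin_cases k <;> simp [face, *], 0, by simp [face]⟩
  | 2 => exact ⟨fun k => by fin_cases k <;> simp [face, *], 1, by simp [face]⟩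
  | 3 => exact ⟨fun k => by fin_cases k <;> simp [face, *], 2, by simp [face]⟩
  | 4 => exact ⟨fun k => by fin_cases k <;> simp [face, *], 0, by simp [face]⟩
  | (n + 5) => exact ⟨fun k => by fin_cases k <;> simp [face, *], 1, by simp [face]⟩

theorem face_surj {v : Fin 3 → ℝ} (h : ∀ k, 0 ≤ v k ∧ v k ≤ 1) (h' : ∃ k, v k = 0 ∨ v k = 1) :
    ∃ F < 6, ∃ q ∈ Icc (0 : ℝ) 1 ×ˢ Icc (0 : ℝ) 1, face F q = v := by
  obtain ⟨k, hk⟩ := h'
  have h0 := h 0
  have h1 := h 1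
  have h2 := h 2
  fin_cases k <;> rcases hk with hk | hk <;> simp at hk
  · exact ⟨4, by norm_num, (v 2, v 1), ⟨h2, h1⟩, by ext k; fin_cases k <;> simp [face, hk]⟩
  · exact ⟨1, by norm_num, (v 1, v 2), ⟨h1, h2⟩, by ext k; fin_cases k <;> simp [face, hk]⟩
  · exact ⟨5, by norm_num, (v 0, v 2), ⟨h0, h2⟩, by ext k; fin_cases k <;> simp [face, hk]⟩
  · exact ⟨2, by norm_num, (v 2, v 0), ⟨h2, h0⟩, by ext k; fin_cases k <;> simp [face, hk]⟩
  · exact ⟨3, by norm_num, (v 1, v 0), ⟨h1, h0⟩, by ext k; fin_cases k <;> simp [face, hk]⟩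
  · exact ⟨0, by norm_num, (v 0, v 1), ⟨h0, h1⟩, by ext k; fin_cases k <;> simp [face, hk]⟩

theorem face_inj {F F' : ℕ} (hF : F < 6) (hF' : F' < 6) {q q' : ℝ × ℝ}
    (h1 : 0 < q.1) (h2 : q.1 < 1) (h3 : 0 < q.2) (h4 : q.2 < 1)
    (g1 : 0 < q'.1) (g2 : q'.1 < 1) (g3 : 0 < q'.2) (g4 : q'.2 < 1)
    (h : face F q = face F' q') : F = F' ∧ q = q' := by
  have e0 := congrFun h 0
  have e1 := congrFun h 1
  have e2 := congrFun h 2
  interval_cases F <;> interval_cases F' <;> simp [face] at e0 e1 e2 <;>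
    first
    | exact ⟨rfl, Prod.ext (by linarith) (by linarith)⟩
    | (exfalso; linarith)

theorem interior_step {S : Set E2} {p : E2} (hp : p ∈ interior S) (v : E2) :
    ∃ e : ℝ, 0 < e ∧ p + e • v ∈ S := by
  have hc : Continuous fun e : ℝ => p + e • v := by fun_prop
  have h0 : (fun e : ℝ => p + e • v) ⁻¹' interior S ∈ nhds (0 : ℝ) :=
    hc.continuousAt.preimage_mem_nhds (by simpa using isOpen_interior.mem_nhds hp)
  obtain ⟨e, he, hb⟩ := Metric.mem_nhds_iff.1 h0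
  refine ⟨e / 2, by positivity, interior_subset (hb ?_)⟩
  rw [Metric.mem_ball, Real.dist_eq, sub_zero, abs_of_pos (by positivity)]
  linarith

def panel (A B : ℤ) (w : (ℤ × ℤ) × Ch) : Set E2 :=
  {p | Dia w.1 (p 0 - p 1) (p 0 + p 1) ∧ InD A B w.2 (p 0 - p 1) (p 0 + p 1)}

theorem panel_interior {A B : ℤ} (hA : 0 < A) {w : (ℤ × ℤ) × Ch} {p : E2}
    (hp : p ∈ interior (panel A B w)) :
    DiaO w.1 (p 0 - p 1) (p 0 + p 1) ∧ 0 < al A B w.2 (p 0 - p 1) (p 0 + p 1) ∧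
      al A B w.2 (p 0 - p 1) (p 0 + p 1) < 1 ∧ 0 < be A B w.2 (p 0 - p 1) (p 0 + p 1) ∧
      be A B w.2 (p 0 - p 1) (p 0 + p 1) < 1 := by
  have hN := N_pos (B := B) hA
  have hA' : (0 : ℝ) < A := by exact_mod_cast hA
  obtain ⟨e1, p1, ⟨-, a1, -, -⟩, -⟩ := interior_step hp !₂[1, 0]
  obtain ⟨e2, p2, ⟨a2, -, -, -⟩, -⟩ := interior_step hp !₂[-1, 0]
  obtain ⟨e3, p3, ⟨-, -, -, a3⟩, -⟩ := interior_step hp !₂[0, 1]
  obtain ⟨e4, p4, ⟨-, -, a4, -⟩, -⟩ := interior_step hp !₂[0, -1]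
  obtain ⟨e5, p5, -, -, a5, -, -⟩ := interior_step hp !₂[1, -1]
  obtain ⟨e6, p6, -, a6, -, -, -⟩ := interior_step hp !₂[-1, 1]
  obtain ⟨e7, p7, -, -, -, -, a7⟩ := interior_step hp !₂[1, 1]
  obtain ⟨e8, p8, -, -, -, a8, -⟩ := interior_step hp !₂[-1, -1]
  simp [al, be] at a1 a2 a3 a4 a5 a6 a7 a8
  have key : ∀ (u v : ℝ), u < v → u / ((A : ℝ) ^ 2 + B ^ 2) < v / ((A : ℝ) ^ 2 + B ^ 2) :=
    fun u v h => div_lt_div_of_pos_right h hN
  have m5 := mul_pos hA' p5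
  have m6 := mul_pos hA' p6
  have m7 := mul_pos hA' p7
  have m8 := mul_pos hA' p8
  refine ⟨⟨by linarith, by linarith, by linarith, by linarith⟩, ?_, ?_, ?_, ?_⟩
  · simp only [al]; refine sub_pos.2 (lt_of_le_of_lt a6 (key _ _ ?_)); nlinarith
  · simp only [al]; refine sub_lt_iff_lt_add.2 (lt_of_lt_of_le (key _ _ ?_) a5); nlinarith
  · simp only [be]; refine sub_pos.2 (lt_of_le_of_lt a8 (key _ _ ?_)); nlinarith
  · simp only [be]; refine sub_lt_iff_lt_add.2 (lt_of_lt_of_le (key _ _ ?_) a7); nlinarith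

theorem panel_convex (A B : ℤ) (w : (ℤ × ℤ) × Ch) : Convex ℝ (panel A B w) := by
  intro p hp q hq s t hs ht hst
  obtain ⟨⟨a1, a2, a3, a4⟩, a5, a6, a7, a8⟩ := hp
  obtain ⟨⟨b1, b2, b3, b4⟩, b5, b6, b7, b8⟩ := hq
  have ea : al A B w.2 ((s • p + t • q) 0 - (s • p + t • q) 1) ((s • p + t • q) 0 + (s • p + t • q) 1)
      = s * al A B w.2 (p 0 - p 1) (p 0 + p 1) + t * al A B w.2 (q 0 - q 1) (q 0 + q 1) := by
    simp only [al, PiLp.add_apply, PiLp.smul_apply, smul_eq_mul]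
    have : t = 1 - s := by linarith
    subst this; ring
  have eb : be A B w.2 ((s • p + t • q) 0 - (s • p + t • q) 1) ((s • p + t • q) 0 + (s • p + t • q) 1)
      = s * be A B w.2 (p 0 - p 1) (p 0 + p 1) + t * be A B w.2 (q 0 - q 1) (q 0 + q 1) := by
    simp only [be, PiLp.add_apply, PiLp.smul_apply, smul_eq_mul]
    have : t = 1 - s := by linarith
    subst this; ring
  have ht' : t = 1 - s := by linarith
  refine ⟨?_, ?_⟩
  · simp only [Dia, PiLp.add_apply, PiLp.smul_apply, smul_eq_mul]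
    subst ht'
    refine ⟨?_, ?_, ?_, ?_⟩ <;> nlinarith
  · simp only [InD, ea, eb]
    subst ht'
    refine ⟨?_, ?_, ?_, ?_⟩ <;> nlinarith

theorem panel_compact (A B : ℤ) (w : (ℤ × ℤ) × Ch) : IsCompact (panel A B w) := by
  apply Metric.isCompact_of_isClosed_isBounded
  · simp only [panel, Dia, InD, al, be, ofPred_and]
    refine IsClosed.inter (IsClosed.inter ?_ (IsClosed.inter ?_ (IsClosed.inter ?_ ?_)))
      (IsClosed.inter ?_ (IsClosed.inter ?_ (IsClosed.inter ?_ ?_))) <;>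
      exact isClosed_le (by fun_prop) (by fun_prop)
  · refine (Metric.isBounded_closedBall (x := (!₂[((w.1.1 : ℝ) + w.1.2) / 2,
      ((w.1.2 : ℝ) - w.1.1) / 2] : E2)) (r := 1)).subset ?_
    rintro p ⟨⟨a1, a2, a3, a4⟩, -⟩
    rw [Metric.mem_closedBall, EuclideanSpace.dist_eq, Real.sqrt_le_one]
    simp [Real.dist_eq, sq_abs]
    nlinarith

noncomputable def fold (A B : ℤ) (c : Ch) (p : E2) : E3 :=
  WithLp.toLp 2 fun k => √(((A : ℝ) ^ 2 + B ^ 2) / 2) * psi A B c (p 0 - p 1) (p 0 + p 1) k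

theorem fold_dist {A B : ℤ} (hA : 0 < A) (c : Ch) (p q : E2) :
    dist (fold A B c p) (fold A B c q) = dist p q := by
  have hN := N_pos (B := B) hA
  rw [EuclideanSpace.dist_eq, EuclideanSpace.dist_eq]
  congr 1
  simp only [Fin.sum_univ_three, Fin.sum_univ_two, Real.dist_eq, sq_abs, fold, psi]
  have h1 := face_dist c.F
    (rotN c.r (al A B c (p 0 - p 1) (p 0 + p 1)) (be A B c (p 0 - p 1) (p 0 + p 1)))
    (rotN c.r (al A B c (q 0 - q 1) (q 0 + q 1)) (be A B c (q 0 - q 1) (q 0 + q 1)))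
  rw [rotN_dist] at h1
  have h2 : √(((A : ℝ) ^ 2 + B ^ 2) / 2) ^ 2 = ((A : ℝ) ^ 2 + B ^ 2) / 2 :=
    Real.sq_sqrt (by positivity)
  have h3 : ((A : ℝ) ^ 2 + B ^ 2) / 2 *
      ((al A B c (p 0 - p 1) (p 0 + p 1) - al A B c (q 0 - q 1) (q 0 + q 1)) ^ 2 +
      (be A B c (p 0 - p 1) (p 0 + p 1) - be A B c (q 0 - q 1) (q 0 + q 1)) ^ 2) =
      (p 0 - q 0) ^ 2 + (p 1 - q 1) ^ 2 := by
    simp only [al, be]; field_simp; ring
  rw [← h3, ← h1, ← h2]
  simp only [h2]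
  rw [← h2]
  simp only [Real.sq_sqrt (show (0 : ℝ) ≤ ((A : ℝ) ^ 2 + B ^ 2) / 2 by positivity)]
  generalize √(((A : ℝ) ^ 2 + B ^ 2) / 2) = l at *
  rw [← h2]; ring

theorem net_of {A B : ℤ} (hB : 0 ≤ B) (hBA : B ≤ A) (hA : 0 < A) (hAe : A % 2 = 0)
    (hBe : B % 2 = 0) (S : Finset (ℤ × ℤ)) (W : Set ((ℤ × ℤ) × Ch)) (hW : W.Finite)
    (hS : ∀ z ∈ S, Black z) (h0 : ∀ w ∈ W, w.1 ∈ S ∧ w.2.F < 6)
    (h1 : ∀ z ∈ S, ∀ x y, Dia z x y → ∃ c, (z, c) ∈ W ∧ InD A B c x y)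
    (h2 : ∀ w ∈ W, ∀ w' ∈ W, ∀ x y, Dia w.1 x y → Dia w'.1 x y → InD A B w.2 x y →
      InD A B w'.2 x y → psi A B w.2 x y = psi A B w'.2 x y)
    (h3 : ∀ w ∈ W, ∀ w' ∈ W, w.2.F = w'.2.F → can A B w.2 w.1 = can A B w'.2 w'.1 → w = w')
    (h4 : ∀ F < 6, ∀ y, Black y → InQ A B y → ∃ w ∈ W, w.2.F = F ∧ can A B w.2 w.1 = y) :
    IsCubeNet (region (S.image toCell)) := by
  classical
  have hN := N_pos (B := B) hA
  set l := √(((A : ℝ) ^ 2 + B ^ 2) / 2) with hl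
  have lpos : 0 < l := Real.sqrt_pos.2 (by positivity)
  let f : E2 → E3 := fun p =>
    if h : ∃ w ∈ W, p ∈ panel A B w then fold A B h.choose.2 p else 0
  have hf : ∀ w ∈ W, ∀ p ∈ panel A B w, f p = fold A B w.2 p := by
    intro w hw p hp
    have h : ∃ w ∈ W, p ∈ panel A B w := ⟨w, hw, hp⟩
    simp only [f, dif_pos h]
    have := h2 _ h.choose_spec.1 w hw _ _ h.choose_spec.2.1 hp.1 h.choose_spec.2.2 hp.2
    simp only [fold, this]
  have hR : ∀ p, p ∈ region (S.image toCell) ↔ ∃ w ∈ W, p ∈ panel A B w := by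
    intro p
    simp only [region, mem_iUnion, Finset.mem_image]
    constructor
    · rintro ⟨c, ⟨z, hz, rfl⟩, hp⟩
      rw [mem_square (hS z hz)] at hp
      obtain ⟨c, hc, hd⟩ := h1 z hz _ _ hp
      exact ⟨_, hc, hp, hd⟩
    · rintro ⟨w, hw, hp⟩
      exact ⟨_, ⟨w.1, (h0 w hw).1, rfl⟩, (mem_square (hS _ (h0 w hw).1) p).2 hp.1⟩
  refine ⟨l, f, panel A B '' W, lpos, hW.image _, ?_, ?_, ?_, ?_⟩
  · ext p; rw [hR]; simp
  · rintro _ ⟨w, hw, rfl⟩
    refine ⟨panel_compact A B w, panel_convex A B w, fun p hp q hq => ?_⟩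
    rw [hf w hw p hp, hf w hw q hq, fold_dist hA]
  · intro p hp q hq hpq
    simp only [mem_iUnion, mem_image] at hp hq
    obtain ⟨_, ⟨w, hw, rfl⟩, hp⟩ := hp
    obtain ⟨_, ⟨w', hw', rfl⟩, hq⟩ := hq
    rw [hf w hw p (interior_subset hp), hf w' hw' q (interior_subset hq)] at hpq
    obtain ⟨d1, a1, a2, a3, a4⟩ := panel_interior hA hp
    obtain ⟨d2, b1, b2, b3, b4⟩ := panel_interior hA hq
    have e : psi A B w.2 (p 0 - p 1) (p 0 + p 1) = psi A B w'.2 (q 0 - q 1) (q 0 + q 1) := by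
      ext k
      have := congrArg (fun v : E3 => v k) hpq
      simp only [fold] at this
      exact mul_left_cancel₀ lpos.ne' this
    obtain ⟨r1, r2, r3, r4⟩ := rotN_memO w.2.r a1 a2 a3 a4
    obtain ⟨s1, s2, s3, s4⟩ := rotN_memO w'.2.r b1 b2 b3 b4
    obtain ⟨eF, eq⟩ := face_inj (h0 w hw).2 (h0 w' hw').2 r1 r2 r3 r4 s1 s2 s3 s4 e
    have c1 := (dia_can (B := B) hA w.2 w.1 _ _).2 d1
    have c2 := (dia_can (B := B) hA w'.2 w'.1 _ _).2 d2
    rw [eq] at c1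
    have := h3 w hw w' hw' eF (diaO_unique (black_can hAe hBe _ (hS _ (h0 w hw).1))
      (black_can hAe hBe _ (hS _ (h0 w' hw').1)) c1 c2)
    subst this
    have hd := fold_dist (B := B) hA w.2 p q
    rw [hpq, dist_self] at hd
    exact dist_eq_zero.1 hd.symm
  · ext v
    constructor
    · rintro ⟨p, hp, rfl⟩
      obtain ⟨w, hw, hp⟩ := (hR p).1 hp
      rw [hf w hw p hp]
      obtain ⟨a1, a2, a3, a4⟩ := hp.2
      obtain ⟨r1, r2, r3, r4⟩ := rotN_mem w.2.r a1 a2 a3 a4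
      obtain ⟨m1, k, m2⟩ := face_mem w.2.F r1 r2 r3 r4
      refine ⟨fun i => ⟨?_, ?_⟩, k, ?_⟩
      · exact mul_nonneg lpos.le (m1 i).1
      · exact mul_le_of_le_one_right lpos.le (m1 i).2
      · simp only [fold, psi]
        rcases m2 with m2 | m2
        · left; rw [m2, mul_zero]
        · right; rw [m2, mul_one]
    · rintro ⟨hv, k, hk⟩
      obtain ⟨F, hF, q, hq, hv'⟩ := face_surj (v := fun i => v i / l)
        (fun i => ⟨div_nonneg (hv i).1 lpos.le, (div_le_one lpos).2 (hv i).2⟩)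
        ⟨k, by rcases hk with hk | hk <;> simp [hk, lpos.ne']⟩
      obtain ⟨y, hy1, hy2, hy3⟩ := exists_inQ hB hBA hA hAe hBe hq
      obtain ⟨w, hw, hwF, hwc⟩ := h4 F hF y hy1 hy2
      obtain ⟨a, b, a1, a2, a3, a4, hr⟩ := rotN_surj w.2.r hq.1.1 hq.1.2 hq.2.1 hq.2.2
      let x0 : ℝ := A * a + B * b + cbx A B w.2
      let y0 : ℝ := B - B * a + A * b + cby A B w.2
      have ea : al A B w.2 x0 y0 = a := by
        simp only [al, x0, y0, cbx, cby]; push_cast; field_simp; ring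
      have eb : be A B w.2 x0 y0 = b := by
        simp only [be, x0, y0, cbx, cby]; push_cast; field_simp; ring
      let p : E2 := !₂[(x0 + y0) / 2, (y0 - x0) / 2]
      have p1 : p 0 - p 1 = x0 := by simp [p]; ring
      have p2 : p 0 + p 1 = y0 := by simp [p]; ring
      have hp : p ∈ panel A B w := by
        refine ⟨?_, ?_⟩
        · rw [p1, p2, (dia_can (B := B) hA w.2 w.1 x0 y0).1, ea, eb, hr, hwc]; exact hy3
        · rw [p1, p2]; simp only [InD, ea, eb]; exact ⟨a1, a2, a3, a4⟩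
      refine ⟨p, (hR p).2 ⟨w, hw, hp⟩, ?_⟩
      rw [hf w hw p hp]
      ext i
      simp only [fold, psi, p1, p2, ea, eb, hr, hwF, hv']
      rw [← hl]
      field_simp

theorem IsCubeNet.shift {R : Set E2} (h : IsCubeNet R) (v : E2) :
    IsCubeNet ((fun p => p + v) '' R) := by
  obtain ⟨l, f, T, hl, hT, hU, hP, hI, hS⟩ := h
  refine ⟨l, fun p => f (p - v), (fun S => (fun p => p + v) '' S) '' T, hl, hT.image _, ?_, ?_,
    ?_, ?_⟩
  · rw [← hU, sUnion_image, sUnion_eq_biUnion, image_iUnion₂]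
  · rintro _ ⟨S, hS, rfl⟩
    obtain ⟨h1, h2, h3⟩ := hP S hS
    refine ⟨h1.image (by fun_prop), ?_, ?_⟩
    · simpa [add_comm] using h2.translate v
    · rintro _ ⟨p, hp, rfl⟩ _ ⟨q, hq, rfl⟩
      simp [h3 p hp q hq]
  · intro p hp q hq hpq
    simp only [mem_iUnion, mem_image] at hp hq
    obtain ⟨_, ⟨S, hS, rfl⟩, hp⟩ := hp
    obtain ⟨_, ⟨S', hS', rfl⟩, hq⟩ := hq
    have e : ∀ S : Set E2, interior ((fun p => p + v) '' S) = (fun p => p + v) '' interior S :=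
      fun S => ((Homeomorph.addRight v).image_interior S).symm
    rw [e] at hp hq
    obtain ⟨p, hp, rfl⟩ := hp
    obtain ⟨q, hq, rfl⟩ := hq
    simp only [add_sub_cancel_right] at hpq
    rw [hI (mem_biUnion hS hp) (mem_biUnion hS' hq) hpq]
  · rw [image_image, ← hS]; simp

end Pool.Agent.P.MP_626a52_co
end

-- part Pool.Agent.P.MP_626a52_co.Sound3
section

namespace Pool.Agent.P.MP_626a52_co
open Relation

theorem LE3.trans {f g h : ℕ} (a : LE3 0 f g) (b : LE3 0 g h) : LE3 0 f h := by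
  unfold LE3 at *; omega

theorem tiny_facts {A B : ℕ} (hA : Tiny A) (hB : Tiny B) :
    WF A ∧ WF B ∧ WF (B + 1) ∧ WF (A + B) ∧ WF (A + B + 1) ∧ WF 0 ∧ WF 1 := by
  obtain ⟨a, b, c, h1, h2, h3, h4, rfl⟩ := hA
  obtain ⟨a', b', c', g1, g2, g3, g4, rfl⟩ := hB
  unfold WF; omega

theorem mem_incL {A B : ℕ} {p : Pc} {l : List (Ch × Rc)} {e : Ch × Rc} :
    e ∈ incL A B p l ↔ (e = (p.c1, p.rel) ∨ (p.ty ≠ 0 ∧ e = (p.c2, rel2 A B p))) ∨ e ∈ l := by
  simp only [incL, sel_eq, beq_iff]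
  split_ifs with h <;> simp [h, or_assoc]

def Inc (A B : ℕ) (p : Pc) (e : Ch × Rc) : Prop :=
  e = (p.c1, p.rel) ∨ (p.ty ≠ 0 ∧ e = (p.c2, rel2 A B p))

theorem mem_allInc {A B : ℕ} {bl : List Blk} {e : Ch × Rc} :
    e ∈ allInc A B bl ↔ ∃ b ∈ bl, ∃ p ∈ b.ps, Inc A B p e := by
  have h1 : ∀ (ps : List Pc) (l : List (Ch × Rc)),
      e ∈ ps.foldr (incL A B) l ↔ (∃ p ∈ ps, Inc A B p e) ∨ e ∈ l := by
    intro ps l
    induction ps with
    | nil => simp
    | cons p ps ih => simp only [List.foldr_cons, mem_incL, ih, Inc]; simp [or_assoc]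
  simp only [allInc, foldL_eq]
  induction bl with
  | nil => simp
  | cons b bl ih => simp only [List.foldr_cons, h1, ih]; simp

structure PcP (A B s t : ℕ) (b : Blk) (p : Pc) : Prop where
  pg : PG p
  sub : ∀ z, p.pl.mem s t z → b.R.mem s t z
  inc : ∀ e, Inc A B p e → IsCh p e.1 ∧ ∀ z : ℤ × ℤ, p.pl.mem s t z ↔
    e.2.mem s t (z.1 - cbx (ev s t A) (ev s t B) e.1, z.2 - cby (ev s t A) (ev s t B) e.1)
  cov : ∀ z, p.pl.mem s t z → ∀ x y, Dia z x y →
    ∃ e, Inc A B p e ∧ InD (ev s t A) (ev s t B) e.1 x y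

theorem pcOK_sound {A B s t : ℕ} (hA : Tiny A) (hB : Tiny B) (hB0 : 0 ≤ ev s t B)
    (hBA : ev s t B ≤ ev s t A) (hA0 : 0 < ev s t A) {b : Blk} {p : Pc} (hb : b.R.WF)
    (hp : p.pl.WF) (h : pcOK A B b p = true) : PcP A B s t b p := by
  simp only [pcOK, shiftEq, an_iff, force_eq, beq_iff, Nat.add_eq] at h
  obtain ⟨k1, k2, hv, hty, hsub, hw, e1, e2, e3, e4⟩ := h
  have g1 := chOK_sound k1
  have g2 := chOK_sound k2
  obtain ⟨⟨r1, r2, r3, r4⟩, l1, l2, -⟩ := valid_sound hv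
  have wu := wf_sound (wf_lor hw).1
  have wv := wf_sound (wf_lor hw).2
  obtain ⟨wA, wB, wB1, wM, wM1, w0, w1⟩ := tiny_facts hA hB
  have eu : ev s t (bxF A B p.c1.i p.c1.j) = cbx (ev s t A) (ev s t B) p.c1 :=
    ev_lin s t hA hB (by have := g1.1; omega) (by have := g1.2.1; omega)
  have ev' : ev s t (byF A B 12 p.c1.i p.c1.j) = cby (ev s t A) (ev s t B) p.c1 := by
    have := ev_lin s t (i := p.c1.j) (j := 12 - p.c1.i) hA hB (by have := g1.2.1; omega)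
      (by omega)
    rw [Nat.cast_sub g1.1] at this
    exact this
  have m1 : ∀ z : ℤ × ℤ, p.pl.mem s t z ↔ p.rel.mem s t
      (z.1 - cbx (ev s t A) (ev s t B) p.c1, z.2 - cby (ev s t A) (ev s t B) p.c1) := by
    intro z
    simp only [Rc.mem, e1, e2, e3, e4, ev_add s t r1 wu, ev_add s t r2 wu, ev_add s t r3 wv,
      ev_add s t r4 wv, eu, ev']
    omega
  have sB := ev_succ s t wB
  have sM := ev_add s t wA wB
  have sM1 := ev_succ s t wM
  have s1 : ev s t 1 = 1 := ev_small s t (by norm_num)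
  have pg : PG p := ⟨hp, fun c hc => by rcases hc with rfl | rfl <;> assumption⟩
  have hs : ∀ z, p.pl.mem s t z → b.R.mem s t z := fun z hz => sub_mem hp hb hsub hz
  simp only [tyOK, sel_eq, beq_iff] at hty
  split_ifs at hty with t0 t1
  · refine ⟨pg, hs, ?_, fun z hz x y d => ⟨_, Or.inl rfl, ?_⟩⟩
    · rintro e (rfl | ⟨h, -⟩)
      · exact ⟨Or.inl rfl, m1⟩
      · exact absurd t0 h
    · have := sub_mem (Q := regC A B) ⟨r1, r2, r3, r4⟩ ⟨wB1, wA, wB1, wA⟩ hty ((m1 z).1 hz)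
      simp only [Rc.mem, regC, Nat.succ_eq_add_one, sB] at this
      exact cover_C hB0 hBA hA0 _ d this.1 this.2.1 this.2.2.1 this.2.2.2
  · simp only [an_iff, beq_iff, Nat.succ_eq_add_one] at hty
    obtain ⟨hty, c1, c2⟩ := hty
    obtain ⟨q1, -, -, -⟩ := sub_sound (Q := regR A B) ⟨r1, r2, r3, r4⟩ ⟨wA, wM1, w1, wA⟩ hty
    refine ⟨pg, hs, ?_, fun z hz x y d => ?_⟩
    · rintro e (rfl | ⟨h, rfl⟩)
      · exact ⟨Or.inl rfl, m1⟩
      · refine ⟨Or.inr rfl, fun z => ?_⟩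
        have a1 := ev_sub s t (f := p.rel.x0) (g := A) q1
        have a2 := ev_sub s t (f := p.rel.x1) (g := A) (q1.trans l1)
        have b1 : cbx (ev s t A) (ev s t B) p.c2 = cbx (ev s t A) (ev s t B) p.c1 + ev s t A := by
          simp only [cbx, c1, c2]; push_cast; ring
        have b2 : cby (ev s t A) (ev s t B) p.c2 = cby (ev s t A) (ev s t B) p.c1 - ev s t B := by
          simp only [cby, c1, c2]; push_cast; ring
        rw [m1]
        simp only [rel2, sel_eq, beq_iff, t1, if_true, Rc.mem, Nat.sub_eq, Nat.add_eq, a1, a2,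
          ev_add s t r3 wB, ev_add s t r4 wB, b1, b2]
        omega
    · have := sub_mem (Q := regR A B) ⟨r1, r2, r3, r4⟩ ⟨wA, wM1, w1, wA⟩ hty ((m1 z).1 hz)
      simp only [Rc.mem, regR, Nat.succ_eq_add_one, Nat.add_eq, sM1, sM, s1] at this
      rcases cover_R hB0 hBA hA0 p.c1 p.c2 d this.1 this.2.1 this.2.2.1 this.2.2.2 c1 c2 with
        h | h
      · exact ⟨_, Or.inl rfl, h⟩
      · exact ⟨_, Or.inr ⟨t0, rfl⟩, h⟩
  · simp only [an_iff, beq_iff, Nat.succ_eq_add_one] at hty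
    obtain ⟨hty, c1, c2⟩ := hty
    obtain ⟨q1, -, q3, -⟩ := sub_sound (Q := regU A B) ⟨r1, r2, r3, r4⟩ ⟨wB1, wM, wA, wM1⟩ hty
    have q0 : LE3 0 B p.rel.x0 := by
      have : LE3 0 B (B + 1) := by unfold WF at wB; unfold LE3; omega
      exact this.trans q1
    refine ⟨pg, hs, ?_, fun z hz x y d => ?_⟩
    · rintro e (rfl | ⟨h, rfl⟩)
      · exact ⟨Or.inl rfl, m1⟩
      · refine ⟨Or.inr rfl, fun z => ?_⟩
        have a1 := ev_sub s t (f := p.rel.x0) (g := B) q0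
        have a2 := ev_sub s t (f := p.rel.x1) (g := B) (q0.trans l1)
        have a3 := ev_sub s t (f := p.rel.y0) (g := A) q3
        have a4 := ev_sub s t (f := p.rel.y1) (g := A) (q3.trans l2)
        have b1 : cbx (ev s t A) (ev s t B) p.c2 = cbx (ev s t A) (ev s t B) p.c1 + ev s t B := by
          simp only [cbx, c1, c2]; push_cast; ring
        have b2 : cby (ev s t A) (ev s t B) p.c2 = cby (ev s t A) (ev s t B) p.c1 + ev s t A := by
          simp only [cby, c1, c2]; push_cast; ring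
        rw [m1]
        simp only [rel2, sel_eq, beq_iff, t1, if_false, Rc.mem, Nat.sub_eq, a1, a2, a3, a4, b1, b2]
        omega
    · have := sub_mem (Q := regU A B) ⟨r1, r2, r3, r4⟩ ⟨wB1, wM, wA, wM1⟩ hty ((m1 z).1 hz)
      simp only [Rc.mem, regU, Nat.succ_eq_add_one, Nat.add_eq, sM1, sM, sB] at this
      rcases cover_U hB0 hBA hA0 p.c1 p.c2 d this.1 this.2.1 this.2.2.1 this.2.2.2 c1 c2 with
        h | h
      · exact ⟨_, Or.inl rfl, h⟩
      · exact ⟨_, Or.inr ⟨t0, rfl⟩, h⟩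

theorem rotR_mem {M r s t : ℕ} {m : ℤ} {R : Rc} (hM : WF M) (em : ev s t M = m + 1)
    (h : inBox M R = true) (X Y : ℤ) :
    (rotR M r R).mem s t (rotZ m r X Y) ↔ R.mem s t (X, Y) := by
  simp only [inBox, an_iff] at h
  obtain ⟨hv, h1, h2⟩ := h
  obtain ⟨⟨r1, r2, r3, r4⟩, l1, l2, -⟩ := valid_sound hv
  have k1 := le0_sound r2 hM h1
  have k2 := le0_sound r4 hM h2
  have a1 := ev_sub s t k1
  have a2 := ev_sub s t k2
  have a3 := ev_sub s t (l1.trans k1)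
  have a4 := ev_sub s t (l2.trans k2)
  rcases r with _ | _ | _ | r
  · simp [rotR, sel_eq, rotZ]
  · simp only [rotR, sel_eq, rotZ, ble_iff, beq_iff, Rc.mem, Nat.sub_eq]
    norm_num [a1, a2, a3, a4]; omega
  · simp only [rotR, sel_eq, rotZ, ble_iff, beq_iff, Rc.mem, Nat.sub_eq]
    norm_num [a1, a2, a3, a4]; omega
  · have e1 : ¬ (r + 1 + 1 + 1 ≤ 1) := by omega
    have e2 : ¬ (r + 1 + 1 + 1 = 2) := by omega
    simp only [rotR, sel_eq, rotZ, ble_iff, beq_iff, Rc.mem, Nat.sub_eq, e1, e2, if_false, a1, a3]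
    omega

theorem rotZ_surj (m : ℤ) (r : ℕ) (y : ℤ × ℤ) :
    ∃ X Y, rotZ m r X Y = y ∧ (m % 2 = 0 → (X + Y) % 2 = (y.1 + y.2) % 2) := by
  rcases r with _ | _ | _ | r
  · exact ⟨y.1, y.2, rfl, fun _ => rfl⟩
  · exact ⟨y.2, m - y.1, by simp [rotZ], by omega⟩
  · exact ⟨m - y.1, m - y.2, by simp [rotZ], by omega⟩
  · exact ⟨m - y.2, y.1, by simp [rotZ], by omega⟩

theorem rotZ_inj {m : ℤ} {r : ℕ} {X Y X' Y' : ℤ} (h : rotZ m r X Y = rotZ m r X' Y') :
    X = X' ∧ Y = Y' := by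
  rcases r with _ | _ | _ | r <;> simp only [rotZ, Prod.mk.injEq] at h <;> omega

theorem unit_white {s t : ℕ} {w : ℕ × ℕ} (hv : (unitR w).valid = true)
    (hw : whiteB w.1 w.2 = true) {z : ℤ × ℤ} (hz : Black z) : ¬ (unitR w).mem s t z := by
  obtain ⟨⟨r1, -, r3, -⟩, -⟩ := valid_sound hv
  have a := ev_succ s t (f := w.1) r1
  have b := ev_succ s t (f := w.2) r3
  have c := ev_par s t w.1
  have d := ev_par s t w.2
  simp only [whiteB, beq_iff, Nat.add_eq] at hw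
  have hw' : (w.1 + w.2) % 2 = 0 := hw
  simp only [Rc.mem, unitR, Nat.succ_eq_add_one, a, b]
  unfold Black at hz
  omega

theorem cnt_append (s t : ℕ) (z : ℤ × ℤ) (l m : List Rc) :
    cnt s t z (l ++ m) = cnt s t z l + cnt s t z m := by simp [cnt]

theorem cnt_zero {s t : ℕ} {z : ℤ × ℤ} {l : List Rc} (h : ∀ R ∈ l, ¬ R.mem s t z) :
    cnt s t z l = 0 := by
  simpa [cnt, List.countP_eq_zero] using h

theorem cnt_pos {s t : ℕ} {z : ℤ × ℤ} {l : List Rc} :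
    0 < cnt s t z l ↔ ∃ R ∈ l, R.mem s t z := by
  simp [cnt, List.countP_pos_iff]

theorem countP_le_one_eq {α : Type} {p : α → Bool} {l : List α} (h : l.countP p ≤ 1) {a b : α}
    (ha : a ∈ l) (hb : b ∈ l) (pa : p a = true) (pb : p b = true) : a = b := by
  rw [List.countP_eq_length_filter] at h
  have h1 : a ∈ l.filter p := List.mem_filter.2 ⟨ha, pa⟩
  have h2 : b ∈ l.filter p := List.mem_filter.2 ⟨hb, pb⟩
  match hl : l.filter p with
  | [] => rw [hl] at h1; simp at h1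
  | [c] => rw [hl] at h1 h2; simp at h1 h2; rw [h1, h2]
  | c :: d :: m => rw [hl] at h; simp at h

theorem cnt_q {A B s t : ℕ} (hA : Tiny A) (hB : Tiny B) (hB0 : 0 ≤ ev s t B)
    (hBA : ev s t B ≤ ev s t A) (y : ℤ × ℤ) :
    cnt s t y (qRects A B) ≤ 1 ∧ (InQ (ev s t A) (ev s t B) y → 0 < cnt s t y (qRects A B)) := by
  obtain ⟨wA, wB, wB1, wM, wM1, w0, w1⟩ := tiny_facts hA hB
  have sB := ev_succ s t wB
  have sM := ev_add s t wA wB
  have sM1 := ev_succ s t wM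
  have s1 : ev s t 1 = 1 := ev_small s t (by norm_num)
  have s0 : ev s t 0 = 0 := ev_small s t (by norm_num)
  simp only [qRects, sel_eq, beq_iff, InQ]
  split_ifs with h
  · have : ev s t A = ev s t B := by rw [h]
    simp only [cnt, List.countP_cons, List.countP_nil, decide_eq_true_eq, Rc.mem, regR, regU, regL,
      regD, Nat.succ_eq_add_one, Nat.add_eq, sB, sM1, sM, s1, s0]
    split_ifs <;> omega
  · simp only [cnt, List.countP_cons, List.countP_nil, decide_eq_true_eq, Rc.mem, regC, regR, regU,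
      regL, regD, Nat.succ_eq_add_one, Nat.add_eq, sB, sM1, sM, s1, s0]
    split_ifs <;> omega

def Dg (S : Finset (ℤ × ℤ)) (z w : ℤ × ℤ) : Prop :=
  z ∈ S ∧ w ∈ S ∧ (z.1 = w.1 + 1 ∨ w.1 = z.1 + 1) ∧ (z.2 = w.2 + 1 ∨ w.2 = z.2 + 1)

theorem Dg.symm {S : Finset (ℤ × ℤ)} {z w : ℤ × ℤ} (h : Dg S z w) : Dg S w z :=
  ⟨h.2.1, h.1, h.2.2.1.symm, h.2.2.2.symm⟩

theorem rtg_symm {S : Finset (ℤ × ℤ)} {z w : ℤ × ℤ} (h : ReflTransGen (Dg S) z w) :
    ReflTransGen (Dg S) w z := by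
  induction h with
  | refl => exact ReflTransGen.refl
  | tail _ h ih => exact ReflTransGen.head h.symm ih

theorem rect_conn {S : Finset (ℤ × ℤ)} {x0 x1 y0 y1 : ℤ} (hx : x0 + 2 ≤ x1) (hy : y0 + 2 ≤ y1)
    (hS : ∀ z : ℤ × ℤ, Black z → x0 ≤ z.1 → z.1 < x1 → y0 ≤ z.2 → z.2 < y1 → z ∈ S) :
    ∀ (n : ℕ) (z : ℤ × ℤ), 2 * (z.2 - y0) + (z.1 - x0) ≤ n → Black z → x0 ≤ z.1 → z.1 < x1 →
      y0 ≤ z.2 → z.2 < y1 → ReflTransGen (Dg S) z (x0 + 1 - (x0 + y0) % 2, y0) := by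
  intro n
  induction n with
  | zero =>
    rintro ⟨x, y⟩ h hb h1 h2 h3 h4
    unfold Black at hb
    simp only at *
    have : (x, y) = (x0 + 1 - (x0 + y0) % 2, y0) := by ext <;> dsimp only <;> omega
    rw [this]
  | succ n ih =>
    rintro ⟨x, y⟩ h hb h1 h2 h3 h4
    have hz := hS _ hb h1 h2 h3 h4
    unfold Black at hb ih hS
    simp only at *
    by_cases c1 : y0 < y
    · by_cases c2 : x0 < x
      · refine ReflTransGen.head (b := (x - 1, y - 1)) ⟨hz, hS _ ?_ ?_ ?_ ?_ ?_, ?_, ?_⟩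
          (ih _ ?_ ?_ ?_ ?_ ?_ ?_) <;> dsimp only <;> omega
      · refine ReflTransGen.head (b := (x + 1, y - 1)) ⟨hz, hS _ ?_ ?_ ?_ ?_ ?_, ?_, ?_⟩
          (ih _ ?_ ?_ ?_ ?_ ?_ ?_) <;> dsimp only <;> omega
    · by_cases c2 : x0 + 2 ≤ x
      · have hm : (x - 1, y + 1) ∈ S := by
          refine hS _ ?_ ?_ ?_ ?_ ?_ <;> dsimp only <;> omega
        refine ReflTransGen.head (b := (x - 1, y + 1)) ⟨hz, hm, ?_, ?_⟩
          (ReflTransGen.head (b := (x - 2, y)) ⟨hm, hS _ ?_ ?_ ?_ ?_ ?_, ?_, ?_⟩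
          (ih _ ?_ ?_ ?_ ?_ ?_ ?_)) <;> dsimp only <;> omega
      · have : (x, y) = (x0 + 1 - (x0 + y0) % 2, y0) := by ext <;> dsimp only <;> omega
        rw [this]

theorem blk_conn {S : Finset (ℤ × ℤ)} {s t : ℕ} {R : Rc} (hR : R.WF) (h : sizeOK R = true)
    (hS : ∀ z, Black z → R.mem s t z → z ∈ S) {z w : ℤ × ℤ} (hz : Black z) (hw : Black w)
    (mz : R.mem s t z) (mw : R.mem s t w) : ReflTransGen (Dg S) z w := by
  obtain ⟨r1, r2, r3, r4⟩ := hR
  simp only [sizeOK, orr_iff, an_iff, beq_iff, Nat.succ_eq_add_one] at h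
  rcases h with ⟨h1, h2⟩ | ⟨h1, h2⟩
  · have a := (le2_sound r1 r2 h1).ev s t
    have b := (le2_sound r3 r4 h2).ev s t
    have k := rect_conn (S := S) a b fun z hz h1 h2 h3 h4 => hS z hz ⟨h1, h2, h3, h4⟩
    exact (k _ z (Int.self_le_toNat _) hz mz.1 mz.2.1 mz.2.2.1 mz.2.2.2).trans
      (rtg_symm (k _ w (Int.self_le_toNat _) hw mw.1 mw.2.1 mw.2.2.1 mw.2.2.2))
  · have a := ev_succ s t r1
    have b := ev_succ s t r3
    simp only [Rc.mem, h1, h2, a, b] at mz mw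
    have : z = w := by ext <;> omega
    rw [this]

theorem inR_sound {x y : ℕ} {R : Rc} (hx : WF x) (hy : WF y) (hR : R.WF) (h : inR x y R = true)
    (s t : ℕ) : R.mem s t (ev s t x, ev s t y) := by
  obtain ⟨r1, r2, r3, r4⟩ := hR
  simp only [inR, an_iff] at h
  obtain ⟨h1, h2, h3, h4⟩ := h
  have a := (le0_sound r1 hx h1).ev s t
  have b := (le1_sound hx r2 h2).ev s t
  have c := (le0_sound r3 hy h3).ev s t
  have d := (le1_sound hy r4 h4).ev s t
  simp only [Rc.mem]; omega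

theorem off1_sound {f g : ℕ} (hf : WF f) (hg : WF g) (h : off1 f g = true) (s t : ℕ) :
    ev s t f = ev s t g + 1 ∨ ev s t g = ev s t f + 1 := by
  simp only [off1, orr_iff, beq_iff, Nat.succ_eq_add_one] at h
  rcases h with h | h
  · left; rw [h, ev_succ s t hg]
  · right; rw [h, ev_succ s t hf]

theorem connB_sound {S : Finset (ℤ × ℤ)} {s t : ℕ} (l : List Blk) : ∀ acc : List Blk,
    (∀ b, b ∈ acc ∨ b ∈ l → b.R.WF ∧ sizeOK b.R = true ∧ ∀ z, Black z → b.R.mem s t z → z ∈ S) →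
    connB l acc = true → ∀ r, acc ≠ [] →
    (∀ b ∈ acc, ∀ z, Black z → b.R.mem s t z → ReflTransGen (Dg S) z r) →
    ∀ b ∈ l, ∀ z, Black z → b.R.mem s t z → ReflTransGen (Dg S) z r := by
  induction l with
  | nil => intro _ _ _ _ _ _ b hb; simp at hb
  | cons b l ih =>
    intro acc hg h r hne hacc
    have e : connB (b :: l) acc = an (conn1 acc b) (connB l (b :: acc)) := rfl
    rw [e, an_iff] at h
    obtain ⟨h1, h2⟩ := h
    simp only [conn1, an_iff, orr_iff, nt_iff, isNil_iff, anyL_iff, whiteB, beq_iff,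
      Nat.add_eq] at h1
    obtain ⟨hw, hin, hbl, hh⟩ := h1
    obtain ⟨w1, w2, w3, w4⟩ := wf4 hw
    obtain ⟨o1, o2, d, hd, hin'⟩ := hh.resolve_left hne
    obtain ⟨gb1, gb2, gb3⟩ := hg b (Or.inr List.mem_cons_self)
    obtain ⟨gd1, gd2, gd3⟩ := hg d (Or.inl hd)
    have m1 := inR_sound w3 w4 gb1 hin s t
    have m2 := inR_sound w1 w2 gd1 hin' s t
    have p1 := off1_sound w1 w3 o1 s t
    have p2 := off1_sound w2 w4 o2 s t
    have hbl' : ¬ (b.bx + b.bY) % 2 = 0 := hbl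
    have q1 := ev_par s t b.bx
    have q2 := ev_par s t b.bY
    have b1 : Black (ev s t b.bx, ev s t b.bY) := by unfold Black; simp only; omega
    have b2 : Black (ev s t b.ax, ev s t b.ay) := by unfold Black at *; simp only at *; omega
    have hb : ∀ z, Black z → b.R.mem s t z → ReflTransGen (Dg S) z r := fun z hz mz =>
      (blk_conn gb1 gb2 gb3 hz b1 mz m1).trans (ReflTransGen.head
        ⟨gb3 _ b1 m1, gd3 _ b2 m2, p1.symm, p2.symm⟩ (hacc d hd _ b2 m2))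
    have := ih (b :: acc) (fun c hc => hg c (by
      rcases hc with hc | hc
      · rcases List.mem_cons.1 hc with rfl | hc
        · exact Or.inr List.mem_cons_self
        · exact Or.inl hc
      · exact Or.inr (List.mem_cons_of_mem _ hc))) h2 r (by simp) (fun c hc => by
      rcases List.mem_cons.1 hc with rfl | hc
      · exact hb
      · exact hacc c hc)
    intro c hc
    rcases List.mem_cons.1 hc with rfl | hc
    · exact hb
    · exact this c hc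

theorem poly_of_conn {S : Finset (ℤ × ℤ)} (hS : ∀ z ∈ S, Black z) {r : ℤ × ℤ} (hr : r ∈ S)
    (h : ∀ z ∈ S, ReflTransGen (Dg S) z r) : IsPolyomino (S.image toCell) := by
  refine ⟨⟨_, Finset.mem_image_of_mem _ hr⟩, ?_⟩
  intro c hc d hd
  obtain ⟨z, hz, rfl⟩ := Finset.mem_image.1 hc
  obtain ⟨w, hw, rfl⟩ := Finset.mem_image.1 hd
  refine ReflTransGen.lift (r := Dg S) toCell ?_ _ _ ((h z hz).trans (rtg_symm (h w hw)))
  rintro u v ⟨h1, h2, h3, h4⟩
  refine ⟨Finset.mem_image_of_mem _ h1, Finset.mem_image_of_mem _ h2, ?_⟩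
  have a := hS u h1
  have b := hS v h2
  unfold Black at a b
  simp only [Adj, toCell, abs_eq_max_neg]
  omega

end Pool.Agent.P.MP_626a52_co
end
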