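import Pool.Agent.K.MP_626a52_co.C0

-- part Pool.Agent.P.MP_626a52_co.Sound4
section

namespace Pool.Agent.P.MP_626a52_co
open Relation

structure BkP (A B s t : ℕ) (b : Blk) : Prop where
  valid : b.R.valid = true
  size : sizeOK b.R = true
  pc : ∀ p ∈ b.ps, PcP A B s t b p
  cov : ∀ z, Black z → b.R.mem s t z → ∃ p ∈ b.ps, p.pl.mem s t z
  con : ∀ p ∈ b.ps, ∀ q ∈ b.ps, Con A B s t p q
  cons : b.c = true → ∀ p ∈ b.ps, ∀ k, fld p.M k 8 = 7 →
    fld b.M k 8 = 7 ∧ fld p.W k 8 = fld b.W k 8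

theorem pairwise_all {α : Type} {r : α → α → Prop} {l : List α} (hs : ∀ a b, r a b → r b a)
    (hr : ∀ a ∈ l, r a a) (h : l.Pairwise r) : ∀ a ∈ l, ∀ b ∈ l, r a b := by
  induction l with
  | nil => simp
  | cons c l ih =>
    rw [List.pairwise_cons] at h
    intro a ha b hb
    rcases List.mem_cons.1 ha with rfl | ha' <;> rcases List.mem_cons.1 hb with rfl | hb'
    · exact hr _ ha
    · exact h.1 _ hb'
    · exact hs _ _ (h.1 _ ha')
    · exact ih (fun a ha => hr a (List.mem_cons_of_mem _ ha)) h.2 a ha' b hb'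

theorem blkOK_sound {A B s t : ℕ} (hA : Tiny A) (hB : Tiny B) (hB0 : 0 ≤ ev s t B)
    (hBA : ev s t B ≤ ev s t A) (hA0 : 0 < ev s t A) {b : Blk} (h : blkOK A B b = true) :
    BkP A B s t b := by
  simp only [blkOK, an_iff, allL_iff, foldL_map, List.append_nil, sel_eq] at h
  obtain ⟨h1, h2, h3, h4, h5⟩ := h
  obtain ⟨v1, v2⟩ := eqB_valid h3
  have vb := v2 b.R (by simp)
  have pc : ∀ p ∈ b.ps, PcP A B s t b p := fun p hp =>
    pcOK_sound hA hB hB0 hBA hA0 (valid_sound vb).1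
      (valid_sound (v1 _ (List.mem_append_left _ (List.mem_map_of_mem hp)))).1 (h1 p hp)
  have cons : b.c = true → ∀ p ∈ b.ps, ∀ k, fld p.M k 8 = 7 →
      fld b.M k 8 = 7 ∧ fld p.W k 8 = fld b.W k 8 := by
    intro hc p hp k hk
    rw [if_pos hc, allL_iff] at h5
    have := h5 p hp
    simp only [consB, an_iff, beq_iff] at this
    exact ⟨land_seven this.1 hk, agr_sound this.2 k hk hk⟩
  refine ⟨vb, h4, pc, fun z hz mz => ?_, ?_, cons⟩
  · have e := eqB_sound h3 s t z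
    have e1 : 0 < cnt s t z [b.R] := cnt_pos.2 ⟨_, by simp, mz⟩
    rw [← e] at e1
    obtain ⟨R, hR, mR⟩ := cnt_pos.1 e1
    rcases List.mem_append.1 hR with hR' | hR'
    · obtain ⟨p, hp, rfl⟩ := List.mem_map.1 hR'
      exact ⟨p, hp, mR⟩
    · obtain ⟨w, hw, rfl⟩ := List.mem_map.1 hR'
      exact absurd mR (unit_white (v1 _ hR) (h2 w hw) hz)
  · by_cases hc : b.c = true
    · intro p hp q hq
      refine con_of_agr (pc p hp).pg (pc q hq).pg fun k k1 k2 => ?_
      rw [(cons hc p hp k k1).2, (cons hc q hq k k2).2]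
    · rw [if_neg hc, pwB_iff] at h5
      refine pairwise_all (fun _ _ h => h.symm)
        (fun p hp => con_of_agr (pc p hp).pg (pc p hp).pg fun _ _ _ => rfl) ?_
      refine (List.Pairwise.and_mem.1 h5).imp ?_
      rintro p q ⟨hp, hq, h⟩
      exact (pairOK_sound hA hB hA0 (pc p hp).pg (pc q hq).pg h).1

def DisB (s t : ℕ) (R Q : Rc) : Prop := ∀ z, Black z → R.mem s t z → Q.mem s t z → False

theorem blkPair_sound {A B s t : ℕ} (hA : Tiny A) (hB : Tiny B) (hA0 : 0 < ev s t A) {b d : Blk}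
    (hb : BkP A B s t b) (hd : BkP A B s t d) (h : blkPair A B b d = true) :
    (∀ p ∈ b.ps, ∀ q ∈ d.ps, Con A B s t p q) ∧ DisB s t b.R d.R := by
  simp only [blkPair, an_iff, orr_iff, allL_iff] at h
  have wb := (valid_sound hb.valid).1
  have wd := (valid_sound hd.valid).1
  rcases h with ⟨c1, c2, h1, h2⟩ | h | h
  · refine ⟨fun p hp q hq => con_of_agr (hb.pc p hp).pg (hd.pc q hq).pg fun k k1 k2 => ?_,
      fun z _ m m' => wsep_sound wb wd h2 m m'⟩
    rw [(hb.cons c1 p hp k k1).2, (hd.cons c2 q hq k k2).2]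
    exact agr_sound h1 k (hb.cons c1 p hp k k1).1 (hd.cons c2 q hq k k2).1
  · exact ⟨fun p hp q hq z z' m m' _ _ _ _ x y e e' _ _ =>
      (sep_sound wb wd h ((hb.pc p hp).sub z m) ((hd.pc q hq).sub z' m') e e').elim,
      fun z _ m m' => sep_sound wb wd h m m' (dia_self z) (dia_self z)⟩
  · refine ⟨fun p hp q hq => (pairOK_sound hA hB hA0 (hb.pc p hp).pg (hd.pc q hq).pg
      (h p hp q hq)).1, fun z hz m m' => ?_⟩
    obtain ⟨p, hp, mp⟩ := hb.cov z hz m
    obtain ⟨q, hq, mq⟩ := hd.cov z hz m'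
    exact (pairOK_sound hA hB hA0 (hb.pc p hp).pg (hd.pc q hq).pg (h p hp q hq)).2 z mp mq

theorem ev_nonneg (s t f : ℕ) : 0 ≤ ev s t f := by unfold ev; positivity

theorem Tiny.even {A : ℕ} (h : Tiny A) (s t : ℕ) : ev s t A % 2 = 0 := by
  obtain ⟨a, b, c, h1, h2, h3, h4, rfl⟩ := h
  rw [ev_par]; omega

theorem netCheck_sound {A B : ℕ} {bl : List Blk} {fw : List (ℕ × ℕ × ℕ)}
    (h : netCheck A B bl fw = true) (s t : ℕ) {S : Finset (ℤ × ℤ)}
    (hS : ∀ z, z ∈ S ↔ Black z ∧ ∃ b ∈ bl, b.R.mem s t z) :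
    IsPolyomino (S.image toCell) ∧ IsCubeNet (region (S.image toCell)) ∧
      (bl.Pairwise fun b d => DisB s t b.R d.R) ∧ ∀ b ∈ bl, b.R.valid = true := by
  simp only [netCheck, an_iff, allL_iff, pwB_iff, nt_iff, isNil_iff] at h
  obtain ⟨tA, tB, hle, hpos, hbl, hpw, hfw, hbox, hface, hne, hconn⟩ := h
  have hA := tiny_sound tA
  have hB := tiny_sound tB
  obtain ⟨wA, wB, wB1, wM, wM1, w0, w1⟩ := tiny_facts hA hB
  have hB0 := ev_nonneg s t B
  have hBA : ev s t B ≤ ev s t A := by have := (le0_sound wB wA hle).ev s t; omega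
  have hA0 : 0 < ev s t A := by
    have := (le1_sound w0 wA hpos).ev s t
    have := ev_nonneg s t 0
    omega
  have bk : ∀ b ∈ bl, BkP A B s t b := fun b hb => blkOK_sound hA hB hB0 hBA hA0 (hbl b hb)
  have pw : bl.Pairwise fun b d =>
      (∀ p ∈ b.ps, ∀ q ∈ d.ps, Con A B s t p q) ∧ DisB s t b.R d.R := by
    refine (List.Pairwise.and_mem.1 hpw).imp ?_
    rintro b d ⟨hb, hd, h⟩
    exact blkPair_sound hA hB hA0 (bk b hb) (bk d hd) h
  have con : ∀ b ∈ bl, ∀ d ∈ bl, ∀ p ∈ b.ps, ∀ q ∈ d.ps, Con A B s t p q :=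
    pairwise_all (r := fun b d : Blk => ∀ p ∈ b.ps, ∀ q ∈ d.ps, Con A B s t p q)
      (fun b d h q hq p hp => (h p hp q hq).symm) (fun b hb => (bk b hb).con) (pw.imp And.left)
  have eM : ev s t (A + B + 1) = ev s t A + ev s t B + 1 := by
    rw [ev_succ s t wM, ev_add s t wA wB]
  have hfc : ∀ F < 6, ∀ y, Black y → ((allInc A B bl).filter fun e => Nat.beq e.1.F F).countP
      (fun e => decide ((rotR (A + B + 1) e.1.r e.2).mem s t y)) = cnt s t y (qRects A B) := by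
    intro F hF y hy
    have h := hface F (by simp; omega)
    have hv := (eqB_valid h).1
    rw [← eqB_sound h s t y]
    simp only [faceL, foldL_filter, List.append_nil, Nat.succ_eq_add_one, Nat.add_eq] at hv ⊢
    rw [cnt_append, cnt_zero (l := List.map _ (List.filter _ fw)), cnt, List.countP_map]
    · rfl
    · intro R hR
      obtain ⟨w, hw, rfl⟩ := List.mem_map.1 hR
      exact unit_white (hv _ (List.mem_append_right _ hR)) (hfw w (List.mem_filter.1 hw).1) hy
  have hcan : ∀ b ∈ bl, ∀ p ∈ b.ps, ∀ e, Inc A B p e → ∀ z, p.pl.mem s t z ↔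
      (rotR (A + B + 1) e.1.r e.2).mem s t (can (ev s t A) (ev s t B) e.1 z) := by
    intro b hb p hp e he z
    rw [(((bk b hb).pc p hp).inc e he).2 z, can]
    exact (rotR_mem wM1 eM (hbox e (mem_allInc.2 ⟨b, hb, p, hp, he⟩)) _ _).symm
  refine ⟨?_, ?_, pw.imp And.right, fun b hb => (bk b hb).valid⟩
  · obtain ⟨b, l, rfl⟩ := List.exists_cons_of_ne_nil hne
    have e : connB (b :: l) [] = an (conn1 [] b) (connB l [b]) := rfl
    rw [e, an_iff] at hconn
    obtain ⟨h1, h2⟩ := hconn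
    simp only [conn1, an_iff, nt_iff, whiteB, beq_iff, Nat.add_eq] at h1
    obtain ⟨hw, hin, hbl', -⟩ := h1
    obtain ⟨-, -, w3, w4⟩ := wf4 hw
    have hg : ∀ c ∈ b :: l, c.R.WF ∧ sizeOK c.R = true ∧ ∀ z, Black z → c.R.mem s t z → z ∈ S :=
      fun c hc => ⟨(valid_sound (bk c hc).valid).1, (bk c hc).size,
        fun z hz mz => (hS z).2 ⟨hz, c, hc, mz⟩⟩
    obtain ⟨g1, g2, g3⟩ := hg b List.mem_cons_self
    have m1 := inR_sound w3 w4 g1 hin s t
    have hbl'' : ¬ (b.bx + b.bY) % 2 = 0 := hbl'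
    have q1 := ev_par s t b.bx
    have q2 := ev_par s t b.bY
    have b1 : Black (ev s t b.bx, ev s t b.bY) := by unfold Black; simp only; omega
    have hb : ∀ z, Black z → b.R.mem s t z → ReflTransGen (Dg S) z (ev s t b.bx, ev s t b.bY) :=
      fun z hz mz => blk_conn g1 g2 g3 hz b1 mz m1
    have := connB_sound (S := S) (s := s) (t := t) l [b] (fun c hc => hg c (by simpa using hc)) h2
      _ (by simp) (fun c hc => by rw [List.mem_singleton.1 hc]; exact hb)
    refine poly_of_conn (fun z hz => ((hS z).1 hz).1) (g3 _ b1 m1) fun z hz => ?_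
    obtain ⟨hz, c, hc, mz⟩ := (hS z).1 hz
    rcases List.mem_cons.1 hc with rfl | hc
    · exact hb z hz mz
    · exact this c hc z hz mz
  · refine net_of hB0 hBA hA0 (hA.even s t) (hB.even s t) S
      {w | Black w.1 ∧ ∃ b ∈ bl, ∃ p ∈ b.ps, p.pl.mem s t w.1 ∧ ∃ R, Inc A B p (w.2, R)} ?_
      (fun z hz => ((hS z).1 hz).1) ?_ ?_ ?_ ?_ ?_
    · refine (S.finite_toSet.prod (List.finite_toSet ((allInc A B bl).map Prod.fst))).subset ?_
      rintro w ⟨hz, b, hb, p, hp, m, R, hR⟩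
      exact ⟨(hS _).2 ⟨hz, b, hb, ((bk b hb).pc p hp).sub _ m⟩,
        List.mem_map.2 ⟨_, mem_allInc.2 ⟨b, hb, p, hp, hR⟩, rfl⟩⟩
    · rintro w ⟨hz, b, hb, p, hp, m, R, hR⟩
      refine ⟨(hS _).2 ⟨hz, b, hb, ((bk b hb).pc p hp).sub _ m⟩, ?_⟩
      have := (((bk b hb).pc p hp).pg.2 _ (((bk b hb).pc p hp).inc _ hR).1).2.2.1
      simp only at this
      omega
    · intro z hz x y d
      obtain ⟨hz, b, hb, m⟩ := (hS z).1 hz
      obtain ⟨p, hp, m⟩ := (bk b hb).cov z hz m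
      obtain ⟨e, he, hd⟩ := ((bk b hb).pc p hp).cov z m x y d
      exact ⟨e.1, ⟨hz, b, hb, p, hp, m, e.2, he⟩, hd⟩
    · rintro w ⟨-, b, hb, p, hp, m, R, hR⟩ w' ⟨-, d, hd, q, hq, m', R', hR'⟩ x y e e' i i'
      exact con b hb d hd p hp q hq _ _ m m' _ _ (((bk b hb).pc p hp).inc _ hR).1
        (((bk d hd).pc q hq).inc _ hR').1 x y e e' i i'
    · rintro w ⟨hz, b, hb, p, hp, m, R, hR⟩ w' ⟨-, d, hd, q, hq, m', R', hR'⟩ eF ec
      have hF : w.2.F < 6 := by
        have := (((bk b hb).pc p hp).pg.2 _ (((bk b hb).pc p hp).inc _ hR).1).2.2.1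
        simp only at this
        omega
      have hy := black_can (hA.even s t) (hB.even s t) w.2 hz
      have c1 := (hcan b hb p hp _ hR _).1 m
      have c2 := (hcan d hd q hq _ hR' _).1 m'
      have hc := hfc _ hF _ hy
      have := countP_le_one_eq (hc ▸ (cnt_q hA hB hB0 hBA _).1) (a := (w.2, R)) (b := (w'.2, R'))
        (List.mem_filter.2 ⟨mem_allInc.2 ⟨b, hb, p, hp, hR⟩, (beq_iff _ _).2 rfl⟩)
        (List.mem_filter.2 ⟨mem_allInc.2 ⟨d, hd, q, hq, hR'⟩, (beq_iff _ _).2 eF.symm⟩)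
        (decide_eq_true c1) (decide_eq_true (by rw [ec]; exact c2))
      have e2 : w.2 = w'.2 := (Prod.mk.inj this).1
      rw [can, can, ← e2] at ec
      have := rotZ_inj ec
      refine Prod.ext (Prod.ext ?_ ?_) e2 <;> omega
    · intro F hF y hy hq
      have hc := hfc F hF y hy
      have := (cnt_q hA hB hB0 hBA y).2 hq
      rw [← hc, List.countP_pos_iff] at this
      obtain ⟨e, he, me⟩ := this
      obtain ⟨he, eF⟩ := List.mem_filter.1 he
      obtain ⟨b, hb, p, hp, hi⟩ := mem_allInc.1 he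
      obtain ⟨X, Y, hr, hpar⟩ := rotZ_surj (ev s t A + ev s t B) e.1.r y
      have ec : can (ev s t A) (ev s t B) e.1 (X + cbx (ev s t A) (ev s t B) e.1,
          Y + cby (ev s t A) (ev s t B) e.1) = y := by simp [can, hr]
      refine ⟨((X + cbx (ev s t A) (ev s t B) e.1, Y + cby (ev s t A) (ev s t B) e.1), e.1),
        ⟨?_, b, hb, p, hp, ?_, e.2, hi⟩, (beq_iff _ _).1 eF, ec⟩
      · have ea := hA.even s t
        have eb := hB.even s t
        have := hpar (by omega)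
        obtain ⟨a, ha⟩ : ∃ a, ev s t A = 2 * a := ⟨ev s t A / 2, by omega⟩
        obtain ⟨b, hb⟩ : ∃ b, ev s t B = 2 * b := ⟨ev s t B / 2, by omega⟩
        have h1 : cbx (ev s t A) (ev s t B) e.1 = 2 * (e.1.i * a + e.1.j * b) := by
          rw [ha, hb]; unfold cbx; ring
        have h2 : cby (ev s t A) (ev s t B) e.1 = 2 * (e.1.j * a + (12 - e.1.i) * b) := by
          rw [ha, hb]; unfold cby; ring
        unfold Black at *
        simp only [h1, h2]
        omega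
      · rw [hcan b hb p hp e hi, ec]
        exact of_decide_eq_true me

end Pool.Agent.P.MP_626a52_co
end

-- part Pool.Agent.P.MP_626a52_co.Decode
section

namespace Pool.Agent.P.MP_626a52_co
noncomputable section

def chM (i j : ℕ) : ℕ := Nat.shiftLeft 17732923532771391 (vpos i j)
def chW (i j F r : ℕ) : ℕ :=
  Nat.shiftLeft (Nat.add (Nat.mod (v12 F r) 64) (Nat.shiftLeft (Nat.shiftRight (v12 F r) 6) 48))
    (vpos i j)

def pcK {α : Type} (A B x0 x1 y0 y1 ty i j F r F2 r2 : ℕ) (k : Pc → α) : α :=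
  force (bxF A B i j) fun u => force (byF A B 12 i j) fun v =>
  force (Nat.add x0 u) fun X0 => force (Nat.add x1 u) fun X1 =>
  force (Nat.add y0 v) fun Y0 => force (Nat.add y1 v) fun Y1 =>
  force (Nat.add i (Nat.mod ty 2)) fun i2 => force (Nat.add j (Nat.div ty 2)) fun j2 =>
  force (Nat.lor (chM i j) (chM i2 j2)) fun M =>
  force (Nat.lor (chW i j F r) (chW i2 j2 F2 r2)) fun W =>
  k ⟨⟨x0, x1, y0, y1⟩, ⟨X0, X1, Y0, Y1⟩, ty, ⟨i, j, F, r⟩, ⟨i2, j2, F2, r2⟩, W, M⟩

def pcD {α : Type} (A B n : ℕ) (k : Pc → α) : α :=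
  force (fld n 0 268435456) fun x0 => force (fld n 28 268435456) fun x1 =>
  force (fld n 56 268435456) fun y0 => force (fld n 84 268435456) fun y1 =>
  force (fld n 112 4) fun ty => force (fld n 114 16) fun i => force (fld n 118 16) fun j =>
  force (fld n 122 8) fun F => force (fld n 125 4) fun r => force (fld n 127 8) fun F2 =>
  force (fld n 130 4) fun r2 => pcK A B x0 x1 y0 y1 ty i j F r F2 r2 k

def mapK {α β γ : Type} (f : α → (β → γ) → γ) (l : List α) : (List β → γ) → γ :=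
  List.rec (fun k => k []) (fun a _ ih k => f a fun b => ih fun m => k (b :: m)) l

structure RB where
  h : ℕ
  ws : List ℕ
  ps : List ℕ

def wD (n : ℕ) : ℕ × ℕ := (fld n 0 268435456, fld n 28 268435456)

def blkD {α : Type} (A B : ℕ) (b : RB) (k : Blk → α) : α :=
  mapK (pcD A B) b.ps fun ps =>
  force (fld b.h 0 268435456) fun x0 => force (fld b.h 28 268435456) fun x1 =>
  force (fld b.h 56 268435456) fun y0 => force (fld b.h 84 268435456) fun y1 =>
  force (fld b.h 112 268435456) fun ax => force (fld b.h 140 268435456) fun ay =>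
  force (fld b.h 168 268435456) fun bx => force (fld b.h 196 268435456) fun bY =>
  force (foldL (fun p m => Nat.lor p.W m) 0 ps) fun W =>
  force (foldL (fun p m => Nat.lor p.M m) 0 ps) fun M =>
  k ⟨⟨x0, x1, y0, y1⟩, Nat.beq (fld b.h 224 2) 1, W, M, ax, ay, bx, bY, foldL (fun n l => wD n :: l) [] b.ws, ps⟩

def fwD (l : List ℕ) : List (ℕ × ℕ × ℕ) := foldL (fun n l => (fld n 56 8, wD n) :: l) [] l

def cellK {α : Type} (m : ℕ) (k : Blk → α) : α :=
  force (fld m 0 2) fun e => force (fld m 1 16) fun i => force (fld m 5 16) fun j =>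
  force (fld m 9 8) fun F => force (fld m 12 4) fun r => force (fld m 14 8) fun F2 =>
  force (fld m 17 4) fun r2 =>
  pcK 2 0 (Nat.sub 2 e) (Nat.sub 3 e) (Nat.add 1 e) (Nat.add 2 e) (Nat.add 1 e) i j F r F2 r2
    fun p =>
    force (Nat.sub p.pl.x1 (Nat.mul 2 (fld m 19 2))) fun ax =>
    force (Nat.sub p.pl.y1 (Nat.mul 2 (fld m 20 2))) fun ay =>
    k ⟨p.pl, true, p.W, p.M, ax, ay, p.pl.x0, p.pl.y0, [], [p]⟩

def tileK {α : Type} (n : ℕ) (k : List Blk → α) : α :=
  mapK (fun a => cellK (fld n a 2097152)) [0, 21, 42, 63, 84, 105, 126, 147, 168, 189, 210, 231] k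

def smallW : List (ℕ × ℕ × ℕ) := [(0, 1, 1), (1, 1, 1), (2, 1, 1), (3, 1, 1), (4, 1, 1), (5, 1, 1)]

end
end Pool.Agent.P.MP_626a52_co
end

-- part Pool.Agent.P.MP_626a52_co.Tile
section

namespace Pool.Agent.P.MP_626a52_co
open Relation

def GoodT (T : Finset (ℤ × ℤ)) : Prop :=
  (∀ z ∈ T, Black z) ∧ T.card = 12 ∧ IsPolyomino (T.image toCell) ∧
    IsCubeNet (region (T.image toCell))

def shiftT (u v : ℤ) (T : Finset (ℤ × ℤ)) : Finset (ℤ × ℤ) := T.image fun z => (z.1 + u, z.2 + v)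

theorem mem_shiftT {u v : ℤ} {T : Finset (ℤ × ℤ)} {z : ℤ × ℤ} :
    z ∈ shiftT u v T ↔ (z.1 - u, z.2 - v) ∈ T := by
  simp only [shiftT, Finset.mem_image]
  constructor
  · rintro ⟨w, hw, rfl⟩; simpa using hw
  · intro h; exact ⟨_, h, by simp⟩

theorem IsPolyomino.shift {P : Finset (ℤ × ℤ)} (h : IsPolyomino P) (u v : ℤ) :
    IsPolyomino (shiftT u v P) := by
  refine ⟨h.1.image _, fun c hc d hd => ?_⟩
  obtain ⟨z, hz, rfl⟩ := Finset.mem_image.1 hc
  obtain ⟨w, hw, rfl⟩ := Finset.mem_image.1 hd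
  refine ReflTransGen.lift (r := fun x y => x ∈ P ∧ y ∈ P ∧ Adj x y)
    (fun z : ℤ × ℤ => (z.1 + u, z.2 + v)) ?_ _ _ (h.2 z hz w hw)
  rintro a b ⟨h1, h2, h3⟩
  refine ⟨Finset.mem_image_of_mem _ h1, Finset.mem_image_of_mem _ h2, ?_⟩
  simpa [Adj] using h3

theorem region_shift (P : Finset (ℤ × ℤ)) (u v : ℤ) :
    region (shiftT u v P) = (fun p => p + (!₂[(u : ℝ), (v : ℝ)] : E2)) '' region P := by
  ext p
  simp only [region, Set.mem_iUnion, Set.mem_image, mem_shiftT, square, Set.mem_ofPred_eq]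
  constructor
  · rintro ⟨c, hc, h1, h2, h3, h4⟩
    refine ⟨p - !₂[(u : ℝ), (v : ℝ)], ⟨_, hc, ?_⟩, by simp⟩
    simp
    refine ⟨?_, ?_, ?_, ?_⟩ <;> linarith
  · rintro ⟨q, ⟨c, hc, h1, h2, h3, h4⟩, rfl⟩
    refine ⟨(c.1 + u, c.2 + v), by simpa using hc, ?_⟩
    simp
    refine ⟨?_, ?_, ?_, ?_⟩ <;> linarith

theorem GoodT.shift {T : Finset (ℤ × ℤ)} (h : GoodT T) {u v : ℤ} (huv : (u + v) % 2 = 0) :
    GoodT (shiftT u v T) := by
  obtain ⟨h1, h2, h3, h4⟩ := h
  have e : (shiftT u v T).image toCell = shiftT ((u + v) / 2) ((v - u) / 2) (T.image toCell) := by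
    simp only [shiftT, Finset.image_image]
    refine Finset.image_congr fun z hz => ?_
    have := h1 z hz
    unfold Black at this
    simp only [Function.comp, toCell, Prod.mk.injEq]
    omega
  refine ⟨fun z hz => ?_, ?_, e ▸ h3.shift _ _, ?_⟩
  · have := h1 _ (mem_shiftT.1 hz)
    unfold Black at *; simp only at this; omega
  · rw [shiftT, Finset.card_image_of_injective _ ?_, h2]
    intro a b hab
    simp only [Prod.mk.injEq] at hab
    ext <;> omega
  · rw [e, region_shift]; exact h4.shift _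

def cntT (z : ℤ × ℤ) (TL : List (Finset (ℤ × ℤ))) : ℕ := TL.countP fun T => decide (z ∈ T)

theorem cntT_append (z : ℤ × ℤ) (l m : List (Finset (ℤ × ℤ))) :
    cntT z (l ++ m) = cntT z l + cntT z m := by simp [cntT]

theorem cntT_shift (u v : ℤ) (z : ℤ × ℤ) (l : List (Finset (ℤ × ℤ))) :
    cntT z (l.map (shiftT u v)) = cntT (z.1 - u, z.2 - v) l := by
  simp only [cntT, List.countP_map]
  congr 1; ext T; simp [mem_shiftT]

noncomputable section

def unitB (dx : ℕ) (b : Blk) : Bool :=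
  an (Nat.beq b.R.x1 (Nat.succ b.R.x0)) (an (Nat.beq b.R.y1 (Nat.succ b.R.y0))
    (an (Nat.ble (Nat.add b.R.x0 dx) 127) (an (Nat.ble b.R.y0 4000) (nt (whiteB b.R.x0 b.R.y0)))))

def bitAt (x y : ℕ) : ℕ := Nat.shiftLeft 1 (Nat.add x (Nat.mul 128 y))

def lenL {α : Type} (l : List α) : ℕ := foldL (fun _ n => Nat.succ n) 0 l

def tileV (dx dy : ℕ) (bl : List Blk) : ℕ :=
  sel (an (netCheck 2 0 bl smallW) (an (allL bl (unitB dx)) (an (Nat.beq (lenL bl) 12)
    (whiteB dx dy))))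
    (foldL (fun b m => Nat.lor (bitAt (Nat.add b.R.x0 dx) (Nat.add b.R.y0 dy)) m) 0 bl) 0

def tileM (n : ℕ) : ℕ := tileK n (tileV (fld n 252 128) (fld n 259 128))

def rowM (x0 y n : ℕ) : ℕ :=
  Nat.rec 0 (fun i m => sel (whiteB (Nat.add x0 i) y) m (Nat.lor (bitAt (Nat.add x0 i) y) m)) n

def rectM (x0 y0 w h : ℕ) : ℕ := Nat.rec 0 (fun j m => Nat.lor (rowM x0 (Nat.add y0 j) w) m) h

def locOK (ox oy : ℕ) (R : Rc) : Bool :=
  an (Nat.ble ox (Nat.add R.x0 4)) (an (Nat.ble oy (Nat.add R.y0 4))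
    (an (Nat.ble (Nat.add R.x1 4) (Nat.add ox 128)) (an (Nat.ble R.x0 4000) (an (Nat.ble R.y0 4000)
      (an (Nat.ble R.x1 4000) (an (Nat.ble R.y1 4000) (Nat.ble R.x0 R.x1)))))))

def regM (ox oy : ℕ) (l : List Rc) : ℕ :=
  foldL (fun R m => Nat.lor (rectM (Nat.sub (Nat.add R.x0 4) ox) (Nat.sub (Nat.add R.y0 4) oy)
    (Nat.sub R.x1 R.x0) (Nat.sub R.y1 R.y0)) m) 0 l

def clrM (l : List ℕ) : ℕ → Bool :=
  List.rec (fun m => Nat.beq m 0) (fun n _ ih m => force (tileM n) fun u =>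
    an (nt (Nat.beq u 0)) (an (Nat.beq (Nat.land u m) u) (force (Nat.xor m u) ih))) l

def expl (ox oy : ℕ) (l : List Rc) (tiles : List ℕ) : Bool :=
  an (whiteB ox oy) (an (allL l (locOK ox oy)) (force (regM ox oy l) (clrM tiles)))

end

def InM (m : ℕ) (z : ℤ × ℤ) : Prop :=
  ∃ x y : ℕ, x < 128 ∧ z = ((x : ℤ), (y : ℤ)) ∧ m.testBit (x + 128 * y) = true

theorem inM_zero (z : ℤ × ℤ) : ¬ InM 0 z := by simp [InM]

theorem inM_lor {a b : ℕ} {z : ℤ × ℤ} : InM (Nat.lor a b) z ↔ InM a z ∨ InM b z := by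
  have : ∀ i, (Nat.lor a b).testBit i = (a.testBit i || b.testBit i) := Nat.testBit_or a b
  simp only [InM, this, Bool.or_eq_true]
  constructor
  · rintro ⟨x, y, h1, h2, h3 | h3⟩
    · exact Or.inl ⟨x, y, h1, h2, h3⟩
    · exact Or.inr ⟨x, y, h1, h2, h3⟩
  · rintro (⟨x, y, h1, h2, h3⟩ | ⟨x, y, h1, h2, h3⟩)
    · exact ⟨x, y, h1, h2, Or.inl h3⟩
    · exact ⟨x, y, h1, h2, Or.inr h3⟩

theorem inM_bit {x y : ℕ} (hx : x < 128) {z : ℤ × ℤ} :
    InM (bitAt x y) z ↔ z = ((x : ℤ), (y : ℤ)) := by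
  simp only [InM, bitAt, shl_eq, one_mul, Nat.testBit_two_pow, decide_eq_true_eq, Nat.add_eq,
    Nat.mul_eq]
  constructor
  · rintro ⟨x', y', h1, h2, h3⟩
    rw [h2]; ext <;> simp only <;> omega
  · intro h; exact ⟨x, y, hx, h, rfl⟩

theorem inM_xor {u m : ℕ} (h : Nat.land u m = u) (z : ℤ × ℤ) :
    (InM m z ↔ InM (Nat.xor m u) z ∨ InM u z) ∧ ¬ (InM (Nat.xor m u) z ∧ InM u z) := by
  have e : ∀ i, (Nat.xor m u).testBit i = (m.testBit i ^^ u.testBit i) := Nat.testBit_xor m u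
  have e' : ∀ i, u.testBit i = true → m.testBit i = true := by
    intro i hi
    have h' : u &&& m = u := h
    have := congrArg (fun n => n.testBit i) h'
    simpa [Nat.testBit_and, hi] using this
  simp only [InM, e]
  refine ⟨⟨?_, ?_⟩, ?_⟩
  · rintro ⟨x, y, h1, h2, h3⟩
    by_cases c : u.testBit (x + 128 * y) = true
    · exact Or.inr ⟨x, y, h1, h2, c⟩
    · exact Or.inl ⟨x, y, h1, h2, by simp [h3, c]⟩
  · rintro (⟨x, y, h1, h2, h3⟩ | ⟨x, y, h1, h2, h3⟩)
    · refine ⟨x, y, h1, h2, ?_⟩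
      by_cases c : u.testBit (x + 128 * y) = true
      · exact e' _ c
      · simpa [c] using h3
    · exact ⟨x, y, h1, h2, e' _ h3⟩
  · rintro ⟨⟨x, y, h1, h2, h3⟩, x', y', h1', h2', h3'⟩
    rw [h2] at h2'
    simp only [Prod.mk.injEq, Nat.cast_inj] at h2'
    rw [← h2'.1, ← h2'.2] at h3'
    simp [h3', e' _ h3'] at h3

theorem lenL_eq {α : Type} (l : List α) : lenL l = l.length := by
  rw [lenL, foldL_eq]
  induction l with
  | nil => rfl
  | cons a l ih => simp [ih]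

theorem whiteB_iff (x y : ℕ) : whiteB x y = true ↔ (x + y) % 2 = 0 := by
  rw [whiteB, beq_iff]; rfl

theorem tileV_sound {dx dy : ℕ} {bl : List Blk} (h : tileV dx dy bl ≠ 0) :
    ∃ T, GoodT T ∧ ∀ z, z ∈ T ↔ InM (tileV dx dy bl) z := by
  simp only [tileV, sel_eq] at h ⊢
  split_ifs at h ⊢ with hc
  swap
  · exact absurd rfl h
  simp only [an_iff, allL_iff, beq_iff, lenL_eq, whiteB_iff, unitB, ble_iff, nt_iff, Nat.add_eq,
    Nat.succ_eq_add_one] at hc
  obtain ⟨hn, hu, hl, hw⟩ := hc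
  have hm : ∀ b ∈ bl, ∀ z, b.R.mem 0 0 z ↔ z = ((b.R.x0 : ℤ), (b.R.y0 : ℤ)) := by
    intro b hb z
    obtain ⟨e1, e2, e3, e4, -⟩ := hu b hb
    simp only [Rc.mem, e1, e2, ev_small 0 0 (show b.R.x0 < 16384 by omega),
      ev_small 0 0 (show b.R.x0 + 1 < 16384 by omega),
      ev_small 0 0 (show b.R.y0 < 16384 by omega), ev_small 0 0 (show b.R.y0 + 1 < 16384 by omega),
      Prod.ext_iff]
    omega
  have hb : ∀ b ∈ bl, Black ((b.R.x0 : ℤ), (b.R.y0 : ℤ)) := by
    intro b hb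
    have := (hu b hb).2.2.2.2
    unfold Black; simp only; omega
  let S := (bl.map fun b => ((b.R.x0 : ℤ), (b.R.y0 : ℤ))).toFinset
  have hS : ∀ z, z ∈ S ↔ ∃ b ∈ bl, z = ((b.R.x0 : ℤ), (b.R.y0 : ℤ)) := by
    intro z; simp only [S, List.mem_toFinset, List.mem_map, eq_comm]
  obtain ⟨g1, g2, g3, -⟩ := netCheck_sound hn 0 0 (S := S) (fun z => by
    rw [hS]
    constructor
    · rintro ⟨b, h1, rfl⟩; exact ⟨hb b h1, b, h1, (hm b h1 _).2 rfl⟩
    · rintro ⟨-, b, h1, h2⟩; exact ⟨b, h1, (hm b h1 _).1 h2⟩)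
  have gS : GoodT S := by
    refine ⟨fun z hz => ?_, ?_, g1, g2⟩
    · obtain ⟨b, h1, rfl⟩ := (hS z).1 hz; exact hb b h1
    · rw [List.toFinset_card_of_nodup, List.length_map, hl]
      rw [List.Nodup, List.pairwise_map]
      refine (List.Pairwise.and_mem.1 g3).imp ?_
      rintro b d ⟨h1, h2, h3⟩ e
      exact h3 _ (hb b h1) ((hm b h1 _).2 rfl) ((hm d h2 _).2 e)
  refine ⟨shiftT dx dy S, gS.shift (by omega), fun z => ?_⟩
  rw [mem_shiftT, hS, foldL_eq]
  have hx : ∀ b ∈ bl, b.R.x0 + dx < 128 := fun b hb => by have := (hu b hb).2.2.1; omega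
  clear * - hx
  induction bl with
  | nil => simp [inM_zero]
  | cons b l ih =>
    have ih' := ih (fun c hc => hx c (List.mem_cons_of_mem _ hc))
    rw [List.foldr_cons, inM_lor]
    simp only [List.mem_cons, exists_eq_or_imp]
    refine or_congr ?_ ih'
    simp only [Nat.add_eq, inM_bit (hx b List.mem_cons_self), Prod.ext_iff]
    push_cast
    omega

theorem mapK_ex {α β γ : Type} {f : α → (β → γ) → γ} (hf : ∀ a, ∃ b, ∀ k, f a k = k b)
    (l : List α) : ∃ m, ∀ k, mapK f l k = k m := by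
  induction l with
  | nil => exact ⟨[], fun _ => rfl⟩
  | cons a l ih =>
    obtain ⟨m, hm⟩ := ih
    obtain ⟨b, hb⟩ := hf a
    refine ⟨b :: m, fun k => ?_⟩
    have : mapK f (a :: l) k = f a fun b => mapK f l fun m => k (b :: m) := rfl
    rw [this, hb, hm]

theorem tileM_sound {n : ℕ} (h : tileM n ≠ 0) : ∃ T, GoodT T ∧ ∀ z, z ∈ T ↔ InM (tileM n) z := by
  obtain ⟨bl, hb⟩ := mapK_ex (γ := ℕ) (f := fun a => cellK (fld n a 2097152))
    (fun a => ⟨_, fun k => by simp only [cellK, pcK, force_eq]; rfl⟩)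
    [0, 21, 42, 63, 84, 105, 126, 147, 168, 189, 210, 231]
  rw [tileM, tileK, hb] at h ⊢
  exact tileV_sound h

theorem inM_row {x0 y : ℕ} (n : ℕ) (h : x0 + n ≤ 128) (z : ℤ × ℤ) :
    InM (rowM x0 y n) z ↔ Black z ∧ (x0 : ℤ) ≤ z.1 ∧ z.1 < x0 + n ∧ z.2 = y := by
  induction n with
  | zero => simp [rowM, inM_zero]; omega
  | succ i ih =>
    have e : rowM x0 y (i + 1) = sel (whiteB (x0 + i) y) (rowM x0 y i)
      (Nat.lor (bitAt (x0 + i) y) (rowM x0 y i)) := rfl
    rw [e, sel_eq]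
    split_ifs with c
    · rw [ih (by omega)]; rw [whiteB_iff] at c; unfold Black; push_cast; omega
    · rw [inM_lor, ih (by omega), inM_bit (by omega), Prod.ext_iff]
      rw [whiteB_iff] at c; unfold Black; push_cast; omega

theorem inM_rect {x0 y0 w : ℕ} (n : ℕ) (h : x0 + w ≤ 128) (z : ℤ × ℤ) :
    InM (rectM x0 y0 w n) z ↔
      Black z ∧ (x0 : ℤ) ≤ z.1 ∧ z.1 < x0 + w ∧ (y0 : ℤ) ≤ z.2 ∧ z.2 < y0 + n := by
  induction n with
  | zero =>
    have e : rectM x0 y0 w 0 = 0 := rfl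
    rw [e]
    refine ⟨fun h => absurd h (inM_zero z), fun h => ?_⟩
    push_cast at h; omega
  | succ i ih =>
    have e : rectM x0 y0 w (i + 1) = Nat.lor (rowM x0 (y0 + i) w) (rectM x0 y0 w i) := rfl
    rw [e, inM_lor, ih, inM_row w h]
    by_cases c : Black z <;> simp only [c, true_and, false_and, or_self]
    push_cast; omega

theorem clrM_sound (l : List ℕ) : ∀ m, clrM l m = true → ∃ TL : List (Finset (ℤ × ℤ)),
    (∀ T ∈ TL, GoodT T) ∧ TL.length = l.length ∧
      ∀ z, (InM m z → cntT z TL = 1) ∧ (¬ InM m z → cntT z TL = 0) := by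
  induction l with
  | nil =>
    intro m h
    have : m = 0 := (beq_iff _ _).1 h
    subst this
    exact ⟨[], by simp, rfl, fun z => ⟨fun h => absurd h (inM_zero z), fun _ => rfl⟩⟩
  | cons n l ih =>
    intro m h
    have e : clrM (n :: l) m = force (tileM n) fun u => an (nt (Nat.beq u 0))
      (an (Nat.beq (Nat.land u m) u) (force (Nat.xor m u) (clrM l))) := rfl
    simp only [e, force_eq, an_iff, nt_iff, beq_iff] at h
    obtain ⟨h1, h2, h3⟩ := h
    obtain ⟨T, g, hT⟩ := tileM_sound h1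
    obtain ⟨TL, g1, g2, g3⟩ := ih _ h3
    refine ⟨T :: TL, by simpa using ⟨g, g1⟩, by simp [g2], fun z => ?_⟩
    obtain ⟨a, b⟩ := inM_xor h2 z
    obtain ⟨c, d⟩ := g3 z
    have e : cntT z (T :: TL) = cntT z TL + if z ∈ T then 1 else 0 := by
      simp [cntT, List.countP_cons]
    rw [e, a, ← hT] at *
    by_cases c1 : z ∈ T <;> by_cases c2 : InM (Nat.xor m (tileM n)) z
    · exact absurd ⟨c2, c1⟩ b
    · simp [c1, d c2]
    · rw [c c2, if_neg c1]; tauto
    · rw [d c2, if_neg c1]; tauto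

theorem expl_sound {ox oy : ℕ} {l : List Rc} {tiles : List ℕ} (h : expl ox oy l tiles = true)
    (s t : ℕ) : ∃ TL : List (Finset (ℤ × ℤ)), (∀ T ∈ TL, GoodT T) ∧ TL.length = tiles.length ∧
      ∀ z, Black z → cnt s t z l ≤ 1 → cntT z TL = cnt s t z l := by
  simp only [expl, an_iff, allL_iff, force_eq, whiteB_iff] at h
  obtain ⟨h1, h2, h3⟩ := h
  obtain ⟨TL, g1, g2, g3⟩ := clrM_sound _ _ h3
  refine ⟨TL.map (shiftT (ox - 4) (oy - 4)), fun T hT => ?_, by simp [g2], fun z hz hc => ?_⟩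
  · obtain ⟨T', h', rfl⟩ := List.mem_map.1 hT
    exact (g1 T' h').shift (by omega)
  have key : InM (regM ox oy l) (z.1 - (ox - 4), z.2 - (oy - 4)) ↔ ∃ R ∈ l, R.mem s t z := by
    rw [regM, foldL_eq]
    clear hc h3 g3
    induction l with
    | nil => simp [inM_zero]
    | cons R l ih =>
      have hR := h2 R List.mem_cons_self
      simp only [locOK, an_iff, ble_iff, Nat.add_eq] at hR
      obtain ⟨r1, r2, r3, r4, r5, r6, r7, r8⟩ := hR
      rw [List.foldr_cons, inM_lor, ih fun c hc => h2 c (List.mem_cons_of_mem _ hc)]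
      simp only [List.mem_cons, exists_eq_or_imp, Nat.add_eq, Nat.sub_eq]
      refine or_congr_left ?_
      simp only [Rc.mem, ev_small s t (show R.x0 < 16384 by omega),
        ev_small s t (show R.x1 < 16384 by omega), ev_small s t (show R.y0 < 16384 by omega),
        ev_small s t (show R.y1 < 16384 by omega)]
      rw [inM_rect _ (by omega)]
      unfold Black at *
      simp only
      omega
  rw [cntT_shift]
  obtain ⟨a, b⟩ := g3 (z.1 - (ox - 4), z.2 - (oy - 4))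
  rw [key, ← cnt_pos] at a b
  omega

end Pool.Agent.P.MP_626a52_co
end

-- part Pool.Agent.P.MP_626a52_co.Tab
section

namespace Pool.Agent.P.MP_626a52_co

/-- the black cells of a rectangle are tiled -/
def Til (x0 x1 y0 y1 : ℤ) : Prop := ∃ TL : List (Finset (ℤ × ℤ)), (∀ T ∈ TL, GoodT T) ∧
  ∀ z, Black z → cntT z TL = if x0 ≤ z.1 ∧ z.1 < x1 ∧ y0 ≤ z.2 ∧ z.2 < y1 then 1 else 0

theorem Til.hcat {x0 x1 x2 y0 y1 : ℤ} (h : Til x0 x1 y0 y1) (h' : Til x1 x2 y0 y1) (a : x0 ≤ x1)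
    (b : x1 ≤ x2) : Til x0 x2 y0 y1 := by
  obtain ⟨l, g, e⟩ := h
  obtain ⟨m, g', e'⟩ := h'
  refine ⟨l ++ m, fun T hT => (List.mem_append.1 hT).elim (g T) (g' T), fun z hz => ?_⟩
  rw [cntT_append, e z hz, e' z hz]
  split_ifs <;> omega

theorem Til.vcat {x0 x1 y0 y1 y2 : ℤ} (h : Til x0 x1 y0 y1) (h' : Til x0 x1 y1 y2) (a : y0 ≤ y1)
    (b : y1 ≤ y2) : Til x0 x1 y0 y2 := by
  obtain ⟨l, g, e⟩ := h
  obtain ⟨m, g', e'⟩ := h'
  refine ⟨l ++ m, fun T hT => (List.mem_append.1 hT).elim (g T) (g' T), fun z hz => ?_⟩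
  rw [cntT_append, e z hz, e' z hz]
  split_ifs <;> omega

theorem Til.shift {x0 x1 y0 y1 : ℤ} (h : Til x0 x1 y0 y1) {u v : ℤ} (huv : (u + v) % 2 = 0) :
    Til (x0 + u) (x1 + u) (y0 + v) (y1 + v) := by
  obtain ⟨l, g, e⟩ := h
  refine ⟨l.map (shiftT u v), fun T hT => ?_, fun z hz => ?_⟩
  · obtain ⟨T', h', rfl⟩ := List.mem_map.1 hT
    exact (g T' h').shift huv
  · rw [cntT_shift, e _ (by unfold Black at *; simp only; omega)]
    simp only
    split_ifs <;> omega

def TP (p q par : ℕ) : Prop := ∀ x y : ℤ, (x + y) % 2 = par → Til x (x + p) y (y + q)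

def Tld (s t : ℕ) (l : List Rc) : Prop := ∃ TL : List (Finset (ℤ × ℤ)), (∀ T ∈ TL, GoodT T) ∧
  ∀ z, Black z → cntT z TL = cnt s t z l

theorem Tld.append {s t : ℕ} {l m : List Rc} (h : Tld s t l) (h' : Tld s t m) :
    Tld s t (l ++ m) := by
  obtain ⟨a, g, e⟩ := h
  obtain ⟨b, g', e'⟩ := h'
  refine ⟨a ++ b, fun T hT => (List.mem_append.1 hT).elim (g T) (g' T), fun z hz => ?_⟩
  rw [cntT_append, cnt_append, e z hz, e' z hz]

theorem cnt_one (s t : ℕ) (z : ℤ × ℤ) (R : Rc) : cnt s t z [R] =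
    if ev s t R.x0 ≤ z.1 ∧ z.1 < ev s t R.x1 ∧ ev s t R.y0 ≤ z.2 ∧ z.2 < ev s t R.y1 then 1
    else 0 := by
  simp only [cnt, List.countP_cons, List.countP_nil, zero_add, decide_eq_true_eq]
  rfl

theorem tld_one {s t : ℕ} {R : Rc} :
    Tld s t [R] ↔ Til (ev s t R.x0) (ev s t R.x1) (ev s t R.y0) (ev s t R.y1) := by
  simp only [Tld, Til, cnt_one]

theorem tld_all {s t : ℕ} {l : List Rc} (h : ∀ R ∈ l, Tld s t [R]) : Tld s t l := by
  induction l with
  | nil => exact ⟨[], by simp, fun _ _ => rfl⟩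
  | cons R l ih =>
    exact (h R List.mem_cons_self).append (ih fun Q hQ => h Q (List.mem_cons_of_mem _ hQ))

theorem tld_expl {ox oy : ℕ} {l : List Rc} {tiles : List ℕ} (h : expl ox oy l tiles = true)
    {s t : ℕ} (hc : ∀ z, Black z → cnt s t z l ≤ 1) : Tld s t l := by
  obtain ⟨TL, g, -, e⟩ := expl_sound h s t
  exact ⟨TL, g, fun z hz => e z hz (hc z hz)⟩

noncomputable section

def idx (p q par : ℕ) : ℕ := Nat.add (Nat.mul (Nat.add (Nat.mul p 64) q) 2) par

def has (m p q par : ℕ) : Bool :=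
  an (Nat.ble p 63) (an (Nat.ble q 63) (an (Nat.ble par 1) (Nat.beq (fld m (idx p q par) 2) 1)))

def look0 (m : ℕ) (R : Rc) : Bool :=
  an (Nat.ble R.x1 4000) (an (Nat.ble R.y1 4000) (an (Nat.ble R.x0 R.x1) (an (Nat.ble R.y0 R.y1)
    (has m (Nat.sub R.x1 R.x0) (Nat.sub R.y1 R.y0) (Nat.mod (Nat.add R.x0 R.y0) 2)))))

def rcK {α : Type} (n : ℕ) (k : Rc → α) : α :=
  force (fld n 0 128) fun a => force (fld n 7 128) fun b => force (fld n 14 128) fun c =>
    force (fld n 21 128) fun d => k ⟨a, b, c, d⟩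

structure TE where
  w : ℕ
  subs : List ℕ
  ex : List ℕ
  ts : List ℕ

def app {α : Type} (l m : List α) : List α := foldL (fun a t => a :: t) m l

def teOK (m : ℕ) (e : TE) : Bool :=
  rcK e.w fun W => mapK rcK e.subs fun l => mapK rcK e.ex fun l' =>
    an (Nat.beq W.y0 0) (an (Nat.ble W.x0 1) (an (Nat.ble W.x1 63) (an (Nat.ble W.y1 63)
      (an (allL l (look0 m)) (an (eqB (app l l') [W]) (expl 0 0 l' e.ts))))))

def teBit (e : TE) : ℕ :=
  Nat.shiftLeft 1 (idx (Nat.sub (fld e.w 7 128) (fld e.w 0 128)) (fld e.w 21 128) (fld e.w 0 128))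

def tabChk (l : List TE) (m1 : ℕ) : ℕ → Bool :=
  List.rec (fun m => Nat.beq m m1)
    (fun e _ ih m => an (teOK m e) (force (Nat.lor m (teBit e)) ih)) l

def red (p : ℕ) : ℕ := sel (Nat.ble p 48) p (Nat.add 25 (Nat.mod (Nat.sub p 25) 24))

def goodB (p : ℕ) : Bool := orr (Nat.beq p 3) (Nat.ble 6 p)

def look (m : ℕ) (R : Rc) : Bool :=
  force (Nat.sub R.x1 R.x0) fun w => force (Nat.sub R.y1 R.y0) fun h =>
  force (red (Nat.mod w 16384)) fun p => force (red (Nat.mod h 16384)) fun q =>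
    an (has m p q (Nat.mod (Nat.add R.x0 R.y0) 2))
      (orr (an (goodB p) (goodB q)) (an (Nat.beq w p) (Nat.beq h q)))

def strips (m : ℕ) : Bool :=
  allL [3, 7, 8] fun q => allL [0, 1] fun par => an (has m 24 q par) (has m q 24 par)

end

def TabOK (m : ℕ) : Prop := ∀ p q par, has m p q par = true → TP p q par

theorem has_iff {m p q par : ℕ} : has m p q par = true ↔
    p ≤ 63 ∧ q ≤ 63 ∧ par ≤ 1 ∧ m.testBit ((p * 64 + q) * 2 + par) = true := by
  simp only [has, an_iff, ble_iff, beq_iff, fld_eq, idx, Nat.add_eq, Nat.mul_eq,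
    Nat.testBit_eq_decide_div_mod_eq, decide_eq_true_eq]

theorem app_eq {α : Type} (l m : List α) : app l m = l ++ m := by
  simpa [app] using foldL_map (fun a : α => a) m l

theorem look0_sound {m : ℕ} (hm : TabOK m) {R : Rc} (h : look0 m R = true) (s t : ℕ) :
    Tld s t [R] := by
  simp only [look0, an_iff, ble_iff, Nat.sub_eq, Nat.add_eq] at h
  obtain ⟨h1, h2, h3, h4, h5⟩ := h
  have := hm _ _ _ h5 R.x0 R.y0 (by
    have : (R.x0 + R.y0).mod 2 = (R.x0 + R.y0) % 2 := rfl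
    omega)
  rw [tld_one, ev_small s t (by omega), ev_small s t (by omega), ev_small s t (by omega),
    ev_small s t (by omega)]
  convert this using 1 <;> omega

theorem rcK_eq {α : Type} (n : ℕ) (k : Rc → α) :
    rcK n k = k ⟨fld n 0 128, fld n 7 128, fld n 14 128, fld n 21 128⟩ := by
  simp only [rcK, force_eq]

theorem teOK_sound {m : ℕ} (hm : TabOK m) {e : TE} (h : teOK m e = true) :
    fld e.w 0 128 ≤ 1 ∧ fld e.w 7 128 ≤ 63 ∧ fld e.w 21 128 ≤ 63 ∧
      TP (fld e.w 7 128 - fld e.w 0 128) (fld e.w 21 128) (fld e.w 0 128) := by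
  obtain ⟨l, hl⟩ := mapK_ex (γ := Bool) (f := rcK) (fun a => ⟨_, rcK_eq a⟩) e.subs
  obtain ⟨l', hl'⟩ := mapK_ex (γ := Bool) (f := rcK) (fun a => ⟨_, rcK_eq a⟩) e.ex
  rw [teOK, rcK_eq, hl, hl'] at h
  simp only [an_iff, beq_iff, ble_iff, allL_iff, app_eq] at h
  obtain ⟨h1, h2, h3, h4, h5, h6, h7⟩ := h
  refine ⟨h2, h3, h4, fun x y hxy => ?_⟩
  have hv := (valid_sound ((eqB_valid h6).2 _ List.mem_cons_self)).2.1
  have c := eqB_sound h6 0 0
  have t1 : Tld 0 0 l := tld_all fun R hR => look0_sound hm (h5 R hR) 0 0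
  have t2 : Tld 0 0 l' := tld_expl h7 fun z _ => by
    have := c z
    rw [cnt_append, cnt_one] at this
    split_ifs at this <;> omega
  obtain ⟨TL, g, e'⟩ := t1.append t2
  have t3 := tld_one.1 ⟨TL, g, fun z hz => (e' z hz).trans (c z)⟩
  simp only [LE3] at hv
  simp only [h1] at t3
  rw [ev_small 0 0 (by omega), ev_small 0 0 (by omega), ev_small 0 0 (by omega),
    ev_small 0 0 (by omega)] at t3
  have := t3.shift (u := x - fld e.w 0 128) (v := y) (by omega)
  convert this using 1 <;> omega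

theorem tabChk_sound (l : List TE) (m1 : ℕ) : ∀ m, TabOK m → tabChk l m1 m = true → TabOK m1 := by
  induction l with
  | nil => intro m hm h; exact (beq_iff _ _).1 h ▸ hm
  | cons e l ih =>
    intro m hm h
    have e' : tabChk (e :: l) m1 m = an (teOK m e) (force (Nat.lor m (teBit e)) (tabChk l m1)) :=
      rfl
    rw [e', an_iff, force_eq] at h
    refine ih _ (fun p q par hp => ?_) h.2
    obtain ⟨a, b, c, d⟩ := teOK_sound hm h.1
    obtain ⟨p1, p2, p3, p4⟩ := has_iff.1 hp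
    have : (Nat.lor m (teBit e)).testBit ((p * 64 + q) * 2 + par) =
      (m.testBit ((p * 64 + q) * 2 + par) || (teBit e).testBit ((p * 64 + q) * 2 + par)) :=
      Nat.testBit_or _ _ _
    rw [this, Bool.or_eq_true] at p4
    rcases p4 with p4 | p4
    · exact hm p q par (has_iff.2 ⟨p1, p2, p3, p4⟩)
    · simp only [teBit, shl_eq, one_mul, Nat.testBit_two_pow, decide_eq_true_eq, idx, Nat.add_eq,
        Nat.mul_eq, Nat.sub_eq] at p4
      have e1 : p = fld e.w 7 128 - fld e.w 0 128 := by omega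
      have e2 : q = fld e.w 21 128 := by omega
      have e3 : par = fld e.w 0 128 := by omega
      rw [e1, e2, e3]; exact d

theorem tabOK_zero : TabOK 0 := fun p q par h => by simp [has_iff] at h

theorem strips_sound {m : ℕ} (hm : TabOK m) (h : strips m = true) (q : ℕ) (hq : q = 3 ∨ 6 ≤ q) :
    ∀ x y : ℤ, Til x (x + 24) y (y + q) ∧ Til x (x + q) y (y + 24) := by
  simp only [strips, allL_iff, an_iff] at h
  have base : ∀ q ∈ [3, 7, 8], ∀ x y : ℤ,
      Til x (x + 24) y (y + (q : ℕ)) ∧ Til x (x + (q : ℕ)) y (y + 24) := by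
    intro q hq x y
    rcases Int.emod_two_eq_zero_or_one (x + y) with c | c
    · exact ⟨hm _ _ _ (h q hq 0 (by simp)).1 x y c, hm _ _ _ (h q hq 0 (by simp)).2 x y c⟩
    · exact ⟨hm _ _ _ (h q hq 1 (by simp)).1 x y c, hm _ _ _ (h q hq 1 (by simp)).2 x y c⟩
  induction q using Nat.strong_induction_on with
  | _ q ih =>
    by_cases c : q ∈ [3, 7, 8]
    · exact base q c
    simp only [List.mem_cons, List.not_mem_nil, or_false] at c
    obtain ⟨r, rfl⟩ : ∃ r, q = r + 3 := ⟨q - 3, by omega⟩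
    intro x y
    have a := ih r (by omega) (by omega)
    have e : ∀ u : ℤ, u + (r + 3 : ℕ) = u + r + (3 : ℕ) := fun u => by push_cast; ring
    rw [e, e]
    exact ⟨(a x y).1.vcat (base 3 (by simp) x (y + r)).1 (by omega) (by omega),
      (a x y).2.hcat (base 3 (by simp) (x + r) y).2 (by omega) (by omega)⟩

theorem inflate {m : ℕ} (hm : TabOK m) (h : strips m = true) {p q : ℕ} (hp : p = 3 ∨ 6 ≤ p)
    (hq : q = 3 ∨ 6 ≤ q) {x y : ℤ} (h0 : Til x (x + p) y (y + q)) (k l : ℕ) :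
    Til x (x + p + 24 * k) y (y + q + 24 * l) := by
  have h1 : Til x (x + p + 24 * k) y (y + q) := by
    induction k with
    | zero => simpa using h0
    | succ k ih =>
      have := ih.hcat (strips_sound hm h q hq (x + p + 24 * k) y).1 (by omega) (by omega)
      convert this using 1; push_cast; ring
  induction l with
  | zero => simpa using h1
  | succ l ih =>
    have a := (strips_sound hm h (p + 24 * k) (by omega) x (y + q + 24 * l)).2
    have e : x + (p + 24 * k : ℕ) = x + p + 24 * k := by push_cast; ring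
    rw [e] at a
    have := ih.vcat a (by omega) (by omega)
    convert this using 1; push_cast; ring

theorem red_spec (p : ℕ) : ∃ k, p = red p + 24 * k := by
  rw [red, sel_eq]
  split_ifs with c
  · exact ⟨0, rfl⟩
  · rw [ble_iff] at c
    have : Nat.add 25 (Nat.mod (Nat.sub p 25) 24) = 25 + (p - 25) % 24 := rfl
    exact ⟨(p - 25) / 24, by omega⟩

theorem ev_red (s t w : ℕ) : ∃ k : ℕ, ev s t w = red (w % 16384) + 24 * k := by
  obtain ⟨k, hk⟩ := red_spec (w % 16384)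
  refine ⟨k + (w / 16384 % 128 * s + w / 2097152 * t), ?_⟩
  rw [ev]
  conv_lhs => rw [hk]
  push_cast; ring

theorem look_sound {m : ℕ} (hm : TabOK m) (hs : strips m = true) {R : Rc} (hv : R.valid = true)
    (h : look m R = true) (s t : ℕ) : Tld s t [R] := by
  simp only [look, force_eq, an_iff, orr_iff, goodB, beq_iff, ble_iff, Nat.sub_eq,
    Nat.add_eq] at h
  obtain ⟨h1, h2⟩ := h
  obtain ⟨-, v1, v2, -⟩ := valid_sound hv
  have a := ev_sub s t v1
  have b := ev_sub s t v2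
  have c := hm _ _ _ h1 (ev s t R.x0) (ev s t R.y0) (by
    have : (R.x0 + R.y0).mod 2 = (R.x0 + R.y0) % 2 := rfl
    have := ev_par s t R.x0
    have := ev_par s t R.y0
    omega)
  have p63 := has_iff.1 h1
  rw [tld_one]
  rcases h2 with h2 | h2
  · obtain ⟨k, hk⟩ := ev_red s t (R.x1 - R.x0)
    obtain ⟨l, hl⟩ := ev_red s t (R.y1 - R.y0)
    have := inflate hm hs h2.1 h2.2 c k l
    have e1 : ∀ w : ℕ, w.mod 16384 = w % 16384 := fun _ => rfl
    rw [e1, e1] at this
    convert this using 1 <;> omega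
  · rw [← h2.1, ← h2.2] at c p63
    rw [ev_small s t (by omega)] at a b
    convert c using 1 <;> omega

end Pool.Agent.P.MP_626a52_co
end

-- part Pool.Agent.P.MP_626a52_co.Inst
section

namespace Pool.Agent.P.MP_626a52_co
open Finset

noncomputable def rectF (x0 x1 y0 y1 : ℤ) : Finset (ℤ × ℤ) := (Ico x0 x1 ×ˢ Ico y0 y1).filter Black

theorem mem_rectF {x0 x1 y0 y1 : ℤ} {z : ℤ × ℤ} :
    z ∈ rectF x0 x1 y0 y1 ↔ Black z ∧ x0 ≤ z.1 ∧ z.1 < x1 ∧ y0 ≤ z.2 ∧ z.2 < y1 := by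
  simp only [rectF, mem_filter, mem_product, mem_Ico]; tauto

theorem row_sum (c : ℤ) (q : ℕ) :
    2 * (∑ j ∈ range q, if (c + j) % 2 = 1 then (1 : ℤ) else 0) = q + (q % 2) * (2 * (c % 2) - 1) := by
  induction q with
  | zero => simp
  | succ q ih =>
    rw [sum_range_succ, mul_add, ih]
    push_cast
    rcases Int.emod_two_eq_zero_or_one c with h | h <;>
      rcases Int.emod_two_eq_zero_or_one q with h' | h' <;>
      simp only [h, h', Int.add_emod, Int.reduceMod, Int.reduceAdd] <;> norm_num <;> ring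

theorem card_rectF (x y : ℤ) (p q : ℕ) : 2 * ((rectF x (x + p) y (y + q)).card : ℤ) =
    p * q + (p % 2) * (q % 2) * (2 * ((x + y) % 2) - 1) := by
  have e : ((rectF x (x + p) y (y + q)).card : ℤ) =
      ∑ i ∈ range p, ∑ j ∈ range q, if (x + i + y + j) % 2 = 1 then (1 : ℤ) else 0 := by
    rw [rectF, card_filter, sum_product, Int.Ico_eq_finset_map, Int.Ico_eq_finset_map]
    simp only [sum_map, Black, add_sub_cancel_left, Int.toNat_natCast, add_assoc]
    push_cast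
    refine sum_congr rfl fun i _ => sum_congr rfl fun j _ => ?_
    simp [add_assoc]
  rw [e]
  clear e
  induction p with
  | zero => simp
  | succ p ih =>
    rw [sum_range_succ, mul_add, ih, row_sum]
    push_cast
    rcases Int.emod_two_eq_zero_or_one (x + y) with h | h <;>
      rcases Int.emod_two_eq_zero_or_one p with h' | h' <;>
      rcases Int.emod_two_eq_zero_or_one q with h'' | h''
    all_goals
      have a : (x + p + y) % 2 = ((x + y) % 2 + p % 2) % 2 := by omega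
      have b : ((p : ℤ) + 1) % 2 = (p % 2 + 1) % 2 := by omega
      rw [a, b, h, h', h'']; norm_num; ring

noncomputable section

def f0 (f : ℕ) : ℕ := Nat.mod f 16384
def f1 (f : ℕ) : ℕ := fld f 14 128
def f2 (f : ℕ) : ℕ := Nat.shiftRight f 21
def sm (f : ℕ × ℕ × ℕ → ℕ) (l : List (ℕ × ℕ × ℕ)) : ℕ := foldL (fun R n => Nat.add (f R) n) 0 l
def eps (w h c : ℕ) : ℕ :=
  sel (Nat.beq (Nat.mul (Nat.mod w 2) (Nat.mod h 2)) 1) (Nat.mul 2 (Nat.mod c 2)) 1

def whK {α : Type} (b : Blk) (k : ℕ × ℕ × ℕ → α) : α :=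
  force (Nat.sub b.R.x1 b.R.x0) fun w => force (Nat.sub b.R.y1 b.R.y0) fun h =>
    force (eps w h (Nat.add b.R.x0 b.R.y0)) fun e => k (w, h, e)

def mm (f g : ℕ → ℕ) (a b : ℕ) : ℕ := Nat.add (Nat.mul (f a) (g b)) (Nat.mul (g a) (f b))

def co (A B : ℕ) (l : List (ℕ × ℕ × ℕ)) (f g : ℕ → ℕ) : Bool :=
  Nat.beq (sm (fun e => mm f g e.1 e.2.1) l) (Nat.mul 6 (Nat.add (mm f g A A) (mm f g B B)))

def polyC (A B : ℕ) (l : List (ℕ × ℕ × ℕ)) : Bool :=
  an (Nat.beq (sm (fun e => Nat.add (Nat.mul (f0 e.1) (f0 e.2.1)) e.2.2) l)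
      (Nat.add (Nat.mul 3 (Nat.add (mm f0 f0 A A) (mm f0 f0 B B))) (lenL l)))
    (an (co A B l f0 f1) (an (co A B l f0 f2) (an (co A B l f1 f1) (an (co A B l f1 f2)
      (co A B l f2 f2)))))

structure GR where
  bs : List RB
  ox : ℕ
  oy : ℕ
  ts : List ℕ

def rbR (b : RB) : Rc :=
  ⟨fld b.h 0 268435456, fld b.h 28 268435456, fld b.h 56 268435456, fld b.h 84 268435456⟩

def rsOf (l : List RB) : List Rc := foldL (fun b t => rbR b :: t) [] l

def grpOK (m : ℕ) (g : GR) : Bool :=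
  sel (isNil g.ts) (allL (rsOf g.bs) (look m)) (expl g.ox g.oy (rsOf g.bs) g.ts)

def flat (gs : List GR) : List RB := foldL (fun g l => app g.bs l) [] gs

def keyA (k : ℕ) : ℕ :=
  Nat.add (Nat.mul 2 (Nat.add (fld k 0 64) (fld k 6 64)))
    (Nat.add (Nat.mul 16384 (fld k 12 2)) (Nat.mul 2097152 (fld k 13 2)))
def keyB (k : ℕ) : ℕ := Nat.add (Nat.mul 2 (fld k 6 64)) (Nat.mul 2097152 (fld k 13 2))

def inst (m k : ℕ) (gs : List GR) (fw : List ℕ) : Bool :=
  force (keyA k) fun A => force (keyB k) fun B =>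
    an (allL gs (grpOK m)) (mapK (blkD A B) (flat gs) fun bl =>
      an (netCheck A B bl (fwD fw)) (mapK whK bl (polyC A B)))

end

theorem mapK_fun {α β γ : Type} {f : α → (β → γ) → γ} {φ : α → β} (hf : ∀ a k, f a k = k (φ a))
    (l : List α) : ∀ k, mapK f l k = k (l.map φ) := by
  induction l with
  | nil => exact fun _ => rfl
  | cons a l ih =>
    intro k
    have : mapK f (a :: l) k = f a fun b => mapK f l fun m => k (b :: m) := rfl
    rw [this, hf, ih, List.map_cons]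

theorem blkD_ex (A B : ℕ) (b : RB) : ∃ d : Blk, d.R = rbR b ∧ ∀ k : Blk → Bool, blkD A B b k = k d := by
  obtain ⟨ps, h⟩ := mapK_ex (γ := Bool) (f := pcD A B)
    (fun a => ⟨_, fun k => by simp only [pcD, pcK, force_eq]; rfl⟩) b.ps
  exact ⟨_, rfl, fun k => by simp only [blkD, h, force_eq]; rfl⟩

theorem ev_f (s t f : ℕ) : ev s t f = f0 f + f1 f * (24 * s) + f2 f * (24 * t) := by
  have a : f0 f = f % 16384 := rfl
  have b : f1 f = f / 16384 % 128 := by rw [f1, fld_eq]; norm_num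
  have c : f2 f = f / 2097152 := by
    have : f2 f = f >>> 21 := rfl
    rw [this, Nat.shiftRight_eq_div_pow]
  rw [a, b, c, ev]; ring

theorem sm_cons (f : ℕ × ℕ × ℕ → ℕ) (e : ℕ × ℕ × ℕ) (l : List (ℕ × ℕ × ℕ)) :
    sm f (e :: l) = f e + sm f l := rfl

theorem polyC_sound {A B : ℕ} {l : List (ℕ × ℕ × ℕ)} (h : polyC A B l = true) (s t : ℕ) :
    (l.map fun e => ev s t e.1 * ev s t e.2.1 + e.2.2 - 1).sum =
      6 * (ev s t A ^ 2 + ev s t B ^ 2) := by
  have key : 2 * (l.map fun e => ev s t e.1 * ev s t e.2.1 + e.2.2 - 1).sum =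
      2 * (sm (fun e => Nat.add (Nat.mul (f0 e.1) (f0 e.2.1)) e.2.2) l : ℤ) - 2 * l.length +
      2 * sm (fun e => mm f0 f1 e.1 e.2.1) l * (24 * s) +
      2 * sm (fun e => mm f0 f2 e.1 e.2.1) l * (24 * t) +
      sm (fun e => mm f1 f1 e.1 e.2.1) l * (24 * s) ^ 2 +
      2 * sm (fun e => mm f1 f2 e.1 e.2.1) l * (24 * s) * (24 * t) +
      sm (fun e => mm f2 f2 e.1 e.2.1) l * (24 * t) ^ 2 := by
    clear h
    induction l with
    | nil => simp [sm, foldL]
    | cons e l ih =>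
      simp only [List.map_cons, List.sum_cons, sm_cons, List.length_cons, mul_add, ih]
      simp only [mm, Nat.add_eq, Nat.mul_eq, ev_f]
      push_cast; ring
  simp only [polyC, co, an_iff, beq_iff, lenL_eq] at h
  obtain ⟨h1, h2, h3, h4, h5, h6⟩ := h
  rw [h1, h2, h3, h4, h5, h6] at key
  simp only [mm, Nat.add_eq, Nat.mul_eq] at key
  rw [ev_f s t A, ev_f s t B]
  push_cast at key
  linarith

theorem sum_cntT (S : Finset (ℤ × ℤ)) (TL : List (Finset (ℤ × ℤ)))
    (h : ∀ T ∈ TL, T ⊆ S ∧ T.card = 12) : ∑ z ∈ S, cntT z TL = 12 * TL.length := by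
  induction TL with
  | nil => simp [cntT]
  | cons T l ih =>
    have e : ∀ z, cntT z (T :: l) = cntT z l + if z ∈ T then 1 else 0 := fun z => by
      simp [cntT, List.countP_cons]
    obtain ⟨a, b⟩ := h T List.mem_cons_self
    simp only [e, sum_add_distrib, ih fun Q hQ => h Q (List.mem_cons_of_mem _ hQ),
      List.length_cons]
    rw [← card_filter, filter_mem_eq_inter, inter_eq_right.2 a, b]; ring

theorem sum_cnt (s t : ℕ) (S : Finset (ℤ × ℤ)) (hS : ∀ z ∈ S, Black z) (l : List Rc)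
    (h : ∀ R ∈ l, ∀ z, Black z → R.mem s t z → z ∈ S) : ∑ z ∈ S, cnt s t z l =
      (l.map fun R => (rectF (ev s t R.x0) (ev s t R.x1) (ev s t R.y0) (ev s t R.y1)).card).sum := by
  induction l with
  | nil => simp [cnt]
  | cons R l ih =>
    have e : ∀ z, cnt s t z (R :: l) = (if R.mem s t z then 1 else 0) + cnt s t z l := fun z => by
      simp [cnt, List.countP_cons, add_comm]
    simp only [e, sum_add_distrib, ih fun Q hQ => h Q (List.mem_cons_of_mem _ hQ),
      List.map_cons, List.sum_cons]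
    rw [← card_filter]
    congr 2
    ext z
    rw [mem_rectF, mem_filter]
    exact ⟨fun c => ⟨hS z c.1, c.2⟩, fun c => ⟨h R List.mem_cons_self z c.1 c.2, c.2⟩⟩

theorem card_blk (s t : ℕ) {R : Rc} (hv : R.valid = true) :
    2 * ((rectF (ev s t R.x0) (ev s t R.x1) (ev s t R.y0) (ev s t R.y1)).card : ℤ) =
      ev s t (R.x1 - R.x0) * ev s t (R.y1 - R.y0) +
        eps (R.x1 - R.x0) (R.y1 - R.y0) (R.x0 + R.y0) - 1 := by
  obtain ⟨-, v1, v2, -⟩ := valid_sound hv
  have a := ev_sub s t v1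
  have b := ev_sub s t v2
  obtain ⟨p, hp⟩ := Int.eq_ofNat_of_zero_le (ev_nonneg s t (R.x1 - R.x0))
  obtain ⟨q, hq⟩ := Int.eq_ofNat_of_zero_le (ev_nonneg s t (R.y1 - R.y0))
  have c1 := ev_par s t (R.x1 - R.x0)
  have c2 := ev_par s t (R.y1 - R.y0)
  have c3 := ev_par s t R.x0
  have c4 := ev_par s t R.y0
  rw [show ev s t R.x1 = ev s t R.x0 + p by omega, show ev s t R.y1 = ev s t R.y0 + q by omega,
    card_rectF, hp, hq]
  rw [hp] at c1
  rw [hq] at c2
  have c5 : (ev s t R.x0 + ev s t R.y0) % 2 = ((R.x0 + R.y0) % 2 : ℕ) := by omega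
  have e : ∀ w : ℕ, w.mod 2 = w % 2 := fun _ => rfl
  rw [c1, c2, c5, eps, sel_eq, e, e, e]
  rcases Nat.mod_two_eq_zero_or_one (R.x1 - R.x0) with h | h <;>
    rcases Nat.mod_two_eq_zero_or_one (R.y1 - R.y0) with h' | h' <;>
    rcases Nat.mod_two_eq_zero_or_one (R.x0 + R.y0) with h'' | h'' <;>
    rw [h, h', h''] <;> simp <;> ring

theorem cnt_le_one {s t : ℕ} {z : ℤ × ℤ} (hz : Black z) {l : List Rc}
    (h : l.Pairwise (DisB s t)) : cnt s t z l ≤ 1 := by
  induction l with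
  | nil => simp [cnt]
  | cons R l ih =>
    rw [List.pairwise_cons] at h
    have e : cnt s t z (R :: l) = cnt s t z l + if R.mem s t z then 1 else 0 := by
      simp [cnt, List.countP_cons]
    rw [e]
    split_ifs with c
    · rw [cnt_zero fun Q hQ hm => h.1 Q hQ z hz c hm]
    · exact ih h.2

theorem grp_sound {m : ℕ} (hm : TabOK m) (hs : strips m = true) (s t : ℕ) (gs : List GR)
    (h : ∀ g ∈ gs, grpOK m g = true) (hv : ∀ b ∈ flat gs, (rbR b).valid = true)
    (hc : ∀ z, Black z → cnt s t z ((flat gs).map rbR) ≤ 1) : Tld s t ((flat gs).map rbR) := by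
  induction gs with
  | nil => exact ⟨[], by simp, fun _ _ => rfl⟩
  | cons g gs ih =>
    have e : flat (g :: gs) = g.bs ++ flat gs := app_eq _ _
    rw [e] at hv hc ⊢
    rw [List.map_append] at hc ⊢
    refine Tld.append ?_ (ih (fun a ha => h a (List.mem_cons_of_mem _ ha))
      (fun b hb => hv b (List.mem_append_right _ hb)) fun z hz => ?_)
    · have := h g List.mem_cons_self
      rw [grpOK, sel_eq, rsOf, foldL_map, List.append_nil] at this
      split_ifs at this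
      · rw [allL_iff] at this
        refine tld_all fun R hR => look_sound hm hs ?_ (this R hR) s t
        obtain ⟨b, hb, rfl⟩ := List.mem_map.1 hR
        exact hv b (List.mem_append_left _ hb)
      · refine tld_expl this fun z hz => ?_
        have := hc z hz
        rw [cnt_append] at this; omega
    · have := hc z hz
      rw [cnt_append] at this; omega

theorem pw_of_countP {α : Type} {p : α → Bool} {l : List α} (h : l.countP p ≤ 1) :
    l.Pairwise fun a b => p a = true → p b = true → False := by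
  induction l with
  | nil => exact List.Pairwise.nil
  | cons a l ih =>
    rw [List.countP_cons] at h
    refine List.Pairwise.cons (fun b hb pa pb => ?_) (ih (by omega))
    have := List.countP_pos_iff.2 ⟨b, hb, pb⟩
    rw [if_pos pa] at h; omega

theorem assemble {S : Finset (ℤ × ℤ)} {TL : List (Finset (ℤ × ℤ))} (hS : ∀ z ∈ S, Black z)
    (h1 : IsPolyomino (S.image toCell)) (h2 : IsCubeNet (region (S.image toCell)))
    (g : ∀ T ∈ TL, GoodT T) (c : ∀ z, Black z → cntT z TL ≤ 1 ∧ (0 < cntT z TL ↔ z ∈ S)) :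
    IsRegularRepCube TL.length (S.image toCell) := by
  have gi : ∀ i : Fin TL.length, GoodT TL[i] := fun i => g _ (List.getElem_mem _)
  have cp : ∀ z, 0 < cntT z TL ↔ ∃ i : Fin TL.length, z ∈ TL[i] := fun z => by
    simp only [cntT, List.countP_pos_iff, decide_eq_true_eq]
    constructor
    · rintro ⟨T, hT, hz⟩
      obtain ⟨i, hi, rfl⟩ := List.getElem_of_mem hT
      exact ⟨⟨i, hi⟩, hz⟩
    · rintro ⟨i, hz⟩; exact ⟨_, List.getElem_mem _, hz⟩
  have cd : ∀ i : Fin TL.length, (TL[i].image toCell).card = 12 := fun i => by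
    rw [card_image_of_injOn fun a ha b hb e => toCell_inj ((gi i).1 a ha) ((gi i).1 b hb) e,
      (gi i).2.1]
  refine ⟨h1, h2, fun i => TL[i].image toCell, fun i => (gi i).2.2, fun i j hij => ?_,
    fun x => ?_, fun i j => by rw [cd, cd]⟩
  · rw [disjoint_left]
    intro x hx hx'
    obtain ⟨z, hz, rfl⟩ := mem_image.1 hx
    obtain ⟨w, hw, e⟩ := mem_image.1 hx'
    have bz := (gi i).1 z hz
    rw [toCell_inj ((gi j).1 w hw) bz e] at hw
    have := List.pairwise_iff_getElem.1 (pw_of_countP (c z bz).1)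
    rcases lt_or_gt_of_ne hij with l | l
    · exact this i j i.2 j.2 l (decide_eq_true hz) (decide_eq_true hw)
    · exact this j i j.2 i.2 l (decide_eq_true hw) (decide_eq_true hz)
  · simp only [mem_image]
    constructor
    · rintro ⟨z, hz, rfl⟩
      obtain ⟨i, hi⟩ := (cp z).1 ((c z (hS z hz)).2.2 hz)
      exact ⟨i, z, hi, rfl⟩
    · rintro ⟨i, z, hz, rfl⟩
      exact ⟨z, (c z ((gi i).1 z hz)).2.1 ((cp z).2 ⟨i, hz⟩), rfl⟩

def RC (a b : ℕ) : Prop := ∃ P, IsRegularRepCube (a ^ 2 + b ^ 2) P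

def Fam (k : ℕ) : Prop := ∀ s t : ℕ,
  RC (fld k 0 64 + fld k 6 64 + 12 * (fld k 12 2 * s + fld k 13 2 * t))
    (fld k 6 64 + 12 * (fld k 13 2 * t))

theorem exists_S (s t : ℕ) (bl : List Blk) :
    ∃ S : Finset (ℤ × ℤ), ∀ z, z ∈ S ↔ Black z ∧ ∃ b ∈ bl, b.R.mem s t z := by
  induction bl with
  | nil => exact ⟨∅, by simp⟩
  | cons b l ih =>
    obtain ⟨S, hS⟩ := ih
    refine ⟨rectF (ev s t b.R.x0) (ev s t b.R.x1) (ev s t b.R.y0) (ev s t b.R.y1) ∪ S, fun z => ?_⟩
    simp only [mem_union, mem_rectF, hS, List.mem_cons, exists_eq_or_imp, Rc.mem]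
    tauto

theorem inst_sound {m : ℕ} (hm : TabOK m) (hs : strips m = true) {k : ℕ} {gs : List GR}
    {fw : List ℕ} (h : inst m k gs fw = true) : Fam k := by
  intro s t
  choose φ h1 h2 using blkD_ex (keyA k) (keyB k)
  simp only [inst, force_eq, an_iff, allL_iff, mapK_fun h2] at h
  obtain ⟨hg, hn, hp⟩ := h
  rw [mapK_fun (f := whK) (φ := fun b => (b.R.x1 - b.R.x0, b.R.y1 - b.R.y0,
    eps (b.R.x1 - b.R.x0) (b.R.y1 - b.R.y0) (b.R.x0 + b.R.y0)))
    (fun a k => by simp only [whK, force_eq]; rfl)] at hp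
  obtain ⟨S, hS⟩ := exists_S s t ((flat gs).map φ)
  obtain ⟨n1, n2, n3, n4⟩ := netCheck_sound hn s t hS
  have hc : ∀ z, Black z → cnt s t z ((flat gs).map rbR) ≤ 1 := fun z hz =>
    cnt_le_one hz (by simpa only [List.pairwise_map, h1] using n3)
  have hv : ∀ b ∈ flat gs, (rbR b).valid = true := fun b hb =>
    h1 b ▸ n4 _ (List.mem_map_of_mem hb)
  obtain ⟨TL, g, e⟩ := grp_sound hm hs s t gs hg hv hc
  have hS' : ∀ z, z ∈ S ↔ Black z ∧ 0 < cnt s t z ((flat gs).map rbR) := fun z => by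
    simp only [hS, cnt_pos, List.mem_map, exists_exists_and_eq_and, h1]
  have hb : ∀ z ∈ S, Black z := fun z hz => ((hS' z).1 hz).1
  have r := assemble hb n1 n2 g fun z hz => by
    rw [e z hz, hS']; exact ⟨hc z hz, by simp [hz]⟩
  have s1 := sum_cntT S TL fun T hT => ⟨fun z hz => by
    have bz := (g T hT).1 z hz
    rw [hS', ← e z bz]
    exact ⟨bz, List.countP_pos_iff.2 ⟨T, hT, decide_eq_true hz⟩⟩, (g T hT).2.1⟩
  have s2 := sum_cnt s t S hb ((flat gs).map rbR) fun R hR z hz hm =>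
    (hS' z).2 ⟨hz, cnt_pos.2 ⟨R, hR, hm⟩⟩
  rw [sum_congr rfl fun z hz => e z (hb z hz), s2] at s1
  have s3 := polyC_sound hp s t
  have s4 : (2 * ((12 * TL.length : ℕ) : ℤ)) = 6 * (ev s t (keyA k) ^ 2 + ev s t (keyB k) ^ 2) := by
    rw [← s1, ← s3]
    simp only [List.map_map, Nat.cast_list_sum, ← List.sum_map_mul_left]
    refine congrArg _ (List.map_congr_left fun b hb => ?_)
    simp only [Function.comp, h1]
    exact card_blk s t (hv b hb)
  have b1 : fld k 0 64 < 64 := Nat.mod_lt _ (by norm_num)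
  have b2 : fld k 6 64 < 64 := Nat.mod_lt _ (by norm_num)
  have b3 : fld k 12 2 < 2 := Nat.mod_lt _ (by norm_num)
  have eA : keyA k = 2 * (fld k 0 64 + fld k 6 64) + (16384 * fld k 12 2 + 2097152 * fld k 13 2) :=
    rfl
  have eB : keyB k = 2 * fld k 6 64 + 2097152 * fld k 13 2 := rfl
  rw [ev_fields s t (a := 2 * (fld k 0 64 + fld k 6 64)) (b := fld k 12 2) (c := fld k 13 2)
    (by omega) (by omega) (by omega), ev_fields s t (a := 2 * fld k 6 64) (b := 0)
    (c := fld k 13 2) (by omega) (by omega) (by omega)] at s4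
  refine ⟨S.image toCell, ?_⟩
  convert r using 1
  zify
  push_cast at s4
  linarith

noncomputable def cov1 (k0 km n x : ℕ) : Bool :=
  sel (Nat.beq km 1) (an (Nat.ble k0 x) (Nat.beq (Nat.mod (Nat.sub x k0) 12) 0))
    (an (Nat.beq k0 x) (Nat.ble x n))

noncomputable def covB (K : List ℕ) : Bool :=
  allL (List.range 41) fun x => allL (List.range 36) fun b => anyL K fun k =>
    an (cov1 (fld k 0 64) (fld k 12 2) 28 x) (cov1 (fld k 6 64) (fld k 13 2) 24 (Nat.succ b))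

theorem cov1_sound {k0 km n x y : ℕ} (h : cov1 k0 km n x = true)
    (hy : y = x ∨ n < x ∧ x ≤ y ∧ (y - x) % 12 = 0) : ∃ s, y = k0 + 12 * (km * s) := by
  rw [cov1, sel_eq] at h
  split_ifs at h with c
  · simp only [an_iff, beq_iff, ble_iff, Nat.sub_eq] at h c
    have : (x - k0).mod 12 = (x - k0) % 12 := rfl
    exact ⟨(y - k0) / 12, by rw [c]; omega⟩
  · simp only [an_iff, beq_iff, ble_iff] at h
    exact ⟨0, by omega⟩

theorem cover_all {K : List ℕ} (hK : ∀ k ∈ K, Fam k) (h : covB K = true) (a b : ℕ) (ha : 1 ≤ a)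
    (hb : 1 ≤ b) : RC a b := by
  wlog hab : b ≤ a generalizing a b
  · have := this b a hb ha (by omega)
    rwa [RC, add_comm] at this
  simp only [covB, allL_iff, anyL_iff, an_iff, List.mem_range] at h
  obtain ⟨k, hk, c1, c2⟩ := h (if a - b ≤ 28 then a - b else 29 + (a - b - 29) % 12)
    (by split_ifs <;> omega) (if b ≤ 24 then b - 1 else 24 + (b - 25) % 12)
    (by split_ifs <;> omega)
  obtain ⟨s, hs⟩ := cov1_sound (y := a - b) c1 (by split_ifs <;> omega)
  obtain ⟨t, ht⟩ := cov1_sound (y := b) c2 (by split_ifs <;> omega)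
  convert hK k hk s t using 1
  omega

end Pool.Agent.P.MP_626a52_co
end
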